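import Mathlib
import Pool.Agent.Y90.Stm

/-!
# Weil classes and the ring generated by divisors and Weil classes

Complex abelian varieties, their homomorphisms, abelian subvarieties and complex multiplication are
described in `Pool.Agent.Y90.Stm`: a complex abelian variety (up to isogeny) is a period map
`per : H → T` with `H = H_1(X, ℚ)` and the tangent space `T`, and a cohomology class
`f ∈ H^κ(X, ℚ)` is an alternating form on `H` in variables indexed by the finite set `κ`.
-/

namespace Pool.Agent.Y4.P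

open Pool.Agent.H204R3.CM Pool.Agent.Y90.St

/-- `f ∈ H^n(Y, ℚ)` is a Weil class on the abelian variety `Y`: `f` is a Hodge class, and there is
a CM field `K` acting on `Y` by endomorphisms (up to isogeny), with `dim_K H_1(Y, ℚ) = n`, such
that the elements of `K` may be moved in `f` from each variable to each other variable (so `f` lies
in the line `Λ^n_K H¹(Y, ℚ)` over `K`). -/
def IsWeilClass {H T : Type} [AddCommGroup H] [Module ℚ H] [AddCommGroup T] [Module ℂ T]
    (per : H →+ T) (n : ℕ) (f : H [⋀^Fin n]→ₗ[ℚ] ℚ) : Prop :=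
  IsHodge per f ∧ ∃ (K : Type) (_ : Field K) (_ : NumberField K) (_ : NumberField.IsCMField K)
    (ι : K →+* Module.End ℚ H), (∀ a, IsHom per per (ι a)) ∧
      Module.finrank ℚ H = n * Module.finrank ℚ K ∧
      ∀ (a : K) (v : Fin n → H) (k l : Fin n),
        f (Function.update v k (ι a (v k))) = f (Function.update v l (ι a (v l)))

/-- The ring generated by the classes of divisors and by Weil classes: the smallest system of
cohomology classes `f ∈ H^κ(X, ℚ)` of the abelian variety `X` with the period map `per` which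
contains the classes of degree zero, the Hodge classes of degree two and the pull-backs, along
homomorphisms `X → Y`, of the Weil classes on abelian varieties `Y`, and which is stable under
linear combinations and cup products. -/
inductive WeilRing {H T : Type} [AddCommGroup H] [Module ℚ H] [AddCommGroup T] [Module ℂ T]
    (per : H →+ T) : (κ : Type) → (H [⋀^κ]→ₗ[ℚ] ℚ) → Prop
  /-- classes of degree zero -/
  | unit {κ : Type} [IsEmpty κ] (f : H [⋀^κ]→ₗ[ℚ] ℚ) : WeilRing per κ f
  /-- Hodge classes of degree two -/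
  | divisor {κ : Type} (hκ : Nat.card κ = 2) (f : H [⋀^κ]→ₗ[ℚ] ℚ)
      (hf : IsHodge per f) : WeilRing per κ f
  /-- pull-backs of Weil classes -/
  | weil {H' T' : Type} [AddCommGroup H'] [Module ℚ H'] [AddCommGroup T'] [Module ℂ T']
      {per' : H' →+ T'} (hY : IsAV per') {n : ℕ} (f : H' [⋀^Fin n]→ₗ[ℚ] ℚ)
      (hf : IsWeilClass per' n f) (h : H →ₗ[ℚ] H') (hh : IsHom per per' h) :
      WeilRing per (Fin n) (f.compLinearMap h)
  | zero (κ : Type) : WeilRing per κ 0
  | add {κ : Type} (f g : H [⋀^κ]→ₗ[ℚ] ℚ) (hf : WeilRing per κ f) (hg : WeilRing per κ g) :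
      WeilRing per κ (f + g)
  | smul {κ : Type} (a : ℚ) (f : H [⋀^κ]→ₗ[ℚ] ℚ) (hf : WeilRing per κ f) :
      WeilRing per κ (a • f)
  /-- renaming of the variables -/
  | reindex {κ κ' : Type} (e : κ ≃ κ') (f : H [⋀^κ]→ₗ[ℚ] ℚ) (hf : WeilRing per κ f) :
      WeilRing per κ' (f.domDomCongr e)
  /-- cup products (up to a factor) -/
  | cup {κ κ' : Type} [Fintype κ] [DecidableEq κ] [Fintype κ'] [DecidableEq κ']
      (f : H [⋀^κ]→ₗ[ℚ] ℚ) (g : H [⋀^κ']→ₗ[ℚ] ℚ) (hf : WeilRing per κ f) (hg : WeilRing per κ' g)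
      (h : H [⋀^κ ⊕ κ']→ₗ[ℚ] ℚ)
      (hh : ∀ v : κ ⊕ κ' → H, h v = ∑ σ : Equiv.Perm (κ ⊕ κ'), ((Equiv.Perm.sign σ : ℤ) : ℚ) *
        (f (fun k => v (σ (Sum.inl k))) * g (fun k => v (σ (Sum.inr k))))) :
      WeilRing per (κ ⊕ κ') h

/-- All simple abelian subvarieties of `X` have complex multiplication, or their dimension is one
or a prime number. -/
def PrimeOrCM {H T : Type} [AddCommGroup H] [Module ℚ H] [AddCommGroup T] [Module ℂ T]
    (per : H →+ T) : Prop :=
  ∀ U : Submodule ℚ H, IsSimpleSub per U → IsCMSub per U ∨ Module.finrank ℚ U = 2 ∨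
    ∃ p : ℕ, p.Prime ∧ Module.finrank ℚ U = 2 * p

end Pool.Agent.Y4.P
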