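import Mathlib
import Pool.Agent.Y90.Ab3
import Pool.Agent.Y4.P.Ring

/-!
# Project P: statements

Hodge classes on complex abelian varieties all of whose simple factors have complex multiplication
or prime dimension (or dimension one): the Hodge ring is generated by divisors and Weil classes.
-/

set_option linter.unusedSectionVars false

namespace Pool.Agent.Y4.P

open Matrix Module Pool.Agent.Y90 Pool.Agent.W437.HC Pool.Agent.W437.HD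
  Pool.Agent.TH504.CB Pool.Agent.W522.U
open Pool.Agent.W548.Odd hiding cv
open Pool.Agent.H204R3.CM (IsHodge)
open Pool.Agent.H204R3.SP (bil2 IsTate)
open Pool.Agent.H204R3.GP (HasProj)
open Pool.Agent.W437.HP (cK cK_mul cK_one)

noncomputable section

/-! ## Invariant theory -/

/-- The first fundamental theorem with arbitrary products of determinants. -/
def JForms : Prop :=
  ∀ (X : Type) [AddCommGroup X] [Module ℂ X] [FiniteDimensional ℂ X] (Γ : Type) [Group Γ]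
    (R : Representation ℂ Γ X) (_hfi : ∀ Δ : Subgroup Γ, Δ.FiniteIndex → Δ = ⊤)
    (ω : X →ₗ[ℂ] X →ₗ[ℂ] ℂ) (_hnd : ∀ u, (∀ v, ω u v = 0) → u = 0)
    (_hωR : ∀ g u v, ω (R g u) (R g v) = (1 : Γ →* ℂ) g * ω u v)
    (_hR1 : ∀ U, W522.U.SI R U → 2 ≤ finrank ℂ U → ∃ γ : Γ, (R γ - 1) * (R γ - 1) = 0 ∧
      finrank ℂ (U.map (R γ - 1)) = 1)
    (_hR2 : ∀ U, W522.U.SI R U → finrank ℂ U = 1 → ¬Du R 1 U U)
    (_hH : ∀ U U', W522.U.SI R U → W522.U.SI R U' → 2 ≤ finrank ℂ U → ¬Du R 1 U U →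
      ∀ ψ : Γ → ℂ, Tw R ψ U U' → Tw R (fun _ => 1) U U')
    (_hss : HasProj R) (s : ℕ) (W : Fin s → Submodule ℂ X) (_hW : ∀ i, W522.U.SI R (W i))
    (_hWW : ∀ i j, Tw R (fun _ => 1) (W i) (W j) → i = j)
    (_hall : ∀ U, W522.U.SI R U → ∃ i, Tw R (fun _ => 1) U (W i))
    (st : Fin s → Fin s) (_hst : ∀ i, st (st i) = i) (_hDu : ∀ i, Du R 1 (W i) (W (st i)))
    (_hDu' : ∀ i j, Du R 1 (W i) (W j) → j = st i)
    (N : ∀ (κ : Type) [Finite κ], Submodule ℂ (MultilinearMap ℂ (fun _ : κ => X) ℂ))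
    (_hN : Clo N)
    (_hpair : ∀ b : X →ₗ[ℂ] X →ₗ[ℂ] ℂ, (∀ g u v, b (R g u) (R g v) = (1 : Γ →* ℂ) g * b u v) →
      bil2 b ∈ N (Fin 2))
    (_hdet : ∀ a : Fin s → ℤ, (∀ i, a (st i) = -a i) →
      (∀ (g : Γ) (h : ∀ i, ∀ u ∈ W i, R g u ∈ W i), ∃ M : ℕ, M ≠ 0 ∧
        (∏ i, LinearMap.det ((R g).restrict (h i)) ^ a i) ^ M = 1) →
      ∀ (ι : Fin s → Type) [∀ i, Fintype (ι i)] [∀ i, DecidableEq (ι i)]
        (f : ∀ i, Basis (ι i) ℂ (W i))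
        (q : ∀ x : (Σ i, Fin (a i).toNat), ι x.1 → X →ₗ[ℂ] W x.1),
        (∀ x y g v, (q x y (R g v) : X) = R g (q x y v)) →
        ∀ ψ : MultilinearMap ℂ (fun _ : (Σ x : (Σ i, Fin (a i).toNat), ι x.1) => X) ℂ,
          (∀ v, ψ v = ∏ x : (Σ i, Fin (a i).toNat), (f x.1).det (fun y => q x y (v ⟨x, y⟩))) →
            ψ ∈ N (Σ x : (Σ i, Fin (a i).toNat), ι x.1))
    (m : ℕ) (φ : MultilinearMap ℂ (fun _ : Fin m × Fin 2 => X) ℂ) (_hφ : IsTate R 1 m φ),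
    φ ∈ N (Fin m × Fin 2)

/-! ## Matrices over a number field -/

section reg

variable {K : IntermediateField ℚ ℂ} {m : ℕ} (β : Basis (Fin m) ℚ K) {I J : Type}

/-- The rational matrix of a matrix over `K`, with respect to a basis of `K`. -/
def reg (A : Matrix I J K) : Matrix (I × Fin m) (J × Fin m) ℚ :=
  Matrix.of fun p q => β.repr (A p.1 q.1 * β q.2) p.2

/-- The coordinates of a matrix over `K`. -/
def co (A : Matrix I J K) : Matrix (I × Fin m) J ℚ :=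
  Matrix.of fun p j => β.repr (A p.1 j) p.2

/-- The evaluation of coordinates. -/
def kap (I : Type) [DecidableEq I] : Matrix I (I × Fin m) ℂ :=
  Matrix.of fun i q => if i = q.1 then ((β q.2 : K) : ℂ) else 0

/-- The complex matrix of a matrix over `K`. -/
def cx (A : Matrix I J K) : Matrix I J ℂ := A.map (algebraMap K ℂ)

/-- The Kronecker product with the identity matrix. -/
def blow {R : Type} [Zero R] (m : ℕ) (A : Matrix I J R) : Matrix (I × Fin m) (J × Fin m) R :=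
  Matrix.of fun p q => if p.2 = q.2 then A p.1 q.1 else 0

end reg

/-- A rational vector space `ℚ^V` with a complex structure `J` and a polarization `M`, and an
idempotent endomorphism `P Q` with coefficients in `K` on the image of which all conjugates of the
complex structure have trace zero. -/
structure WD {V N : Type} [Fintype V] [DecidableEq V] [Fintype N] [DecidableEq N]
    {K : IntermediateField ℚ ℂ} (J : Matrix V V ℝ) (M : Matrix V V ℚ) (P : Matrix V N K)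
    (Q : Matrix N V K) : Prop where
  sq : J * J = -1
  skew : Mᵀ = -M
  inv : Jᵀ * cK ℝ M + cK ℝ M * J = 0
  pos : ∀ x, x ≠ 0 → 0 < (J *ᵥ x) ⬝ᵥ (cK ℝ M *ᵥ x)
  qp : Q * P = 1
  com : ∀ σ : ℂ ≃+* ℂ, (DJ J).map σ * cx (P * Q) = cx (P * Q) * (DJ J).map σ
  tr : ∀ σ : ℂ ≃+* ℂ, Matrix.trace ((DJ J).map σ * cx (P * Q)) = 0

/-- The complex structure on the image of the idempotent. -/
def JB {V N : Type} [Fintype V] {K : IntermediateField ℚ ℂ} {m : ℕ} (β : Basis (Fin m) ℚ K)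
    (J : Matrix V V ℝ) (P : Matrix V N K) (Q : Matrix N V K) :
    Matrix (N × Fin m) (N × Fin m) ℝ :=
  cK ℝ (reg β Q) * blow m J * cK ℝ (reg β P)

/-- The polarization on the image of the idempotent. -/
def MB {V N : Type} [Fintype V] {K : IntermediateField ℚ ℂ} {m : ℕ} (β : Basis (Fin m) ℚ K)
    (M : Matrix V V ℚ) (P : Matrix V N K) : Matrix (N × Fin m) (N × Fin m) ℚ :=
  (reg β P)ᵀ * blow m M * reg β P

/-- The complex structure and the polarization on the image of the idempotent. -/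
def JStr : Prop :=
  ∀ (V N : Type) [Fintype V] [DecidableEq V] [Fintype N] [DecidableEq N]
    (K : IntermediateField ℚ ℂ) (J : Matrix V V ℝ) (M : Matrix V V ℚ) (P : Matrix V N K)
    (Q : Matrix N V K) (_w : WD J M P Q) (m : ℕ) (β : Basis (Fin m) ℚ K),
    JB β J P Q * JB β J P Q = -1 ∧
    cK ℝ (reg β P) * JB β J P Q = blow m J * cK ℝ (reg β P) ∧
    JB β J P Q * cK ℝ (reg β Q) = cK ℝ (reg β Q) * blow m J ∧
    (MB β M P)ᵀ = -MB β M P ∧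
    (JB β J P Q)ᵀ * cK ℝ (MB β M P) + cK ℝ (MB β M P) * JB β J P Q = 0 ∧
    (∀ x, x ≠ 0 → 0 < (JB β J P Q *ᵥ x) ⬝ᵥ (cK ℝ (MB β M P) *ᵥ x)) ∧
    ∀ a : K, cK ℝ (reg β (a • (1 : Matrix N N K))) * JB β J P Q =
      JB β J P Q * cK ℝ (reg β (a • (1 : Matrix N N K)))

/-- Each complex structure comes from a complex vector space. -/
def JCht : Prop :=
  ∀ (B : Type) [Fintype B] [DecidableEq B] (J : Matrix B B ℝ), J * J = -1 →
    ∃ (T : Type) (_ : AddCommGroup T) (_ : Module ℂ T) (_ : FiniteDimensional ℂ T)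
      (per : (B → ℚ) →+ T), Cht per J

/-- The form `v ↦ det(κ v)`, where `κ` is the evaluation of coordinates. -/
def detK {N : Type} [Fintype N] [DecidableEq N] {K : IntermediateField ℚ ℂ} {m : ℕ}
    (β : Basis (Fin m) ℚ K) : MultilinearMap ℂ (fun _ : N => N × Fin m → ℂ) ℂ :=
  (Matrix.detRowAlternating (n := N) (R := ℂ)).toMultilinearMap.compLinearMap
    fun _ => Matrix.mulVecLin (kap β N)

/-- The conjugates of the complex structure kill the determinant form, which is balanced. -/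
def JKill : Prop :=
  ∀ (V N : Type) [Fintype V] [DecidableEq V] [Fintype N] [DecidableEq N]
    (K : IntermediateField ℚ ℂ) (J : Matrix V V ℝ) (M : Matrix V V ℚ) (P : Matrix V N K)
    (Q : Matrix N V K) (_w : WD J M P Q) (m : ℕ) (β : Basis (Fin m) ℚ K),
    (∃ L : Submodule ℂ (Matrix (N × Fin m) (N × Fin m) ℂ), Gal L ∧ DJ (JB β J P Q) ∈ L ∧
      ∀ X ∈ L, act X (CF (detK (N := N) β)) = 0) ∧
    ∀ (l : ℂ →ₗ[ℚ] ℚ) (a : K) (v : N → N × Fin m → ℚ) (k k' : N),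
      ratA (detK (N := N) β) l
          (Function.update v k (reg β (a • (1 : Matrix N N K)) *ᵥ v k)) =
        ratA (detK (N := N) β) l
          (Function.update v k' (reg β (a • (1 : Matrix N N K)) *ᵥ v k'))

/-- The pull-backs of the determinant form belong to the ring. -/
def JPull : Prop :=
  ∀ (V N : Type) [Fintype V] [DecidableEq V] [Fintype N] [DecidableEq N]
    (K : IntermediateField ℚ ℂ) [NumberField K] [NumberField.IsCMField K]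
    (J : Matrix V V ℝ) (M : Matrix V V ℚ) (P : Matrix V N K)
    (Q : Matrix N V K) (_w : WD J M P Q) (G : ℕ) (Z : Matrix (Fin G) (Fin G) ℂ) (_h : PM Z)
    (A : Matrix V (Fin G ⊕ Fin G) ℚ) (_hA : cK ℂ A * DZ Z = DJ J * cK ℂ A),
    (fun v : N → Fin G ⊕ Fin G → ℚ =>
      Matrix.det (Matrix.of fun k j : N => ((cx Q * cK ℂ A) *ᵥ cv (v k)) j)) ∈ RC (perOne Z) N

/-- The products of determinants belong to the ring. -/
def JWeil : Prop :=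
  ∀ (G : ℕ) (Z : Matrix (Fin G) (Fin G) ℂ) (_h : PM Z)
    (K : IntermediateField ℚ ℂ) [NumberField K] [NumberField.IsCMField K]
    (S : Type) [Fintype S] [DecidableEq S] (d : S → ℕ)
    (P : ∀ x, Matrix (Fin G ⊕ Fin G) (Fin (d x)) K)
    (Q : ∀ x, Matrix (Fin (d x)) (Fin G ⊕ Fin G) K)
    (_hQP : ∀ x, Q x * P x = 1)
    (_hc : ∀ x, ∀ X ∈ LZ Z, X * cx (P x * Q x) = cx (P x * Q x) * X)
    (_htr : ∀ X ∈ LZ Z, ∑ x, Matrix.trace (X * cx (P x * Q x)) = 0)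
    (R : ∀ k : (Σ x, Fin (d x)), Matrix (Fin (d k.1)) (Fin G ⊕ Fin G) ℂ)
    (_hR : ∀ k, ∀ X ∈ LZ Z, R k * X = (cx (Q k.1) * X * cx (P k.1)) * R k)
    (ψ : MultilinearMap ℂ (fun _ : (Σ x, Fin (d x)) => Fin G ⊕ Fin G → ℂ) ℂ)
    (_hψ : ∀ v, ψ v = ∏ x, Matrix.det (Matrix.of fun y j : Fin (d x) =>
      (R ⟨x, y⟩ *ᵥ v ⟨x, y⟩) j)),
    ψ ∈ NZ Z (Σ x, Fin (d x))

/-! ## Fields -/

/-- Finite sets of complex numbers which are stable under automorphisms, on which the complex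
conjugation commutes with all automorphisms, are contained in CM fields. -/
def JField : Prop :=
  ∀ T : Set ℂ, T.Finite → (∀ (σ : ℂ ≃+* ℂ), ∀ z ∈ T, σ z ∈ T) →
    (∀ (σ : ℂ ≃+* ℂ), ∀ z ∈ T, cc (σ z) = σ (cc z)) →
    ∃ (K : IntermediateField ℚ ℂ) (_ : NumberField K), NumberField.IsCMField K ∧ T ⊆ K

/-- Idempotent matrices over a field. -/
def JIdem : Prop :=
  ∀ (F : Type) [Field F] (n : Type) [Fintype n] [DecidableEq n] (e : Matrix n n F), e * e = e →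
    ∃ (d : ℕ) (P : Matrix n (Fin d) F) (Q : Matrix (Fin d) n F), P * Q = e ∧ Q * P = 1

/-! ## Submodules of a simple abelian variety -/

/-- A submodule cut out by a projector, with finitely many conjugates, the coefficients of which
are in CM fields. -/
def HasPr {B : Type} [Fintype B] [DecidableEq B] (L : Submodule ℂ (Matrix B B ℂ))
    (U : Submodule ℂ (B → ℂ)) : Prop :=
  ∃ π : Matrix B B ℂ, π * π = π ∧ (∀ X ∈ L, X * π = π * X) ∧ (∀ v, v ∈ U ↔ π *ᵥ v = v) ∧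
    (Set.range fun σ : ℂ ≃+* ℂ => π.map σ).Finite ∧
    ∀ (σ : ℂ ≃+* ℂ) (i j : B), cc (σ (π i j)) = σ (cc (π i j))

/-- The submodule is stable under all endomorphisms. -/
def EndSt {B : Type} [Fintype B] [DecidableEq B] (L : Submodule ℂ (Matrix B B ℂ))
    (U : Submodule ℂ (B → ℂ)) : Prop :=
  ∀ T : (B → ℂ) →ₗ[ℂ] (B → ℂ), (∀ X ∈ L, ∀ v, T (X *ᵥ v) = X *ᵥ T v) → ∀ u ∈ U, T u ∈ U

/-- The projector. -/
def JPr : Prop :=
  ∀ (g : ℕ) (Z : Matrix (Fin g) (Fin g) ℂ) (_h : PM Z) (U : Submodule ℂ (Fin g ⊕ Fin g → ℂ))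
    (_hU : IrS (LZ Z) U) (_hE : EndSt (LZ Z) U), HasPr (LZ Z) U

/-- Lines. -/
def JLine : Prop :=
  ∀ (g : ℕ) (Z : Matrix (Fin g) (Fin g) ℂ) (_h : PM Z) (_hs : IsSimpleAV Z) (_hg : 0 < g)
    (U : Submodule ℂ (Fin g ⊕ Fin g → ℂ)) (_hU : IrS (LZ Z) U) (_hn : finrank ℂ U = 1),
    EndSt (LZ Z) U

/-- Submodules of dimension `g` which are not self-dual. -/
def JHalf : Prop :=
  ∀ (g : ℕ) (Z : Matrix (Fin g) (Fin g) ℂ) (_h : PM Z) (_hs : IsSimpleAV Z) (_hg : 0 < g)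
    (U : Submodule ℂ (Fin g ⊕ Fin g → ℂ)) (_hU : IrS (LZ Z) U) (_hn : finrank ℂ U = g)
    (_hd : ¬SDu Z U), EndSt (LZ Z) U

/-- The dimension of an irreducible submodule which is not self-dual divides `g`. -/
def JDvd : Prop :=
  ∀ (g : ℕ) (Z : Matrix (Fin g) (Fin g) ℂ) (_h : PM Z) (_hs : IsSimpleAV Z) (_hg : 0 < g)
    (U : Submodule ℂ (Fin g ⊕ Fin g → ℂ)) (_hU : IrS (LZ Z) U) (_hd : ¬SDu Z U),
    finrank ℂ U ∣ g

/-- Complex multiplication. -/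
def JCM : Prop :=
  ∀ (g : ℕ) (Z : Matrix (Fin g) (Fin g) ℂ) (_h : PM Z) (_hs : IsSimpleAV Z) (_hg : 0 < g)
    (_hcm : HasCM Z) (U : Submodule ℂ (Fin g ⊕ Fin g → ℂ)) (_hU : IrS (LZ Z) U),
    finrank ℂ U = 1

/-- The complex structure and its conjugates do not act by scalars. -/
def JNonscalar : Prop :=
  ∀ (g : ℕ) (Z : Matrix (Fin g) (Fin g) ℂ) (_h : PM Z) (_hs : IsSimpleAV Z) (_hg : g.Prime)
    (U : Submodule ℂ (Fin g ⊕ Fin g → ℂ)) (_hU : IrS (LZ Z) U) (_hn : 2 ≤ finrank ℂ U)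
    (σ : ℂ ≃+* ℂ) (c : ℂ), ∃ u ∈ U, DS Z σ *ᵥ u ≠ c • u

/-- Elements of degree one. -/
def JUp : Prop :=
  ∀ (g : ℕ) (Z : Matrix (Fin g) (Fin g) ℂ) (_h : PM Z) (_hs : IsSimpleAV Z) (_hg : g.Prime)
    (U : Submodule ℂ (Fin g ⊕ Fin g → ℂ)) (_hU : IrS (LZ Z) U) (_hn : 2 ≤ finrank ℂ U),
    ∃ N ∈ LZ Z, DZ Z * N = N ∧ N * DZ Z = -N ∧ ∃ u ∈ U, N *ᵥ u ≠ 0

/-- Rank one elements: the unitary case. -/
def JUni : Prop :=
  ∀ (g : ℕ) (Z : Matrix (Fin g) (Fin g) ℂ) (_h : PM Z) (_hs : IsSimpleAV Z) (_hg : g.Prime)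
    (_hg2 : g ≠ 2) (U : Submodule ℂ (Fin g ⊕ Fin g → ℂ)) (_hU : IrS (LZ Z) U)
    (_hn : finrank ℂ U = g) (_hd : ¬SDu Z U), Rk1 Z U

/-- Rank one elements: the symplectic case. -/
def JSymp : Prop :=
  ∀ (g : ℕ) (Z : Matrix (Fin g) (Fin g) ℂ) (_h : PM Z) (_hs : IsSimpleAV Z) (_hg : Odd g)
    (_hU : IrS (LZ Z) (⊤ : Submodule ℂ (Fin g ⊕ Fin g → ℂ))),
    Rk1 Z (⊤ : Submodule ℂ (Fin g ⊕ Fin g → ℂ))

/-- The classification of the irreducible submodules. -/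
def JClass : Prop :=
  ∀ (g : ℕ) (Z : Matrix (Fin g) (Fin g) ℂ) (_h : PM Z) (_hs : IsSimpleAV Z) (_hg : 0 < g)
    (_hc : HasCM Z ∨ g = 1 ∨ g.Prime) (U : Submodule ℂ (Fin g ⊕ Fin g → ℂ))
    (_hU : IrS (LZ Z) U),
    (2 ≤ finrank ℂ U → Rk1 Z U ∧ ∀ (σ : ℂ ≃+* ℂ) (c : ℂ), ∃ u ∈ U, DS Z σ *ᵥ u ≠ c • u) ∧
      ((SDu Z U ∧ 2 ≤ finrank ℂ U) ∨ HasPr (LZ Z) U)

/-! ## Factors -/

/-- All simple factors have complex multiplication, or dimension one or a prime number. -/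
def GoodF {G : ℕ} (Z : Matrix (Fin G) (Fin G) ℂ) : Prop :=
  ∀ (a : ℕ) (Z' : Matrix (Fin a) (Fin a) ℂ) (E : Matrix (Fin G ⊕ Fin G) (Fin a ⊕ Fin a) ℚ)
    (F : Matrix (Fin a ⊕ Fin a) (Fin G ⊕ Fin G) ℚ), Fac Z Z' E F → PM Z' → IsSimpleAV Z' →
    0 < a → HasCM Z' ∨ a = 1 ∨ a.Prime

/-- The submodule is isomorphic to the image of an idempotent with finitely many conjugates, the
coefficients of which are in CM fields. -/
def PD {B : Type} [Fintype B] [DecidableEq B] (L : Submodule ℂ (Matrix B B ℂ))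
    (U : Submodule ℂ (B → ℂ)) : Prop :=
  ∃ (ε : Matrix B B ℂ) (T : (B → ℂ) →ₗ[ℂ] (B → ℂ)), ε * ε = ε ∧ (∀ X ∈ L, X * ε = ε * X) ∧
    (Set.range fun σ : ℂ ≃+* ℂ => ε.map σ).Finite ∧
    (∀ (σ : ℂ ≃+* ℂ) (i j : B), cc (σ (ε i j)) = σ (cc (ε i j))) ∧
    (∀ X ∈ L, ∀ u ∈ U, T (X *ᵥ u) = X *ᵥ T u) ∧ (∀ u ∈ U, T u = 0 → u = 0) ∧
    ∀ v, v ∈ U.map T ↔ ε *ᵥ v = v

/-- The transfer from a factor. -/
def JTransfer : Prop :=
  ∀ (G a : ℕ) (Z : Matrix (Fin G) (Fin G) ℂ) (Z' : Matrix (Fin a) (Fin a) ℂ)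
    (E : Matrix (Fin G ⊕ Fin G) (Fin a ⊕ Fin a) ℚ) (F : Matrix (Fin a ⊕ Fin a) (Fin G ⊕ Fin G) ℚ)
    (_hf : Fac Z Z' E F) (_h : PM Z) (_h' : PM Z') (U : Submodule ℂ (Fin G ⊕ Fin G → ℂ))
    (_hU : IrS (LZ Z) U) (_hi : ∀ u ∈ U, ml F u = 0 → u = 0),
    (HasPr (LZ Z') (U.map (ml F)) → PD (LZ Z) U) ∧
    (Rk1 Z' (U.map (ml F)) → Rk1 Z U) ∧
    ((∀ (σ : ℂ ≃+* ℂ) (c : ℂ), ∃ u ∈ U.map (ml F), DS Z' σ *ᵥ u ≠ c • u) →
      ∀ (σ : ℂ ≃+* ℂ) (c : ℂ), ∃ u ∈ U, DS Z σ *ᵥ u ≠ c • u) ∧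
    (SDu Z' (U.map (ml F)) → SDu Z U)

/-- The traces on an irreducible submodule and on the image of an idempotent. -/
def JTrace : Prop :=
  ∀ (G : ℕ) (Z : Matrix (Fin G) (Fin G) ℂ) (_h : PM Z) (U : Submodule ℂ (Fin G ⊕ Fin G → ℂ))
    (_hU : IrS (LZ Z) U) (ε : Matrix (Fin G ⊕ Fin G) (Fin G ⊕ Fin G) ℂ)
    (T : (Fin G ⊕ Fin G → ℂ) →ₗ[ℂ] (Fin G ⊕ Fin G → ℂ)) (_h1 : ε * ε = ε)
    (_h2 : ∀ X ∈ LZ Z, X * ε = ε * X) (_h3 : ∀ X ∈ LZ Z, ∀ u ∈ U, T (X *ᵥ u) = X *ᵥ T u)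
    (_h4 : ∀ u ∈ U, T u = 0 → u = 0) (_h5 : ∀ v, v ∈ U.map T ↔ ε *ᵥ v = v) (σ : ℂ ≃+* ℂ),
    Matrix.trace (DS Z σ * ε) = (tr Z (cjS σ.symm U) : ℂ)

/-- The simple factors of the period matrix of an abstract abelian variety. -/
def JGood : Prop :=
  ∀ (H T : Type) [AddCommGroup H] [Module ℚ H] [AddCommGroup T] [Module ℂ T] (per : H →+ T)
    (G : ℕ) (Z : Matrix (Fin G) (Fin G) ℂ) (A : H ≃ₗ[ℚ] (Fin G ⊕ Fin G → ℚ))
    (_hC : Cht (per.comp A.symm.toLinearMap.toAddMonoidHom) (JR Z)) (_hs : PrimeOrCM per),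
    GoodF Z

/-- Hodge classes belong to the ring: period matrices. -/
def JMain : Prop :=
  ∀ (G : ℕ) (Z : Matrix (Fin G) (Fin G) ℂ) (_h : PM Z) (_hg : GoodF Z) (κ : Type) [Finite κ]
    (f : (Fin G ⊕ Fin G → ℚ) [⋀^κ]→ₗ[ℚ] ℚ) (_hf : IsHodge (perOne Z) f),
    WeilRing (perOne Z) κ f

/-- The theorem. -/
def JFinal : Prop :=
  ∀ (H T : Type) [AddCommGroup H] [Module ℚ H] [AddCommGroup T] [Module ℂ T] (per : H →+ T)
    (_hX : St.IsAV per) (_hs : PrimeOrCM per) (κ : Type) [Finite κ] (f : H [⋀^κ]→ₗ[ℚ] ℚ),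
    IsHodge per f ↔ WeilRing per κ f

end

end Pool.Agent.Y4.P
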