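import Mathlib
import Pool.Agent.Y4.P.Stm

/-!
# The types of the simple factors

The notation is that of `Pool.Agent.Y90.Stm`: a complex abelian variety `X` (up to isogeny) is given
by its period map `per : H → T` with `H = H_1(X, ℚ)` and the tangent space `T`; an abelian
subvariety is a rational subspace `U` of `H` the real span of which in `T` is a complex subspace
(the tangent space of the subvariety).
-/

namespace Pool.Agent.Y4.P

open Pool.Agent.H204R3.CM Pool.Agent.Y90.St

variable {H T : Type} [AddCommGroup H] [Module ℚ H] [AddCommGroup T] [Module ℂ T]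

/-- The rational linear map `a` is an endomorphism of the abelian subvariety `U`. -/
def IsEndo (per : H →+ T) (U : Submodule ℚ H) (a : U →ₗ[ℚ] U) : Prop :=
  ∃ Ψ : T →ₗ[ℂ] T, ∀ u : U, Ψ (per u) = per (a u)

/-- `a` is an endomorphism of the abelian subvariety `U`, and each endomorphism of `U` which
commutes with `a` is a polynomial in `a`: for a simple `U`, the field `ℚ(a)` is a maximal
commutative subfield of the endomorphism algebra of `U`. -/
def IsMaxEndo (per : H →+ T) (U : Submodule ℚ H) (a : U →ₗ[ℚ] U) : Prop :=
  IsEndo per U a ∧ ∀ b : U →ₗ[ℚ] U, IsEndo per U b → b ∘ₗ a = a ∘ₗ b →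
    b ∈ Algebra.adjoin ℚ ({a} : Set (Module.End ℚ U))

/-- The endomorphism algebra of the (simple) abelian subvariety `U` contains a maximal commutative
subfield `ℚ(a)` which is totally real, and the dimension of `U` is the product of the degree of
`ℚ(a)` with `k`, where `k` is odd or `k = 2`. -/
def IsRealOddSub (per : H →+ T) (U : Submodule ℚ H) : Prop :=
  ∃ a : U →ₗ[ℚ] U, IsMaxEndo per U a ∧ (∀ z ∈ (minpoly ℚ a).aroots ℂ, z.im = 0) ∧
    ∃ k : ℕ, (Odd k ∨ k = 2) ∧ Module.finrank ℚ U = 2 * (k * (minpoly ℚ a).natDegree)

/-- The endomorphism algebra of the (simple) abelian subvariety `U` contains a maximal commutative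
subfield `ℚ(a)` which is a CM field or totally real (all automorphisms of `ℂ` commute with the
complex conjugation on the eigenvalues of `a`), and for each eigenvalue `z` of `a` the
multiplicities of `z` and of its complex conjugate on the tangent space of `U` are coprime. -/
def IsCoprimeSub (per : H →+ T) (U : Submodule ℚ H) : Prop :=
  ∃ (a : U →ₗ[ℚ] U) (Ψ : T →ₗ[ℂ] T), (∀ u : U, Ψ (per u) = per (a u)) ∧ IsMaxEndo per U a ∧
    (∀ z ∈ (minpoly ℚ a).aroots ℂ, ∀ σ : ℂ ≃+* ℂ,
      starRingEnd ℂ (σ z) = σ (starRingEnd ℂ z)) ∧
    ∀ z ∈ (minpoly ℚ a).aroots ℂ, Nat.Coprime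
      (Module.finrank ℂ ↥(Submodule.span ℂ (per '' U) ⊓ Module.End.eigenspace Ψ z))
      (Module.finrank ℂ ↥(Submodule.span ℂ (per '' U) ⊓
        Module.End.eigenspace Ψ (starRingEnd ℂ z)))

/-- All endomorphisms of the (simple) abelian subvariety `U` are polynomials in an endomorphism `a`,
the field `ℚ(a)` is a CM field (all automorphisms of `ℂ` commute with the complex conjugation on the
eigenvalues of `a`, which are not real), and each eigenvalue of `a` has the multiplicity two on the
tangent space of `U`. If `ℚ(a)` is imaginary quadratic then `U` is an abelian fourfold of Weil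
type. -/
def IsTwoTwoSub (per : H →+ T) (U : Submodule ℚ H) : Prop :=
  ∃ (a : U →ₗ[ℚ] U) (Ψ : T →ₗ[ℂ] T), (∀ u : U, Ψ (per u) = per (a u)) ∧
    (∀ b : U →ₗ[ℚ] U, IsEndo per U b → b ∈ Algebra.adjoin ℚ ({a} : Set (Module.End ℚ U))) ∧
    (∀ z ∈ (minpoly ℚ a).aroots ℂ, ∀ σ : ℂ ≃+* ℂ,
      starRingEnd ℂ (σ z) = σ (starRingEnd ℂ z)) ∧
    ∀ z ∈ (minpoly ℚ a).aroots ℂ, z.im ≠ 0 ∧
      Module.finrank ℂ ↥(Submodule.span ℂ (per '' U) ⊓ Module.End.eigenspace Ψ z) = 2

/-- Each simple abelian subvariety `U` of `X` has one of the following properties: it has complex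
multiplication; its dimension is one or a prime number; its endomorphism algebra contains a totally
real maximal commutative subfield such that the quotient of `dim U` by its degree is odd or two; its
endomorphism algebra contains a maximal commutative subfield which is a CM field or totally real,
such that the multiplicities of conjugate embeddings on the tangent space are coprime; its
endomorphism algebra is a CM field all embeddings of which have the multiplicity two on the tangent
space. -/
def GoodSimple (per : H →+ T) : Prop :=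
  ∀ U : Submodule ℚ H, IsSimpleSub per U → IsCMSub per U ∨ Module.finrank ℚ U = 2 ∨
    (∃ p : ℕ, p.Prime ∧ Module.finrank ℚ U = 2 * p) ∨ IsRealOddSub per U ∨
    IsCoprimeSub per U ∨ IsTwoTwoSub per U

end Pool.Agent.Y4.P
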