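import Mathlib
import Pool.Agent.Y4.P.Stm3
import Pool.Agent.Y4.P.Jobs

/-!
# Project P: statements, third part (general types of simple factors)
-/

set_option linter.unusedSectionVars false

namespace Pool.Agent.Y4.P

open Matrix Module Pool.Agent.Y90 Pool.Agent.W437.HC Pool.Agent.W437.HD
  Pool.Agent.TH504.CB Pool.Agent.W522.U
open Pool.Agent.W548.Odd hiding cv
open Pool.Agent.H204R3.CM (IsHodge)
open Pool.Agent.W437.HP (cK cK_mul cK_one)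

noncomputable section

/-- The rational matrix `φ` commutes with the complex structure, and each rational matrix which
commutes with the complex structure and with `φ` is a polynomial in `φ`. -/
def MaxM {g : ℕ} (Z : Matrix (Fin g) (Fin g) ℂ) (φ : Matrix (Fin g ⊕ Fin g) (Fin g ⊕ Fin g) ℚ) :
    Prop :=
  qm φ * DZ Z = DZ Z * qm φ ∧ ∀ ψ : Matrix (Fin g ⊕ Fin g) (Fin g ⊕ Fin g) ℚ,
    qm ψ * DZ Z = DZ Z * qm ψ → ψ * φ = φ * ψ →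
      ψ ∈ Algebra.adjoin ℚ ({φ} : Set (Matrix (Fin g ⊕ Fin g) (Fin g ⊕ Fin g) ℚ))

/-- The eigenspaces of a rational matrix. -/
def EigM {g : ℕ} (φ : Matrix (Fin g ⊕ Fin g) (Fin g ⊕ Fin g) ℚ) (z : ℂ) :
    Submodule ℂ (Fin g ⊕ Fin g → ℂ) :=
  Module.End.eigenspace (Matrix.mulVecLin (qm φ)) z

/-- A totally real maximal commutative subfield, the relative dimension is odd or two. -/
def RealOddM {g : ℕ} (Z : Matrix (Fin g) (Fin g) ℂ) : Prop :=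
  ∃ φ, MaxM Z φ ∧ (∀ z ∈ (minpoly ℚ φ).aroots ℂ, z.im = 0) ∧
    ∃ k : ℕ, (Odd k ∨ k = 2) ∧ g = k * (minpoly ℚ φ).natDegree

/-- A maximal commutative subfield which is CM or totally real, with coprime multiplicities. -/
def CopM2 {g : ℕ} (Z : Matrix (Fin g) (Fin g) ℂ) : Prop :=
  ∃ φ, MaxM Z φ ∧ (∀ z ∈ (minpoly ℚ φ).aroots ℂ, ∀ σ : ℂ ≃+* ℂ, cc (σ z) = σ (cc z)) ∧
    ∀ z ∈ (minpoly ℚ φ).aroots ℂ, Nat.Coprime (pd Z (EigM φ z)) (qd Z (EigM φ z))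

/-- The endomorphism algebra is a CM field all embeddings of which have the multiplicity two. -/
def TwoTwoM {g : ℕ} (Z : Matrix (Fin g) (Fin g) ℂ) : Prop :=
  ∃ φ, qm φ * DZ Z = DZ Z * qm φ ∧
    (∀ ψ : Matrix (Fin g ⊕ Fin g) (Fin g ⊕ Fin g) ℚ, qm ψ * DZ Z = DZ Z * qm ψ →
      ψ ∈ Algebra.adjoin ℚ ({φ} : Set (Matrix (Fin g ⊕ Fin g) (Fin g ⊕ Fin g) ℚ))) ∧
    (∀ z ∈ (minpoly ℚ φ).aroots ℂ, ∀ σ : ℂ ≃+* ℂ, cc (σ z) = σ (cc z)) ∧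
    ∀ z ∈ (minpoly ℚ φ).aroots ℂ, z.im ≠ 0 ∧ pd Z (EigM φ z) = 2 ∧ qd Z (EigM φ z) = 2

/-- The spectral decomposition for a maximal commutative subfield: the eigenspaces are irreducible,
of dimension `2 g / deg`, each irreducible submodule is isomorphic to an eigenspace, and the
projectors have finitely many conjugates, the coefficients of which are in CM fields if the
eigenvalues are in CM fields. -/
def JSpec : Prop :=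
  ∀ (g : ℕ) (Z : Matrix (Fin g) (Fin g) ℂ) (_h : PM Z) (_hs : IsSimpleAV Z) (_hg : 0 < g)
    (φ : Matrix (Fin g ⊕ Fin g) (Fin g ⊕ Fin g) ℚ) (_hφ : MaxM Z φ),
    (∀ z ∈ (minpoly ℚ φ).aroots ℂ, IrS (LZ Z) (EigM φ z) ∧
      finrank ℂ (EigM φ z) * (minpoly ℚ φ).natDegree = 2 * g) ∧
    (∀ U, IrS (LZ Z) U → ∃ z ∈ (minpoly ℚ φ).aroots ℂ,
      ∃ T : (Fin g ⊕ Fin g → ℂ) →ₗ[ℂ] (Fin g ⊕ Fin g → ℂ),
        (∀ X ∈ LZ Z, ∀ v, T (X *ᵥ v) = X *ᵥ T v) ∧ (∀ u ∈ U, T u = 0 → u = 0) ∧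
          U.map T = EigM φ z) ∧
    ((∀ z ∈ (minpoly ℚ φ).aroots ℂ, ∀ σ : ℂ ≃+* ℂ, cc (σ z) = σ (cc z)) →
      ∀ z ∈ (minpoly ℚ φ).aroots ℂ, HasPr (LZ Z) (EigM φ z))

/-- The tangent space and the eigenspaces of the complex structure. -/
def JTang3 : Prop :=
  ∀ (g : ℕ) (Z : Matrix (Fin g) (Fin g) ℂ) (_h : PM Z)
    (φ : Matrix (Fin g ⊕ Fin g) (Fin g ⊕ Fin g) ℚ) (Ψ : (Fin g → ℂ) →ₗ[ℂ] (Fin g → ℂ))
    (_hΨ : ∀ v, Ψ (perOne Z v) = perOne Z (φ *ᵥ v)) (z : ℂ),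
    qm φ * DZ Z = DZ Z * qm φ ∧
    ((Module.finrank ℂ ↥(Module.End.eigenspace Ψ z) = pd Z (EigM φ z) ∧
      Module.finrank ℂ ↥(Module.End.eigenspace Ψ (starRingEnd ℂ z)) = qd Z (EigM φ z)) ∨
    (Module.finrank ℂ ↥(Module.End.eigenspace Ψ z) = qd Z (EigM φ z) ∧
      Module.finrank ℂ ↥(Module.End.eigenspace Ψ (starRingEnd ℂ z)) = pd Z (EigM φ z)))

/-- Rank one elements: coprime multiplicities. -/
def JCop2 : Prop :=
  ∀ (g : ℕ) (Z : Matrix (Fin g) (Fin g) ℂ) (_h : PM Z)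
    (U : Submodule ℂ (Fin g ⊕ Fin g → ℂ)) (_hU : IrS (LZ Z) U)
    (_hc : Nat.Coprime (pd Z U) (qd Z U)) (_hn : 2 ≤ finrank ℂ U), Rk1 Z U

/-- Rank one elements: the symplectic case. -/
def JSympG2 : Prop :=
  ∀ (g : ℕ) (Z : Matrix (Fin g) (Fin g) ℂ) (_h : PM Z) (_hs : IsSimpleAV Z)
    (U : Submodule ℂ (Fin g ⊕ Fin g → ℂ)) (_hU : IrS (LZ Z) U)
    (_ho : ∃ u ∈ U, ∃ v ∈ U, om g u v ≠ 0) (k : ℕ) (_hk : Odd k ∨ k = 2)
    (_hn : finrank ℂ U = 2 * k), Rk1 Z U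

/-- Rank one elements: submodules of dimension four which are not self-dual. -/
def JTwoTwo2 : Prop :=
  ∀ (g : ℕ) (Z : Matrix (Fin g) (Fin g) ℂ) (_h : PM Z) (W : Submodule ℂ (Fin g ⊕ Fin g → ℂ))
    (_hW : IrS (LZ Z) W) (_hd : finrank ℂ W = 4)
    (_hp : ∀ σ : ℂ ≃+* ℂ, pd Z (cjS σ W) = 2) (_hn : ¬SDu Z W), Rk1 Z W

/-- All simple factors are of one of the types of the theorem. -/
def GoodF3 {G : ℕ} (Z : Matrix (Fin G) (Fin G) ℂ) : Prop :=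
  ∀ (a : ℕ) (Z' : Matrix (Fin a) (Fin a) ℂ) (E : Matrix (Fin G ⊕ Fin G) (Fin a ⊕ Fin a) ℚ)
    (F : Matrix (Fin a ⊕ Fin a) (Fin G ⊕ Fin G) ℚ), Fac Z Z' E F → PM Z' → IsSimpleAV Z' →
    0 < a → HasCM Z' ∨ a = 1 ∨ a.Prime ∨ RealOddM Z' ∨ CopM2 Z' ∨ TwoTwoM Z'

/-- The simple factors of the period matrix of an abstract abelian variety. -/
def JGood3 : Prop :=
  ∀ (H T : Type) [AddCommGroup H] [Module ℚ H] [AddCommGroup T] [Module ℂ T] (per : H →+ T)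
    (G : ℕ) (Z : Matrix (Fin G) (Fin G) ℂ) (A : H ≃ₗ[ℚ] (Fin G ⊕ Fin G → ℚ))
    (_hC : Cht (per.comp A.symm.toLinearMap.toAddMonoidHom) (JR Z)) (_hs : GoodSimple per),
    GoodF3 Z

/-- The transfer from a factor of the isomorphism with the image of an idempotent. -/
def JTransfer2 : Prop :=
  ∀ (G a : ℕ) (Z : Matrix (Fin G) (Fin G) ℂ) (Z' : Matrix (Fin a) (Fin a) ℂ)
    (E : Matrix (Fin G ⊕ Fin G) (Fin a ⊕ Fin a) ℚ) (F : Matrix (Fin a ⊕ Fin a) (Fin G ⊕ Fin G) ℚ)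
    (_hf : Fac Z Z' E F) (_h : PM Z) (_h' : PM Z') (U : Submodule ℂ (Fin G ⊕ Fin G → ℂ))
    (_hU : IrS (LZ Z) U) (_hi : ∀ u ∈ U, ml F u = 0 → u = 0),
    PD (LZ Z') (U.map (ml F)) → PD (LZ Z) U

/-- The theorem. -/
def JFinal3 : Prop :=
  ∀ (H T : Type) [AddCommGroup H] [Module ℚ H] [AddCommGroup T] [Module ℂ T] (per : H →+ T)
    (_hX : St.IsAV per) (_hs : GoodSimple per) (κ : Type) [Finite κ] (f : H [⋀^κ]→ₗ[ℚ] ℚ),
    IsHodge per f ↔ WeilRing per κ f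

end

end Pool.Agent.Y4.P
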