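import Mathlib
import Pool.Agent.Y4.P.Jobs

/-!
# The classification of the irreducible submodules
-/

set_option linter.unusedSectionVars false

namespace Pool.Agent.Y4.P

open Matrix Module Pool.Agent.Y90 Pool.Agent.W437.HC Pool.Agent.W437.HD
  Pool.Agent.TH504.CB Pool.Agent.W522.U
open Pool.Agent.W548.Odd hiding cv

noncomputable section

variable {g : ℕ} {Z : Matrix (Fin g) (Fin g) ℂ}

/-- Submodules of full dimension. -/
theorem eq_top_of (U : Submodule ℂ (Fin g ⊕ Fin g → ℂ)) (hn : finrank ℂ U = 2 * g) : U = ⊤ := by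
  apply Submodule.eq_top_of_finrank_eq
  rw [hn, Module.finrank_fintype_fun_eq_card, Fintype.card_sum, Fintype.card_fin]
  ring

/-- Self-dual submodules have even dimension. -/
theorem sdu_even (h : PM Z) {U : Submodule ℂ (Fin g ⊕ Fin g → ℂ)} (hU : IrS (LZ Z) U)
    (hd : SDu Z U) : Even (finrank ℂ U) := by
  obtain ⟨b, h0, hb⟩ := hd
  have h1 := tr_dual h hU hU h0 hb
  have h2 := pd_add_qd h hU.2.1
  unfold tr at h1
  rw [← h2]
  exact ⟨pd Z U, by omega⟩

theorem class_small (hPr : JPr) (hLi : JLine) (h : PM Z) (hs : IsSimpleAV Z) (hg : g = 1 ∨ g = 2)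
    {U : Submodule ℂ (Fin g ⊕ Fin g → ℂ)} (hU : IrS (LZ Z) U) :
    (2 ≤ finrank ℂ U → Rk1 Z U ∧ ∀ (σ : ℂ ≃+* ℂ) (c : ℂ), ∃ u ∈ U, DS Z σ *ᵥ u ≠ c • u) ∧
      ((SDu Z U ∧ 2 ≤ finrank ℂ U) ∨ HasPr (LZ Z) U) := by
  have hg0 : 0 < g := by omega
  have hg3 : g ≤ 3 := by omega
  refine ⟨fun hn => ⟨exists_rk1 h hs hg3 hU hn, nonscalar h hs hg3 hU hn⟩, ?_⟩
  have hdvd := finrank_dvd h hs hU
  have hpos : 0 < finrank ℂ U := by
    rw [Nat.pos_iff_ne_zero, ne_eq, Submodule.finrank_eq_zero]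
    exact hU.1
  have hle := Nat.le_of_dvd (by omega) hdvd
  have hcases : finrank ℂ U = 1 ∨ finrank ℂ U = 2 ∨ finrank ℂ U = 2 * g := by
    rcases hg with rfl | rfl
    · omega
    · have h3 : finrank ℂ U ≠ 3 := by
        intro h3
        rw [h3] at hdvd
        omega
      omega
  rcases hcases with h1 | h1 | h1
  · exact Or.inr (hPr g Z h U hU (hLi g Z h hs hg0 U hU h1))
  · exact Or.inl ⟨sdu_two h hs hg3 hU h1, by omega⟩
  · refine Or.inl ⟨?_, by omega⟩
    rw [eq_top_of U h1]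
    exact sdu_top h hg0

/-- The classification. -/
theorem jclass (hPr : JPr) (hLi : JLine) (hHa : JHalf) (hDv : JDvd) (hCM : JCM)
    (hNs : JNonscalar) (hUp : JUp) (hUn : JUni) (hSy : JSymp) : JClass := by
  intro g Z h hs hg hc U hU
  have hline : finrank ℂ U = 1 →
      (2 ≤ finrank ℂ U → Rk1 Z U ∧ ∀ (σ : ℂ ≃+* ℂ) (c : ℂ), ∃ u ∈ U, DS Z σ *ᵥ u ≠ c • u) ∧
      ((SDu Z U ∧ 2 ≤ finrank ℂ U) ∨ HasPr (LZ Z) U) := fun h1 =>
    ⟨fun h2 => by omega, Or.inr (hPr g Z h U hU (hLi g Z h hs hg U hU h1))⟩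
  rcases hc with hc | hc | hc
  · exact hline (hCM g Z h hs hg hc U hU)
  · exact class_small hPr hLi h hs (Or.inl hc) hU
  · by_cases hg2 : g = 2
    · exact class_small hPr hLi h hs (Or.inr hg2) hU
    have hodd : Odd g := hc.odd_of_ne_two hg2
    have hdvd := finrank_dvd h hs hU
    obtain ⟨k₁, k₂, hk₁, hk₂, hk⟩ := (Nat.dvd_mul).1 hdvd
    have h1 : k₁ = 1 ∨ k₁ = 2 := (Nat.dvd_prime Nat.prime_two).1 hk₁
    have h2 : k₂ = 1 ∨ k₂ = g := (Nat.dvd_prime hc).1 hk₂
    rcases h2 with rfl | rfl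
    · rcases h1 with rfl | rfl
      · exact hline (by omega)
      · have hn : finrank ℂ U = 2 := by omega
        refine ⟨fun h3 => ⟨?_, hNs g Z h hs hc U hU h3⟩, Or.inl ⟨?_, by omega⟩⟩
        · obtain ⟨N, hN, h4, h5, h6⟩ := hUp g Z h hs hc U hU h3
          refine ⟨DZ Z, Or.inl rfl, N, hN, h4, h5, ?_⟩
          have h7 := two_rank_le h hU.2.1 hN h4 h5
          have h8 := map_rank_ne h6
          omega
        · by_contra hd
          have h4 := hDv g Z h hs hg U hU hd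
          rw [hn] at h4
          obtain ⟨k, hk⟩ := hodd
          omega
    · rcases h1 with rfl | rfl
      · have hn : finrank ℂ U = k₂ := by omega
        have hd : ¬SDu Z U := by
          intro hd
          have h3 := sdu_even h hU hd
          rw [hn] at h3
          exact (Nat.not_even_iff_odd.2 hodd) h3
        exact ⟨fun h3 => ⟨hUn _ Z h hs hc hg2 U hU hn hd, hNs _ Z h hs hc U hU h3⟩,
          Or.inr (hPr _ Z h U hU (hHa _ Z h hs hg U hU hn hd))⟩
      · have hn : finrank ℂ U = 2 * k₂ := by omega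
        have ht := eq_top_of U hn
        subst ht
        exact ⟨fun h3 => ⟨hSy _ Z h hs hodd hU, hNs _ Z h hs hc ⊤ hU h3⟩,
          Or.inl ⟨sdu_top h hg, by omega⟩⟩

end

end Pool.Agent.Y4.P
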