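import Mathlib
import Pool.Agent.Y4.P.Jobs3

/-!
# The products of determinants belong to the ring
-/

set_option linter.unusedSectionVars false

namespace Pool.Agent.Y4.P

open Matrix Module Pool.Agent.Y90 Pool.Agent.W437.HC Pool.Agent.W437.HD
  Pool.Agent.TH504.CB Pool.Agent.W522.U
open Pool.Agent.W548.Odd hiding cv
open Pool.Agent.H204R3.CM (IsHodge)
open Pool.Agent.H204R3.SP (bil2 IsTate)
open Pool.Agent.H204R3.GP (HasProj)
open Pool.Agent.W437.HP (cK cK_mul cK_one)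

noncomputable section

/-- The conclusions of the classification. -/
def ClassZ {g : ℕ} (Z : Matrix (Fin g) (Fin g) ℂ) : Prop :=
  ∀ U, IrS (LZ Z) U →
    (2 ≤ finrank ℂ U → Rk1 Z U ∧ ∀ (σ : ℂ ≃+* ℂ) (c : ℂ), ∃ u ∈ U, DS Z σ *ᵥ u ≠ c • u) ∧
      ((SDu Z U ∧ 2 ≤ finrank ℂ U) ∨ PD (LZ Z) U)

/-- The simple factors satisfy the conclusions of the classification. -/
def GoodC {G : ℕ} (Z : Matrix (Fin G) (Fin G) ℂ) : Prop :=
  ∀ (a : ℕ) (Z' : Matrix (Fin a) (Fin a) ℂ) (E : Matrix (Fin G ⊕ Fin G) (Fin a ⊕ Fin a) ℚ)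
    (F : Matrix (Fin a ⊕ Fin a) (Fin G ⊕ Fin G) ℚ), Fac Z Z' E F → PM Z' → IsSimpleAV Z' →
    0 < a → ClassZ Z'

/-- The classification of the irreducible submodules. -/
theorem loc' (hT : JTransfer) (hT2 : JTransfer2) {G : ℕ} {Z : Matrix (Fin G) (Fin G) ℂ} (h : PM Z)
    (hg : GoodC Z) {U : Submodule ℂ (Fin G ⊕ Fin G → ℂ)} (hU : IrS (LZ Z) U) :
    (2 ≤ finrank ℂ U → Rk1 Z U ∧ ∀ (σ : ℂ ≃+* ℂ) (c : ℂ), ∃ u ∈ U, DS Z σ *ᵥ u ≠ c • u) ∧
      ((SDu Z U ∧ 2 ≤ finrank ℂ U) ∨ PD (LZ Z) U) := by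
  obtain ⟨a, Z', E, F, hf, h', hs, ha, h0⟩ := exists_fac h hU.1
  have hi := hf.inj hU h0
  have hU' := hf.irr hU h0
  have hfr := finrank_ml hi
  obtain ⟨-, t2, t3, t4⟩ := hT G a Z Z' E F hf h h' U hU hi
  obtain ⟨c1, c2⟩ := hg a Z' E F hf h' hs ha (U.map (ml F)) hU'
  rw [hfr] at c1 c2
  refine ⟨fun hn => ⟨t2 (c1 hn).1, t3 (c1 hn).2⟩, ?_⟩
  rcases c2 with ⟨h1, h2⟩ | h1
  · exact Or.inl ⟨t4 h1, h2⟩
  · exact Or.inr (hT2 G a Z Z' E F hf h h' U hU hi h1)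

section tr

variable {G : ℕ} {Z : Matrix (Fin G) (Fin G) ℂ}

/-- The traces. -/
theorem tr_rel (h : PM Z) {s : ℕ} (W : Fin s → Submodule ℂ (Fin G ⊕ Fin G → ℂ))
    (hW : ∀ i, IrS (LZ Z) (W i)) (a : Fin s → ℤ)
    (hdet : ∀ (g : Gam (GG (LZ Z))) (hg : ∀ i, ∀ u ∈ W i, RZ Z g u ∈ W i), ∃ M : ℕ, M ≠ 0 ∧
      (∏ i, LinearMap.det ((RZ Z g).restrict (hg i)) ^ a i) ^ M = 1) (τ : ℂ ≃+* ℂ) :
    ∑ i, a i * tr Z (cjS τ (W i)) = 0 := by
  classical
  have hg : ∀ i, ∀ u ∈ W i, RZ Z (gs h τ.symm) u ∈ W i := fun i =>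
    rz_stable h (hW i).2.1 (gs h τ.symm)
  obtain ⟨M, hM, hM'⟩ := hdet (gs h τ.symm) hg
  have h1 : ∀ i, LinearMap.det ((RZ Z (gs h τ.symm)).restrict (hg i)) ^ a i =
      (2 : ℂ) ^ (a i * tr Z (cjS τ (W i))) := by
    intro i
    rw [det_gs h (hW i).2.1 τ.symm (hg i), ← _root_.zpow_mul, mul_comm]
    rfl
  have h2 : ∀ (t : Finset (Fin s)), ∏ i ∈ t, (2 : ℂ) ^ (a i * tr Z (cjS τ (W i))) =
      (2 : ℂ) ^ ∑ i ∈ t, a i * tr Z (cjS τ (W i)) := by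
    intro t
    induction t using Finset.induction_on with
    | empty => simp
    | insert i t hi ih => rw [Finset.prod_insert hi, Finset.sum_insert hi, ih,
        zpow_add₀ two_ne_zero]
  rw [Finset.prod_congr rfl fun i _ => h1 i, h2, ← zpow_natCast, ← _root_.zpow_mul] at hM'
  have h3 : ((2 : ℝ) ^ ((∑ i, a i * tr Z (cjS τ (W i))) * (M : ℤ)) : ℝ) = (2 : ℝ) ^ (0 : ℤ) := by
    rw [zpow_zero]
    have h9 := congrArg (fun z : ℂ => ‖z‖) hM'
    simp only [norm_zpow, norm_one, Complex.norm_ofNat] at h9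
    exact h9
  have h4 := zpow_right_injective₀ (by norm_num : (0 : ℝ) < 2) (by norm_num) h3
  exact (mul_eq_zero.1 h4).resolve_right (by exact_mod_cast hM)

/-- The traces over the positive part. -/
theorem tr_pos (h : PM Z) {s : ℕ} (W : Fin s → Submodule ℂ (Fin G ⊕ Fin G → ℂ))
    (hW : ∀ i, IrS (LZ Z) (W i)) (st : Fin s → Fin s) (hst : ∀ i, st (st i) = i)
    (hDu : ∀ i, Du (RZ Z) 1 (W i) (W (st i))) (a : Fin s → ℤ) (ha : ∀ i, a (st i) = -a i)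
    (hdet : ∀ (g : Gam (GG (LZ Z))) (hg : ∀ i, ∀ u ∈ W i, RZ Z g u ∈ W i), ∃ M : ℕ, M ≠ 0 ∧
      (∏ i, LinearMap.det ((RZ Z g).restrict (hg i)) ^ a i) ^ M = 1) (τ : ℂ ≃+* ℂ) :
    ∑ x : (Σ i, Fin (a i).toNat), tr Z (cjS τ (W x.1)) = 0 := by
  classical
  have h1 := tr_rel h W hW a hdet τ
  rw [Fintype.sum_sigma]
  have h2 : ∀ i, ∑ _y : Fin (a i).toNat, tr Z (cjS τ (W i)) =
      ((a i).toNat : ℤ) * tr Z (cjS τ (W i)) := by
    intro i
    rw [Finset.sum_const, Finset.card_univ, Fintype.card_fin, nsmul_eq_mul]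
  rw [Finset.sum_congr rfl fun i _ => h2 i]
  have h3 : ∑ i, a i * tr Z (cjS τ (W i)) = ∑ i, ((a i).toNat : ℤ) * tr Z (cjS τ (W i)) -
      ∑ i, ((-a i).toNat : ℤ) * tr Z (cjS τ (W i)) := by
    rw [← Finset.sum_sub_distrib]
    refine Finset.sum_congr rfl fun i _ => ?_
    rw [← sub_mul]
    congr 1
    omega
  have h4 : ∑ i, ((-a i).toNat : ℤ) * tr Z (cjS τ (W i)) =
      -∑ i, ((a i).toNat : ℤ) * tr Z (cjS τ (W i)) := by
    let stE : Equiv.Perm (Fin s) := ⟨st, st, hst, hst⟩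
    rw [← Equiv.sum_comp stE, ← Finset.sum_neg_distrib]
    refine Finset.sum_congr rfl fun i _ => ?_
    change ((-a (st i)).toNat : ℤ) * tr Z (cjS τ (W (st i))) = _
    rw [ha, neg_neg, tr_st h (hW i) (hW (st i)) (hDu i) τ]
    ring
  rw [h3, h4] at h1
  linarith

end tr

section det

/-- The set of the conjugates of the coefficients. -/
theorem exists_K (hFd : JField) {S : Type} [Fintype S] {B : Type} [Fintype B] [DecidableEq B]
    (ε : S → Matrix B B ℂ) (h1 : ∀ x, (Set.range fun σ : ℂ ≃+* ℂ => (ε x).map σ).Finite)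
    (h2 : ∀ x (σ : ℂ ≃+* ℂ) (i j : B), cc (σ (ε x i j)) = σ (cc (ε x i j))) :
    ∃ (K : IntermediateField ℚ ℂ) (_ : NumberField K), NumberField.IsCMField K ∧
      ∀ x i j, ε x i j ∈ K := by
  let T : Set ℂ := ⋃ x, ⋃ M ∈ Set.range (fun σ : ℂ ≃+* ℂ => (ε x).map σ),
    Set.range (fun p : B × B => M p.1 p.2)
  have hT : ∀ z, z ∈ T ↔ ∃ x, ∃ σ : ℂ ≃+* ℂ, ∃ i j, z = σ (ε x i j) := by
    intro z
    simp only [T, Set.mem_iUnion, Set.mem_range, exists_prop]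
    constructor
    · rintro ⟨x, _, ⟨σ, rfl⟩, ⟨i, j⟩, rfl⟩
      exact ⟨x, σ, i, j, rfl⟩
    · rintro ⟨x, σ, i, j, rfl⟩
      exact ⟨x, _, ⟨σ, rfl⟩, (i, j), rfl⟩
  obtain ⟨K, hK1, hK2, hK3⟩ := hFd T (Set.finite_iUnion fun x => Set.Finite.biUnion (h1 x)
    fun M _ => Set.finite_range _) (fun σ z hz => by
      obtain ⟨x, τ, i, j, rfl⟩ := (hT z).1 hz
      exact (hT _).2 ⟨x, τ.trans σ, i, j, rfl⟩) (fun σ z hz => by
      obtain ⟨x, τ, i, j, rfl⟩ := (hT z).1 hz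
      have h3 := h2 x (τ.trans σ) i j
      have h4 := h2 x τ i j
      rw [h4]
      exact h3)
  exact ⟨K, hK1, hK2, fun x i j => hK3 ((hT _).2 ⟨x, RingEquiv.refl ℂ, i, j, rfl⟩)⟩

/-- The traces of the elements of the Lie algebra. -/
theorem trace_all {G : ℕ} {Z : Matrix (Fin G) (Fin G) ℂ} {S : Type} [Fintype S]
    (ε : S → Matrix (Fin G ⊕ Fin G) (Fin G ⊕ Fin G) ℂ)
    (hc : ∀ x, ∀ X ∈ LZ Z, X * ε x = ε x * X)
    (htr : ∀ σ : ℂ ≃+* ℂ, ∑ x, Matrix.trace (DS Z σ * ε x) = 0) :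
    ∀ X ∈ LZ Z, ∑ x, Matrix.trace (X * ε x) = 0 := by
  let C : Submodule ℂ (Matrix (Fin G ⊕ Fin G) (Fin G ⊕ Fin G) ℂ) :=
    { carrier := {X | X ∈ LZ Z ∧ ∑ x, Matrix.trace (X * ε x) = 0}
      add_mem' := fun {X Y} hX hY => by
        refine ⟨Submodule.add_mem _ hX.1 hY.1, ?_⟩
        have h1 : ∑ x, Matrix.trace ((X + Y) * ε x) = ∑ x, Matrix.trace (X * ε x) +
            ∑ x, Matrix.trace (Y * ε x) := by
          rw [← Finset.sum_add_distrib]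
          refine Finset.sum_congr rfl fun x _ => ?_
          rw [Matrix.add_mul, Matrix.trace_add]
        rw [h1, hX.2, hY.2, add_zero]
      zero_mem' := ⟨Submodule.zero_mem _, by simp⟩
      smul_mem' := fun c X hX => by
        refine ⟨Submodule.smul_mem _ c hX.1, ?_⟩
        have h1 : ∑ x, Matrix.trace ((c • X) * ε x) = c * ∑ x, Matrix.trace (X * ε x) := by
          rw [Finset.mul_sum]
          refine Finset.sum_congr rfl fun x _ => ?_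
          rw [Matrix.smul_mul, Matrix.trace_smul, smul_eq_mul]
        rw [h1, hX.2, mul_zero] }
  have hC : LZ Z ≤ C := by
    refine LZ_le (fun σ => ⟨DS_mem σ, htr σ⟩) (fun A hA B hB => ⟨LZ_br hA.1 hB.1, ?_⟩)
    refine Finset.sum_eq_zero fun x _ => ?_
    rw [Matrix.sub_mul, Matrix.trace_sub, Matrix.mul_assoc B A, hc x A hA.1, ← Matrix.mul_assoc,
      Matrix.trace_mul_comm (B * ε x) A, ← Matrix.mul_assoc, sub_self]
  exact fun X hX => (hC hX).2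

/-- Descent of an idempotent matrix to a subfield. -/
theorem exists_PQ (hId : JIdem) {K : IntermediateField ℚ ℂ} {B : Type} [Fintype B]
    [DecidableEq B] (ε : Matrix B B ℂ) (h1 : ε * ε = ε) (hK : ∀ i j, ε i j ∈ K) :
    ∃ (d : ℕ) (P : Matrix B (Fin d) K) (Q : Matrix (Fin d) B K), cx (P * Q) = ε ∧ Q * P = 1 := by
  let e : Matrix B B K := Matrix.of fun i j => ⟨ε i j, hK i j⟩
  have he : cx e = ε := by
    ext i j
    rfl
  have he2 : e * e = e := by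
    have h2 : (algebraMap K ℂ).mapMatrix (e * e) = (algebraMap K ℂ).mapMatrix e := by
      rw [map_mul]
      change cx e * cx e = cx e
      rw [he, h1]
    exact Matrix.map_injective (algebraMap K ℂ).injective h2
  obtain ⟨d, P, Q, h2, h3⟩ := hId K B e he2
  exact ⟨d, P, Q, by rw [h2, he], h3⟩

theorem cx_mul {K : IntermediateField ℚ ℂ} {I J L : Type} [Fintype J] (A : Matrix I J K)
    (B : Matrix J L K) : cx (A * B) = cx A * cx B := by
  unfold cx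
  exact Matrix.map_mul

theorem cx_one {K : IntermediateField ℚ ℂ} {I : Type} [DecidableEq I] :
    cx (1 : Matrix I I K) = 1 := by
  unfold cx
  exact Matrix.map_one _ (map_zero _) (map_one _)

end det

end

end Pool.Agent.Y4.P
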