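import Mathlib
import Pool.Agent.Y4.P.Jobs

/-!
# Abelian varieties the endomorphisms of which have real eigenvalues
-/

set_option linter.unusedSectionVars false

namespace Pool.Agent.Y4.P

open Matrix Module Pool.Agent.Y90 Pool.Agent.W437.HC Pool.Agent.W437.HD
  Pool.Agent.TH504.CB Pool.Agent.W522.U
open Pool.Agent.W548.Odd hiding cv
open Pool.Agent.W437.HP (cK cK_mul cK_one)

noncomputable section

open scoped ComplexOrder

variable {g : ℕ} {Z : Matrix (Fin g) (Fin g) ℂ}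

/-- The eigenvalues of all endomorphisms are real. -/
def RealM (Z : Matrix (Fin g) (Fin g) ℂ) : Prop :=
  ∀ φ : Matrix (Fin g ⊕ Fin g) (Fin g ⊕ Fin g) ℚ, qm φ * DZ Z = DZ Z * qm φ →
    ∀ (z : ℂ) (v : Fin g ⊕ Fin g → ℂ), v ≠ 0 → qm φ *ᵥ v = z • v → z.im = 0

/-- The hermitian form. -/
theorem exists_herm (h : PM Z) : ∃ S : Matrix (Fin g ⊕ Fin g) (Fin g ⊕ Fin g) ℂ,
    S = Om g ℂ * (Complex.I • DZ Z) ∧ ∀ v : Fin g ⊕ Fin g → ℂ, star v ⬝ᵥ (S *ᵥ v) = 0 → v = 0 := by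
  obtain ⟨y, hy, hyy⟩ := exists_sqrt (OmJ_posDef h.symm h.pos)
  rw [star_eq_conjTranspose, conjTranspose_eq_transpose_of_trivial] at hyy
  have hJD : cm (JR Z) = Complex.I • DZ Z := by
    change _ = Complex.I • ((-Complex.I) • cm (JR Z))
    rw [smul_smul, show Complex.I * -Complex.I = 1 by simp, one_smul]
  have hOm : cm (Om g ℝ) = Om g ℂ := by
    ext i j
    rcases i with i | i <;> rcases j with j | j <;>
      simp [cm, Om, Matrix.one_apply, apply_ite]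
  refine ⟨_, rfl, fun v hv => ?_⟩
  rw [← hJD, ← hOm, ← cm_mul, hyy, cm_mul] at hv
  have h1 : cm yᵀ = (cm y)ᴴ := by
    ext i j
    simp [cm, conjTranspose_apply]
  rw [h1, ← mulVec_mulVec, dotProduct_mulVec, vecMul_conjTranspose, star_star] at hv
  have h2 : cm y *ᵥ v = 0 := dotProduct_star_self_eq_zero.1 hv
  obtain ⟨yi, hyi⟩ : ∃ yi, yi * y = 1 := hy.exists_left_inv
  have h3 : cm yi *ᵥ (cm y *ᵥ v) = v := by
    rw [mulVec_mulVec, ← cm_mul, hyi, cm_one, one_mulVec]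
  rw [← h3, h2, mulVec_zero]

/-- Skew operators with real eigenvalues vanish. -/
theorem skew_zero {B : Type} [Fintype B] [DecidableEq B] {S s : Matrix B B ℂ}
    (hp : ∀ v : B → ℂ, star v ⬝ᵥ (S *ᵥ v) = 0 → v = 0) (hs : sᴴ * S = -(S * s))
    (heig : ∀ (z : ℂ) (v : B → ℂ), v ≠ 0 → s *ᵥ v = z • v → z.im = 0) : s = 0 := by
  have hsk : ∀ a b : B → ℂ, star (s *ᵥ a) ⬝ᵥ (S *ᵥ b) = -(star a ⬝ᵥ (S *ᵥ (s *ᵥ b))) := by
    intro a b
    rw [star_mulVec, ← dotProduct_mulVec, mulVec_mulVec, hs, neg_mulVec, dotProduct_neg,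
      mulVec_mulVec]
  have hz : ∀ (z : ℂ) (v : B → ℂ), v ≠ 0 → s *ᵥ v = z • v → z = 0 := by
    intro z v hv hzv
    have h1 := hsk v v
    rw [hzv, star_smul, smul_dotProduct, mulVec_smul, dotProduct_smul, smul_eq_mul,
      smul_eq_mul] at h1
    have h2 : (star z + z) * (star v ⬝ᵥ (S *ᵥ v)) = 0 := by linear_combination h1
    have h3 : star z + z = 0 := (mul_eq_zero.1 h2).resolve_right fun h0 => hv (hp v h0)
    have h4 := heig z v hv hzv
    apply Complex.ext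
    · have h5 := congrArg Complex.re h3
      simp at h5
      simpa using h5
    · simpa using h4
  have hcoe : ∀ v, Matrix.toLin' s v = s *ᵥ v := fun v => Matrix.toLin'_apply s v
  have h0 : ∀ (k : ℕ) (v : B → ℂ), ((Matrix.toLin' s) ^ (k + 1)) v = 0 → s *ᵥ v = 0 := by
    intro k
    induction k with
    | zero =>
      intro v hv
      rwa [zero_add, pow_one, hcoe] at hv
    | succ k ih =>
      intro v hv
      apply ih
      apply hp
      have h1 : ((Matrix.toLin' s) ^ (k + 1)) v = s *ᵥ (((Matrix.toLin' s) ^ k) v) := by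
        rw [pow_succ', Module.End.mul_apply, hcoe]
      have h2 : s *ᵥ (((Matrix.toLin' s) ^ (k + 1)) v) = 0 := by
        rw [pow_succ', Module.End.mul_apply, hcoe] at hv
        exact hv
      conv_lhs => rw [h1]
      rw [hsk]
      rw [← h1, h2, mulVec_zero, dotProduct_zero, neg_zero]
  have h1 : ∀ μ : ℂ, μ ≠ 0 → ∀ (k : ℕ) (v : B → ℂ),
      ((Matrix.toLin' s - μ • 1) ^ k) v = 0 → v = 0 := by
    intro μ hμ k
    induction k with
    | zero =>
      intro v hv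
      exact hv
    | succ k ih =>
      intro v hv
      rw [pow_succ, Module.End.mul_apply] at hv
      have h2 := ih _ hv
      rw [LinearMap.sub_apply, hcoe, LinearMap.smul_apply, Module.End.one_apply, sub_eq_zero] at h2
      by_contra hv0
      exact hμ (hz μ v hv0 h2)
  have h2 : (⊤ : Submodule ℂ (B → ℂ)) ≤ LinearMap.ker (Matrix.toLin' s) := by
    rw [← Module.End.iSup_maxGenEigenspace_eq_top (Matrix.toLin' s), iSup_le_iff]
    intro μ v hv
    obtain ⟨k, hk⟩ := (Module.End.mem_maxGenEigenspace _ _ _).1 hv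
    rw [LinearMap.mem_ker, hcoe]
    by_cases hμ : μ = 0
    · subst hμ
      rw [zero_smul, sub_zero] at hk
      refine h0 k v ?_
      rw [pow_succ', Module.End.mul_apply, hk, map_zero]
    · rw [h1 μ hμ k v hk, mulVec_zero]
  apply Matrix.toLin'.injective
  rw [map_zero]
  exact LinearMap.ker_eq_top.1 (top_le_iff.1 h2)

theorem qm_cK {B : Type} (u : Matrix B B ℚ) : qm u = cK ℂ u := rfl

/-- The endomorphisms are self-adjoint. -/
theorem real_sym (h : PM Z) (hr : RealM Z) {φ : Matrix (Fin g ⊕ Fin g) (Fin g ⊕ Fin g) ℚ}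
    (hφ : qm φ * DZ Z = DZ Z * qm φ) : (qm φ)ᵀ * Om g ℂ = Om g ℂ * qm φ := by
  obtain ⟨S, hS, hp⟩ := exists_herm h
  have hOm : qm (Om g ℚ) = Om g ℂ := Om_map ℂ
  have hOO : Om g ℂ * Om g ℂ = -1 := Om_sq ℂ
  have hOt : (Om g ℂ)ᵀ = -Om g ℂ := Om_transpose ℂ
  have hsp : (DZ Z)ᵀ * Om g ℂ = -(Om g ℂ * DZ Z) := eq_neg_of_add_eq_zero_left (h.sp DZ_mem)
  have hsp' : DZ Z * Om g ℂ = -(Om g ℂ * (DZ Z)ᵀ) := by
    calc DZ Z * Om g ℂ = -(Om g ℂ * Om g ℂ) * (DZ Z * Om g ℂ) := by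
          rw [hOO, neg_neg, Matrix.one_mul]
      _ = -(Om g ℂ * (Om g ℂ * DZ Z) * Om g ℂ) := by noncomm_ring
      _ = Om g ℂ * ((DZ Z)ᵀ * Om g ℂ) * Om g ℂ := by
          rw [hsp]
          noncomm_ring
      _ = Om g ℂ * (DZ Z)ᵀ * (Om g ℂ * Om g ℂ) := by noncomm_ring
      _ = -(Om g ℂ * (DZ Z)ᵀ) := by
          rw [hOO]
          noncomm_ring
  have hφt : (DZ Z)ᵀ * (qm φ)ᵀ = (qm φ)ᵀ * (DZ Z)ᵀ := by
    rw [← transpose_mul, hφ, transpose_mul]
  let ψ : Matrix (Fin g ⊕ Fin g) (Fin g ⊕ Fin g) ℚ := φ + Om g ℚ * φᵀ * Om g ℚ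
  have hψ : qm ψ = qm φ + Om g ℂ * (qm φ)ᵀ * Om g ℂ := by
    have h1 : qm (Om g ℚ * φᵀ * Om g ℚ) = Om g ℂ * (qm φ)ᵀ * Om g ℂ := by
      rw [qm_mul, qm_mul, hOm]
      rfl
    rw [← h1]
    ext i j
    simp [ψ, qm]
  have hc : qm ψ * DZ Z = DZ Z * qm ψ := by
    rw [hψ, Matrix.add_mul, Matrix.mul_add, hφ]
    congr 1
    calc Om g ℂ * (qm φ)ᵀ * Om g ℂ * DZ Z = Om g ℂ * (qm φ)ᵀ * (Om g ℂ * DZ Z) := by noncomm_ring
      _ = -(Om g ℂ * ((qm φ)ᵀ * (DZ Z)ᵀ) * Om g ℂ) := by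
          rw [show Om g ℂ * DZ Z = -((DZ Z)ᵀ * Om g ℂ) by rw [hsp, neg_neg]]
          noncomm_ring
      _ = -(Om g ℂ * (DZ Z)ᵀ) * (qm φ)ᵀ * Om g ℂ := by
          rw [← hφt]
          noncomm_ring
      _ = DZ Z * (Om g ℂ * (qm φ)ᵀ * Om g ℂ) := by
          rw [← hsp']
          noncomm_ring
  have hstar : (qm ψ)ᴴ = (qm ψ)ᵀ := by
    ext i j
    simp [conjTranspose_apply, qm]
  have hψt : (qm ψ)ᵀ * Om g ℂ = -(Om g ℂ * qm ψ) := by
    rw [hψ, transpose_add, transpose_mul, transpose_mul, transpose_transpose, hOt]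
    calc ((qm φ)ᵀ + -Om g ℂ * (qm φ * -Om g ℂ)) * Om g ℂ =
          (qm φ)ᵀ * Om g ℂ + Om g ℂ * qm φ * (Om g ℂ * Om g ℂ) := by noncomm_ring
      _ = -(Om g ℂ * qm φ + Om g ℂ * Om g ℂ * ((qm φ)ᵀ * Om g ℂ)) := by
          rw [hOO]
          noncomm_ring
      _ = -(Om g ℂ * (qm φ + Om g ℂ * (qm φ)ᵀ * Om g ℂ)) := by noncomm_ring
  have h0 : qm ψ = 0 := by
    refine skew_zero hp ?_ (hr ψ hc)
    rw [hstar, hS, ← Matrix.mul_assoc, hψt, Matrix.neg_mul, Matrix.mul_assoc, Matrix.mul_assoc,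
      Matrix.mul_smul, Matrix.smul_mul, hc]
  rw [hψ] at h0
  calc (qm φ)ᵀ * Om g ℂ = -(Om g ℂ * Om g ℂ) * ((qm φ)ᵀ * Om g ℂ) := by
        rw [hOO, neg_neg, Matrix.one_mul]
    _ = Om g ℂ * qm φ - Om g ℂ * (qm φ + Om g ℂ * (qm φ)ᵀ * Om g ℂ) := by noncomm_ring
    _ = Om g ℂ * qm φ := by rw [h0, Matrix.mul_zero, sub_zero]

/-- The equivariant operators are self-adjoint. -/
theorem real_sym' (h : PM Z) (hr : RealM Z) {M : Matrix (Fin g ⊕ Fin g) (Fin g ⊕ Fin g) ℂ}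
    (hM : ∀ σ, M * DS Z σ = DS Z σ * M) : Mᵀ * Om g ℂ = Om g ℂ * M := by
  have h1 := exp_mem hM
  clear hM
  induction h1 using Submodule.span_induction with
  | mem x hx =>
    obtain ⟨R, rfl, hR⟩ := hx
    exact real_sym h hr hR
  | zero => rw [transpose_zero, Matrix.zero_mul, Matrix.mul_zero]
  | add x y _ _ hx hy => rw [transpose_add, Matrix.add_mul, Matrix.mul_add, hx, hy]
  | smul c x _ hx => rw [transpose_smul, Matrix.smul_mul, Matrix.mul_smul, hx]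

/-- The symplectic form is nondegenerate on stable submodules. -/
theorem real_om (h : PM Z) (hr : RealM Z) {U : Submodule ℂ (Fin g ⊕ Fin g → ℂ)}
    (hU : Stab (LZ Z) U) : ∀ u ∈ U, (∀ v ∈ U, om g u v = 0) → u = 0 := by
  obtain ⟨π, h1, h2, h3⟩ := h.cred U hU
  have hπ : ∀ v, LinearMap.toMatrix' π *ᵥ v = π v := fun v => by
    rw [← Matrix.toLin'_apply, Matrix.toLin'_toMatrix']
  have h4 : (LinearMap.toMatrix' π)ᵀ * Om g ℂ = Om g ℂ * LinearMap.toMatrix' π := by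
    refine real_sym' h hr fun σ => ?_
    apply Matrix.toLin'.injective
    refine LinearMap.ext fun v => ?_
    rw [Matrix.toLin'_apply, Matrix.toLin'_apply, ← mulVec_mulVec, ← mulVec_mulVec, hπ, hπ,
      h1 _ (DS_mem σ)]
  intro u hu h5
  apply om_nd
  intro w
  rw [← h3 u hu, om_apply, ← hπ u, dotProduct_comm, dotProduct_mulVec, ← mulVec_transpose,
    mulVec_mulVec, h4, ← mulVec_mulVec, hπ, dotProduct_comm]
  exact h5 _ (h2 w)

end

end Pool.Agent.Y4.P
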