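import Mathlib
import Pool.Agent.Y4.P.Cls
import Pool.Agent.Y4.P.Real
import Pool.Agent.Y4.P.Det
import Pool.Agent.Y261.P.Tang0

/-!
# The classification of the irreducible submodules: general types
-/

set_option linter.unusedSectionVars false

namespace Pool.Agent.Y4.P

open Matrix Module Pool.Agent.Y90 Pool.Agent.W437.HC Pool.Agent.W437.HD
  Pool.Agent.TH504.CB Pool.Agent.W522.U
open Pool.Agent.W548.Odd hiding cv

noncomputable section

variable {g : ℕ} {Z : Matrix (Fin g) (Fin g) ℂ} {U : Submodule ℂ (Fin g ⊕ Fin g → ℂ)}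

/-! ## Transport along isomorphisms -/

theorem rk1_of_map {T : (Fin g ⊕ Fin g → ℂ) →ₗ[ℂ] (Fin g ⊕ Fin g → ℂ)}
    (hT : ∀ X ∈ LZ Z, ∀ v, T (X *ᵥ v) = X *ᵥ T v) (hi : ∀ u ∈ U, T u = 0 → u = 0)
    (hU : Stab (LZ Z) U) (hd : Rk1 Z (U.map T)) : Rk1 Z U := by
  obtain ⟨D, hD, N, hN, h1, h2, h3⟩ := hd
  refine ⟨D, hD, N, hN, h1, h2, ?_⟩
  have h4 : (U.map T).map (mulVecLin N) = (U.map (mulVecLin N)).map T := by
    rw [← Submodule.map_comp, ← Submodule.map_comp]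
    congr 1
    refine LinearMap.ext fun v => ?_
    simp only [LinearMap.comp_apply, mulVecLin_apply]
    exact (hT N hN v).symm
  rw [h4, finrank_map_of_inj] at h3
  · exact h3
  · rintro _ ⟨u, hu, rfl⟩ h0
    exact hi _ (hU N hN u hu) h0

theorem nonscalar_of_map {T : (Fin g ⊕ Fin g → ℂ) →ₗ[ℂ] (Fin g ⊕ Fin g → ℂ)}
    (hT : ∀ X ∈ LZ Z, ∀ v, T (X *ᵥ v) = X *ᵥ T v)
    (hd : ∀ (σ : ℂ ≃+* ℂ) (c : ℂ), ∃ u ∈ U.map T, DS Z σ *ᵥ u ≠ c • u) :
    ∀ (σ : ℂ ≃+* ℂ) (c : ℂ), ∃ u ∈ U, DS Z σ *ᵥ u ≠ c • u := by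
  intro σ c
  obtain ⟨_, ⟨u, hu, rfl⟩, h1⟩ := hd σ c
  refine ⟨u, hu, fun h2 => h1 ?_⟩
  rw [← hT _ (DS_mem σ), h2, map_smul]

theorem sdu_of_map' {T : (Fin g ⊕ Fin g → ℂ) →ₗ[ℂ] (Fin g ⊕ Fin g → ℂ)}
    (hT : ∀ X ∈ LZ Z, ∀ v, T (X *ᵥ v) = X *ᵥ T v) (hd : SDu Z (U.map T)) : SDu Z U := by
  obtain ⟨b, ⟨_, ⟨u, hu, rfl⟩, _, ⟨v, hv, rfl⟩, huv⟩, hb⟩ := hd
  refine ⟨b.compl₁₂ T T, ⟨u, hu, v, hv, huv⟩, fun X hX u hu v hv => ?_⟩
  rw [LinearMap.compl₁₂_apply, LinearMap.compl₁₂_apply, hT X hX u, hT X hX v]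
  exact hb X hX _ ⟨u, hu, rfl⟩ _ ⟨v, hv, rfl⟩

theorem pd_of_hasPr (hU : HasPr (LZ Z) U) : PD (LZ Z) U := by
  obtain ⟨π, h1, h2, h3, h4, h5⟩ := hU
  refine ⟨π, LinearMap.id, h1, h2, h4, h5, fun X _ u _ => rfl, fun u _ h => h, fun v => ?_⟩
  rw [Submodule.map_id]
  exact h3 v

theorem pd_of_map {T : (Fin g ⊕ Fin g → ℂ) →ₗ[ℂ] (Fin g ⊕ Fin g → ℂ)}
    (hT : ∀ X ∈ LZ Z, ∀ v, T (X *ᵥ v) = X *ᵥ T v) (hi : ∀ u ∈ U, T u = 0 → u = 0)
    (hd : HasPr (LZ Z) (U.map T)) : PD (LZ Z) U := by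
  obtain ⟨π, h1, h2, h3, h4, h5⟩ := hd
  exact ⟨π, T, h1, h2, h4, h5, fun X hX u _ => hT X hX u, hi, h3⟩

/-! ## Nonscalar action -/

/-- Nonscalar action from the multiplicities. -/
theorem nonscalar_mult (_h : PM Z) {U : Submodule ℂ (Fin g ⊕ Fin g → ℂ)} (hU : IrS (LZ Z) U)
    (hd : ∀ σ : ℂ ≃+* ℂ, pd Z (cjS σ U) ≠ 0 ∧ qd Z (cjS σ U) ≠ 0) (σ : ℂ ≃+* ℂ) (c : ℂ) :
    ∃ u ∈ U, DS Z σ *ᵥ u ≠ c • u := by
  by_contra hcon
  push Not at hcon
  obtain ⟨F, hF, hFd, ε, hε⟩ : ∃ F : Submodule ℂ (Fin g ⊕ Fin g → ℂ), IrS (LZ Z) F ∧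
      (pd Z F ≠ 0 ∧ qd Z F ≠ 0) ∧ ∃ ε : ℂ, ∀ u ∈ F, DZ Z *ᵥ u = ε • u := by
    refine ⟨cjS σ.symm U, hU.cj gal_LZ _, hd _, σ.symm c, fun u hu => ?_⟩
    rw [mem_cjS] at hu
    have h1 := hcon _ hu
    have h2 : (fun i => σ.symm ((DS Z σ *ᵥ fun i => σ.symm.symm (u i)) i)) =
        fun i => σ.symm ((c • fun i => σ.symm.symm (u i)) i) := by rw [h1]
    rw [map_mulVec_aut σ.symm] at h2
    have h3 : (DS Z σ).map σ.symm = DZ Z := by
      ext i j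
      simp [DS]
    rw [h3] at h2
    have h4 : (fun i => σ.symm (σ.symm.symm (u i))) = u := by
      funext i
      simp
    rw [h4] at h2
    rw [h2]
    funext i
    simp
  have hbot : ∀ e : ℂ, e ≠ ε → F ⊓ eig Z e = ⊥ := by
    intro e he
    rw [eq_bot_iff]
    rintro x ⟨hx, hx'⟩
    have h1 : e • x = ε • x := by rw [← hε x hx, ← mem_eig.1 hx']
    have h2 : (e - ε) • x = 0 := by rw [sub_smul, h1, sub_self]
    rw [Submodule.mem_bot]
    exact (smul_eq_zero.1 h2).resolve_left (sub_ne_zero.2 he)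
  by_cases hε1 : ε = 1
  · apply hFd.2
    unfold qd
    rw [hbot (-1) (by rw [hε1]; norm_num), finrank_bot]
  · apply hFd.1
    unfold pd
    rw [hbot 1 (Ne.symm hε1), finrank_bot]

/-- The complex structure and its conjugates are not scalars on submodules all conjugates of which
are self-dual. -/
theorem nonscalar_sdu (h : PM Z) {U : Submodule ℂ (Fin g ⊕ Fin g → ℂ)} (hU : IrS (LZ Z) U)
    (hd : ∀ σ : ℂ ≃+* ℂ, SDu Z (cjS σ U)) (σ : ℂ ≃+* ℂ) (c : ℂ) :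
    ∃ u ∈ U, DS Z σ *ᵥ u ≠ c • u := by
  refine nonscalar_mult h hU (fun τ => ?_) σ c
  have hF := hU.cj gal_LZ τ
  obtain ⟨b, h0, hb⟩ := hd τ
  have htr := tr_dual h hF hF h0 hb
  have hpq := pd_add_qd h hF.2.1
  have hpos : 0 < finrank ℂ (cjS τ U) := by
    rw [Nat.pos_iff_ne_zero, ne_eq, Submodule.finrank_eq_zero]
    exact hF.1
  unfold tr at htr
  constructor <;> omega

/-! ## Eigenspaces -/

theorem mem_eigM {φ : Matrix (Fin g ⊕ Fin g) (Fin g ⊕ Fin g) ℚ} {z : ℂ} {v : Fin g ⊕ Fin g → ℂ} :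
    v ∈ EigM φ z ↔ qm φ *ᵥ v = z • v := Module.End.mem_eigenspace_iff

theorem qm_aut (φ : Matrix (Fin g ⊕ Fin g) (Fin g ⊕ Fin g) ℚ) (σ : ℂ ≃+* ℂ) :
    (qm φ).map σ = qm φ := by
  ext i j
  simp [qm]

theorem cjS_eigM (φ : Matrix (Fin g ⊕ Fin g) (Fin g ⊕ Fin g) ℚ) (z : ℂ) (σ : ℂ ≃+* ℂ) :
    cjS σ (EigM φ z) = EigM φ (σ z) := by
  ext v
  rw [mem_cjS, mem_eigM, mem_eigM]
  constructor
  · intro h1
    have h2 : (fun i => σ ((qm φ *ᵥ fun i => σ.symm (v i)) i)) =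
        fun i => σ ((z • fun i => σ.symm (v i)) i) := by rw [h1]
    rw [map_mulVec_aut, qm_aut] at h2
    simpa [funext_iff] using h2
  · intro h1
    have h2 : (fun i => σ.symm ((qm φ *ᵥ v) i)) = fun i => σ.symm ((σ z • v) i) := by rw [h1]
    rw [map_mulVec_aut, qm_aut] at h2
    rw [h2]
    funext i
    simp

theorem root_aut {φ : Matrix (Fin g ⊕ Fin g) (Fin g ⊕ Fin g) ℚ} {z : ℂ}
    (hz : z ∈ (minpoly ℚ φ).aroots ℂ) (σ : ℂ ≃+* ℂ) : σ z ∈ (minpoly ℚ φ).aroots ℂ := by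
  rw [Polynomial.mem_aroots] at hz ⊢
  refine ⟨hz.1, ?_⟩
  have h1 : Polynomial.aeval (σ z) (minpoly ℚ φ) = σ (Polynomial.aeval z (minpoly ℚ φ)) := by
    have h2 := Polynomial.hom_eval₂ (minpoly ℚ φ) (algebraMap ℚ ℂ) (σ : ℂ →+* ℂ) z
    rw [Polynomial.aeval_def, Polynomial.aeval_def]
    refine Eq.trans ?_ h2.symm
    congr 1
    exact Subsingleton.elim _ _
  rw [h1, hz.2, map_zero]

/-- The symplectic form does not vanish on eigenspaces for real eigenvalues. -/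
theorem om_real (h : PM Z) {φ : Matrix (Fin g ⊕ Fin g) (Fin g ⊕ Fin g) ℚ} {z : ℂ}
    (hz : z.im = 0) (hW : IrS (LZ Z) (EigM φ z)) :
    ∃ u ∈ EigM φ z, ∃ v ∈ EigM φ z, om g u v ≠ 0 := by
  obtain ⟨v, hv, hv0⟩ := Submodule.exists_mem_ne_zero_of_ne_bot hW.1
  obtain ⟨S, hS, hp⟩ := exists_herm h
  have hst : star v ∈ EigM φ z := by
    have h1 := cjS_eigM φ z cc
    have h2 : cc z = z := Complex.conj_eq_iff_im.2 hz
    rw [h2] at h1
    rw [← h1, mem_cjS]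
    have h3 : (fun i => cc.symm (star v i)) = v := by
      funext i
      rw [cc_symm]
      change starRingEnd ℂ (starRingEnd ℂ (v i)) = v i
      exact Complex.conj_conj _
    rw [h3]
    exact hv
  have hD : (Complex.I • DZ Z) *ᵥ v ∈ EigM φ z := by
    rw [smul_mulVec]
    exact Submodule.smul_mem _ _ (hW.2.1 _ DZ_mem v hv)
  refine ⟨star v, hst, _, hD, fun h0 => hv0 (hp v ?_)⟩
  rw [hS, ← mulVec_mulVec]
  rw [om_apply] at h0
  exact h0

/-! ## The classification -/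

variable {φ : Matrix (Fin g ⊕ Fin g) (Fin g ⊕ Fin g) ℚ}

/-- The classification: coprime multiplicities. -/
theorem class_cop (hSp : JSpec) (hCo : JCop2) (h : PM Z) (hs : IsSimpleAV Z) (hg : 0 < g)
    (hc : CopM2 Z) : ClassZ Z := by
  obtain ⟨φ, hφ, hcm, hco⟩ := hc
  obtain ⟨s1, s2, s3⟩ := hSp g Z h hs hg φ hφ
  intro U hU
  obtain ⟨z, hz, T, hT, hi, hm⟩ := s2 U hU
  have hfr : finrank ℂ (EigM φ z) = finrank ℂ U := by rw [← hm, finrank_map_of_inj hi]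
  refine ⟨fun hn => ?_, Or.inr (pd_of_map hT hi (by rw [hm]; exact s3 hcm z hz))⟩
  have hW := (s1 z hz).1
  refine ⟨rk1_of_map hT hi hU.2.1 ?_, nonscalar_of_map hT ?_⟩
  · rw [hm]
    exact hCo g Z h _ hW (hco z hz) (by rw [hfr]; exact hn)
  · rw [hm]
    refine nonscalar_mult h hW fun σ => ?_
    have hz' := root_aut hz σ
    have h1 := hco _ hz'
    have h2 := pd_add_qd h (s1 _ hz').1.2.1
    have h3 := finrank_cjS σ (EigM φ z)
    rw [cjS_eigM] at h3 ⊢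
    constructor
    · intro h0
      rw [h0, Nat.coprime_zero_left] at h1
      omega
    · intro h0
      rw [h0, Nat.coprime_zero_right] at h1
      omega

/-- The classification: real multiplication, odd relative dimension. -/
theorem class_real (hSp : JSpec) (hSy : JSympG2) (h : PM Z) (hs : IsSimpleAV Z) (hg : 0 < g)
    (hc : RealOddM Z) : ClassZ Z := by
  obtain ⟨φ, hφ, hre, k, hk, hgk⟩ := hc
  obtain ⟨s1, s2, -⟩ := hSp g Z h hs hg φ hφ
  intro U hU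
  obtain ⟨z, hz, T, hT, hi, hm⟩ := s2 U hU
  have hfr : finrank ℂ (EigM φ z) = finrank ℂ U := by rw [← hm, finrank_map_of_inj hi]
  have hW := (s1 z hz).1
  have hdeg : 0 < (minpoly ℚ φ).natDegree := by
    rcases Nat.eq_zero_or_pos (minpoly ℚ φ).natDegree with h0 | h0
    · rw [h0, mul_zero] at hgk
      omega
    · exact h0
  have h2k : finrank ℂ (EigM φ z) = 2 * k := by
    have h1 := (s1 z hz).2
    have h3 : 2 * g = 2 * k * (minpoly ℚ φ).natDegree := by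
      rw [mul_assoc]
      exact congrArg (2 * ·) hgk
    rw [h3] at h1
    exact Nat.eq_of_mul_eq_mul_right hdeg h1
  have hom := om_real h (hre z hz) hW
  have hsd : ∀ w ∈ (minpoly ℚ φ).aroots ℂ, SDu Z (EigM φ w) := fun w hw =>
    ⟨om g, om_real h (hre w hw) (s1 w hw).1, fun X hX u _ v _ => h.om_sp hX u v⟩
  have h2 : 2 ≤ finrank ℂ U := by
    have h4 : 0 < k := by
      rcases hk with ⟨j, hj⟩ | hk <;> omega
    omega
  refine ⟨fun _ => ⟨rk1_of_map hT hi hU.2.1 ?_, nonscalar_of_map hT ?_⟩,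
    Or.inl ⟨sdu_of_map' hT (by rw [hm]; exact hsd z hz), h2⟩⟩
  · rw [hm]
    exact hSy g Z h hs _ hW hom k hk h2k
  · rw [hm]
    refine nonscalar_sdu h hW fun σ => ?_
    rw [cjS_eigM]
    exact hsd _ (root_aut hz σ)

/-- Equivariant operators are scalars on the eigenspaces if the endomorphisms are polynomials in
`φ`. -/
theorem comm_scal (hg : ∀ ψ : Matrix (Fin g ⊕ Fin g) (Fin g ⊕ Fin g) ℚ,
    qm ψ * DZ Z = DZ Z * qm ψ →
      ψ ∈ Algebra.adjoin ℚ ({φ} : Set (Matrix (Fin g ⊕ Fin g) (Fin g ⊕ Fin g) ℚ))) (α : ℂ) :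
    ∀ X, InCm {DZ Z} X → ∃ k : ℂ, ∀ v ∈ EigM φ α, X *ᵥ v = k • v := by
  refine Cm_induction ?_ ?_ ?_ ?_
  · intro u hu'
    obtain ⟨p, rfl⟩ := Y261.P.mem_adj (hg u (hu' _ DZ_mem))
    refine ⟨Polynomial.aeval α p, fun v hv => ?_⟩
    rw [Y261.P.qm_aeval]
    exact Y261.P.aeval_mulVec (mem_eigM.1 hv) p
  · exact ⟨0, fun v _ => by rw [zero_mulVec, zero_smul]⟩
  · rintro X Y ⟨k, hk⟩ ⟨l, hl⟩
    exact ⟨k + l, fun v hv => by rw [add_mulVec, hk v hv, hl v hv, add_smul]⟩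
  · rintro c X ⟨k, hk⟩
    exact ⟨c * k, fun v hv => by rw [smul_mulVec, hk v hv, smul_smul]⟩

/-- Eigenspaces for eigenvalues which are not real are not self-dual if the endomorphisms are
polynomials in `φ`. -/
theorem not_sdu (h : PM Z) (hg : ∀ ψ : Matrix (Fin g ⊕ Fin g) (Fin g ⊕ Fin g) ℚ,
    qm ψ * DZ Z = DZ Z * qm ψ →
      ψ ∈ Algebra.adjoin ℚ ({φ} : Set (Matrix (Fin g ⊕ Fin g) (Fin g ⊕ Fin g) ℚ))) {z : ℂ}
    (hz : z.im ≠ 0) (hW : IrS (LZ Z) (EigM φ z)) : ¬SDu Z (EigM φ z) := by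
  rintro ⟨b, ⟨u0, hu0, v0, hv0, hb0⟩, hb⟩
  obtain ⟨p, p1, p2, p3⟩ := h.cred _ hW.2.1
  have hOO : Om g ℂ * Om g ℂ = -1 := Om_sq ℂ
  let M : Matrix (Fin g ⊕ Fin g) (Fin g ⊕ Fin g) ℂ :=
    Matrix.of fun i j => b (p (Pi.single i 1)) (p (Pi.single j 1))
  have hM : ∀ u v, u ⬝ᵥ (M *ᵥ v) = b (p u) (p v) := by
    intro u v
    have h1 : ∀ w : Fin g ⊕ Fin g → ℂ, p w = ∑ i, w i • p (Pi.single i 1) := by
      intro w
      conv_lhs => rw [← (Pi.basisFun ℂ (Fin g ⊕ Fin g)).sum_repr w]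
      rw [map_sum]
      refine Finset.sum_congr rfl fun i _ => ?_
      rw [map_smul, Pi.basisFun_apply, Pi.basisFun_repr]
    rw [h1 u, h1 v]
    simp only [map_sum, LinearMap.sum_apply, map_smul, LinearMap.smul_apply, smul_eq_mul,
      dotProduct, mulVec, M, Matrix.of_apply, Finset.mul_sum]
    rw [Finset.sum_comm]
    refine Finset.sum_congr rfl fun i _ => Finset.sum_congr rfl fun j _ => ?_
    ring
  have hinv : ∀ X ∈ LZ Z, Xᵀ * M + M * X = 0 := by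
    intro X hX
    have h1 : ∀ u v, u ⬝ᵥ ((Xᵀ * M + M * X) *ᵥ v) = 0 := by
      intro u v
      rw [add_mulVec, dotProduct_add, ← mulVec_mulVec, ← mulVec_mulVec, dotProduct_mulVec,
        ← mulVec_transpose, transpose_transpose, hM, hM, p1 X hX, p1 X hX]
      exact hb X hX _ (p2 u) _ (p2 v)
    ext i j
    have h2 := h1 (Pi.single i 1) (Pi.single j 1)
    simpa using h2
  let S : Matrix (Fin g ⊕ Fin g) (Fin g ⊕ Fin g) ℂ := -(Om g ℂ * M)
  have hS : ∀ u v, om g u (S *ᵥ v) = b (p u) (p v) := by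
    intro u v
    have h1 : Om g ℂ * S = M := by
      change Om g ℂ * -(Om g ℂ * M) = M
      rw [Matrix.mul_neg, ← Matrix.mul_assoc, hOO, Matrix.neg_mul, Matrix.one_mul, neg_neg]
    rw [om_apply, mulVec_mulVec, h1, hM]
  have hScm : InCm {DZ Z} S := by
    intro X hX
    have h1 : Xᵀ * Om g ℂ + Om g ℂ * X = 0 := h.sp hX
    have h2 : Xᵀ * M = -(M * X) := eq_neg_of_add_eq_zero_left (hinv X hX)
    have h3 : Om g ℂ * Xᵀ = -(X * Om g ℂ) := by
      have h4 : Om g ℂ * X = -(Xᵀ * Om g ℂ) := eq_neg_of_add_eq_zero_right h1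
      calc Om g ℂ * Xᵀ = -(Om g ℂ * (Xᵀ * (Om g ℂ * Om g ℂ))) := by
            rw [hOO]
            noncomm_ring
        _ = Om g ℂ * (-(Xᵀ * Om g ℂ)) * Om g ℂ := by noncomm_ring
        _ = Om g ℂ * Om g ℂ * X * Om g ℂ := by
            rw [← h4]
            noncomm_ring
        _ = -(X * Om g ℂ) := by
            rw [hOO]
            noncomm_ring
    change -(Om g ℂ * M) * X = X * -(Om g ℂ * M)
    calc -(Om g ℂ * M) * X = Om g ℂ * -(M * X) := by noncomm_ring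
      _ = Om g ℂ * Xᵀ * M := by
          rw [← h2]
          noncomm_ring
      _ = X * -(Om g ℂ * M) := by
          rw [h3]
          noncomm_ring
  have hPv : ∀ v, LinearMap.toMatrix' p *ᵥ v = p v := fun v => by
    rw [← Matrix.toLin'_apply, Matrix.toLin'_toMatrix']
  have hPcm : InCm {DZ Z} (LinearMap.toMatrix' p) := by
    intro X hX
    refine Y261.P.mat_ext fun v => ?_
    rw [← mulVec_mulVec, ← mulVec_mulVec, hPv, hPv, p1 X hX]
  obtain ⟨k, hk⟩ := comm_scal hg z S hScm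
  obtain ⟨l, hl⟩ := comm_scal hg (starRingEnd ℂ z) _ hPcm
  have hne : z ≠ starRingEnd ℂ z := fun h0 => hz (Complex.conj_eq_iff_im.1 h0.symm)
  have hp0 : ∀ v ∈ EigM φ (starRingEnd ℂ z), p v = 0 := by
    intro v hv
    have h1 : p v = l • v := by rw [← hPv, hl v hv]
    have h2 : p v ∈ EigM φ (starRingEnd ℂ z) := by
      rw [h1]
      exact Submodule.smul_mem _ _ hv
    have h3 := mem_eigM.1 h2
    have h4 := mem_eigM.1 (p2 v)
    rw [h4] at h3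
    have h5 : (z - starRingEnd ℂ z) • p v = 0 := by rw [sub_smul, h3, sub_self]
    exact (smul_eq_zero.1 h5).resolve_left (sub_ne_zero.2 hne)
  have hk0 : k ≠ 0 := by
    rintro rfl
    have h1 := hS u0 v0
    rw [hk v0 hv0, zero_smul, map_zero, p3 u0 hu0, p3 v0 hv0] at h1
    exact hb0 h1.symm
  obtain ⟨w, hw, hw0⟩ := Submodule.exists_mem_ne_zero_of_ne_bot hW.1
  obtain ⟨R, hR, hp⟩ := exists_herm h
  apply hw0
  apply hp
  have hst : star w ∈ EigM φ (starRingEnd ℂ z) := by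
    have h1 := cjS_eigM φ z cc
    change star w ∈ EigM φ (cc z)
    rw [← h1, mem_cjS]
    have h3 : (fun i => cc.symm (star w i)) = w := by
      funext i
      rw [cc_symm]
      change starRingEnd ℂ (starRingEnd ℂ (w i)) = w i
      exact Complex.conj_conj _
    rw [h3]
    exact hw
  have hD : (Complex.I • DZ Z) *ᵥ w ∈ EigM φ z := by
    rw [smul_mulVec]
    exact Submodule.smul_mem _ _ (hW.2.1 _ DZ_mem w hw)
  have h6 := hS (star w) ((Complex.I • DZ Z) *ᵥ w)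
  rw [hp0 _ hst, map_zero, LinearMap.zero_apply, hk _ hD, map_smul, smul_eq_mul] at h6
  have h7 := (mul_eq_zero.1 h6).resolve_left hk0
  rw [om_apply, mulVec_mulVec] at h7
  rw [hR]
  exact h7

/-- The classification: multiplicities two. -/
theorem class_two (hSp : JSpec) (hTw : JTwoTwo2) (h : PM Z) (hs : IsSimpleAV Z) (hg : 0 < g)
    (hc : TwoTwoM Z) : ClassZ Z := by
  obtain ⟨φ, hφ, hgen, hcm, hco⟩ := hc
  obtain ⟨s1, s2, s3⟩ := hSp g Z h hs hg φ ⟨hφ, fun ψ hψ _ => hgen ψ hψ⟩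
  intro U hU
  obtain ⟨z, hz, T, hT, hi, hm⟩ := s2 U hU
  refine ⟨fun hn => ?_, Or.inr (pd_of_map hT hi (by rw [hm]; exact s3 hcm z hz))⟩
  have hW := (s1 z hz).1
  refine ⟨rk1_of_map hT hi hU.2.1 ?_, nonscalar_of_map hT ?_⟩
  · rw [hm]
    refine hTw g Z h _ hW ?_ (fun σ => ?_) (not_sdu h hgen (hco z hz).1 hW)
    · rw [← pd_add_qd h hW.2.1, (hco z hz).2.1, (hco z hz).2.2]
    · rw [cjS_eigM]
      exact (hco _ (root_aut hz σ)).2.1
  · rw [hm]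
    refine nonscalar_mult h hW fun σ => ?_
    rw [cjS_eigM]
    have h1 := hco _ (root_aut hz σ)
    omega

/-- The classification: simple factors of prime dimension or with complex multiplication. -/
theorem classZ_of (hcl : JClass) (h : PM Z) (hs : IsSimpleAV Z) (hg : 0 < g)
    (hc : HasCM Z ∨ g = 1 ∨ g.Prime) : ClassZ Z := by
  intro U hU
  obtain ⟨h1, h2⟩ := hcl g Z h hs hg hc U hU
  exact ⟨h1, h2.imp_right pd_of_hasPr⟩

/-- The classification. -/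
theorem goodC_of (hcl : JClass) (hSp : JSpec) (hSy : JSympG2) (hCo : JCop2) (hTw : JTwoTwo2)
    {G : ℕ} {Z : Matrix (Fin G) (Fin G) ℂ} (hg : GoodF3 Z) : GoodC Z := by
  intro a Z' E F hf h' hs ha
  rcases hg a Z' E F hf h' hs ha with h1 | h1 | h1 | h1 | h1 | h1
  · exact classZ_of hcl h' hs ha (Or.inl h1)
  · exact classZ_of hcl h' hs ha (Or.inr (Or.inl h1))
  · exact classZ_of hcl h' hs ha (Or.inr (Or.inr h1))
  · exact class_real hSp hSy h' hs ha h1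
  · exact class_cop hSp hCo h' hs ha h1
  · exact class_two hSp hTw h' hs ha h1

end

end Pool.Agent.Y4.P
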