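import Mathlib
import Pool.Agent.Y4.P.Stm

/-!
# The types of the simple factors

The notation is that of `Pool.Agent.Y90.Stm`: a complex abelian variety `X` (up to isogeny) is given
by its period map `per : H → T` with `H = H_1(X, ℚ)` and the tangent space `T`; an abelian
subvariety is a rational subspace `U` of `H` the real span of which in `T` is a complex subspace
(the tangent space of the subvariety).
-/

namespace Pool.Agent.Y4.Q

open Pool.Agent.H204R3.CM Pool.Agent.Y90.St

variable {H T : Type} [AddCommGroup H] [Module ℚ H] [AddCommGroup T] [Module ℂ T]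

/-- The rational linear map `a` is an endomorphism of the abelian subvariety `U`. -/
def IsEndo (per : H →+ T) (U : Submodule ℚ H) (a : U →ₗ[ℚ] U) : Prop :=
  ∃ Ψ : T →ₗ[ℂ] T, ∀ u : U, Ψ (per u) = per (a u)

/-- `a` is an endomorphism of the abelian subvariety `U`, and each endomorphism of `U` which
commutes with `a` is a polynomial in `a`: for a simple `U`, the field `ℚ(a)` is a maximal
commutative subfield of the endomorphism algebra of `U`. -/
def IsMaxEndo (per : H →+ T) (U : Submodule ℚ H) (a : U →ₗ[ℚ] U) : Prop :=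
  IsEndo per U a ∧ ∀ b : U →ₗ[ℚ] U, IsEndo per U b → b ∘ₗ a = a ∘ₗ b →
    b ∈ Algebra.adjoin ℚ ({a} : Set (Module.End ℚ U))

/-- All automorphisms of `ℂ` commute with the complex conjugation on the eigenvalues of `a`: for a
simple `U`, the field `ℚ(a)` is totally real or a CM field. -/
def IsCMEndo {U : Submodule ℚ H} (a : U →ₗ[ℚ] U) : Prop :=
  ∀ z ∈ (minpoly ℚ a).aroots ℂ, ∀ σ : ℂ ≃+* ℂ, starRingEnd ℂ (σ z) = σ (starRingEnd ℂ z)

/-- The multiplicity of `z` on the tangent space of `U`: the dimension of the intersection of the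
tangent space of `U` with the eigenspace of `Ψ` for `z`. -/
noncomputable def mult (per : H →+ T) (U : Submodule ℚ H) (Ψ : T →ₗ[ℂ] T) (z : ℂ) : ℕ :=
  Module.finrank ℂ ↥(Submodule.span ℂ (per '' U) ⊓ Module.End.eigenspace Ψ z)

/-- The endomorphism algebra of the (simple) abelian subvariety `U` contains a maximal commutative
subfield `ℚ(a)` which is totally real, and the dimension of `U` is the product of the degree of
`ℚ(a)` with `k`, where `k` is odd or `k = 2`. -/
def IsRealOddSub (per : H →+ T) (U : Submodule ℚ H) : Prop :=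
  ∃ a : U →ₗ[ℚ] U, IsMaxEndo per U a ∧ (∀ z ∈ (minpoly ℚ a).aroots ℂ, z.im = 0) ∧
    ∃ k : ℕ, (Odd k ∨ k = 2) ∧ Module.finrank ℚ U = 2 * (k * (minpoly ℚ a).natDegree)

/-- The centre of the endomorphism algebra of the (simple) abelian subvariety `U` is `ℚ`, there is a
maximal commutative subfield `ℚ(a)` which is totally real (so that the endomorphism algebra is `ℚ`
or an indefinite quaternion algebra over `ℚ`), and the relative dimension `k`, the quotient of the
dimension of `U` by the degree of `ℚ(a)`, is not exceptional: `2 k` is not a power with an odd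
exponent greater than one, and not a binomial coefficient `C(4 j + 2, 2 j + 1)` with `j`
positive. -/
def IsGenericSub (per : H →+ T) (U : Submodule ℚ H) : Prop :=
  (∀ b : U →ₗ[ℚ] U, IsEndo per U b →
    (∀ c : U →ₗ[ℚ] U, IsEndo per U c → b ∘ₗ c = c ∘ₗ b) → ∃ r : ℚ, b = r • LinearMap.id) ∧
    ∃ a : U →ₗ[ℚ] U, IsMaxEndo per U a ∧ (∀ z ∈ (minpoly ℚ a).aroots ℂ, z.im = 0) ∧
      ∃ k : ℕ, Module.finrank ℚ U = 2 * (k * (minpoly ℚ a).natDegree) ∧
        (∀ d m : ℕ, 3 ≤ m → Odd m → d ^ m ≠ 2 * k) ∧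
        ∀ j : ℕ, 1 ≤ j → (4 * j + 2).choose (2 * j + 1) ≠ 2 * k

/-- The endomorphism algebra of the (simple) abelian subvariety `U` contains a maximal commutative
subfield `ℚ(a)` which is a CM field or totally real, and for some eigenvalue `z` of `a` the
multiplicities of `z` and of its complex conjugate on the tangent space of `U` are coprime. -/
def IsCoprimeSub (per : H →+ T) (U : Submodule ℚ H) : Prop :=
  ∃ (a : U →ₗ[ℚ] U) (Ψ : T →ₗ[ℂ] T), (∀ u : U, Ψ (per u) = per (a u)) ∧ IsMaxEndo per U a ∧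
    IsCMEndo a ∧ ∃ z ∈ (minpoly ℚ a).aroots ℂ,
      Nat.Coprime (mult per U Ψ z) (mult per U Ψ (starRingEnd ℂ z))

/-- The centre of the endomorphism algebra of the (simple) abelian subvariety `U` is the imaginary
quadratic field generated by an endomorphism `c = √-D`, there is a maximal commutative subfield
`ℚ(a)` which is a CM field, and for some eigenvalue `z` of `a` the multiplicities `p`, `q` of `z` and
of its complex conjugate on the tangent space of `U` are not exceptional: if `p + q` is a power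
`d ^ (m + 1)` with `d ≥ 2`, `m ≥ 1` then `p` (and `q`) is not divisible by `d ^ m`, and `p = q`, or
`p`, `q` are not two neighbouring binomial coefficients `C(m, i)`, `C(m, i - 1)` with
`1 < i < m`. -/
def IsUnitarySub (per : H →+ T) (U : Submodule ℚ H) : Prop :=
  (∃ (D : ℚ) (c : U →ₗ[ℚ] U), 0 < D ∧ IsEndo per U c ∧ c ∘ₗ c = -(D • LinearMap.id) ∧
    (∀ b : U →ₗ[ℚ] U, IsEndo per U b → b ∘ₗ c = c ∘ₗ b) ∧
    ∀ b : U →ₗ[ℚ] U, IsEndo per U b → (∀ b' : U →ₗ[ℚ] U, IsEndo per U b' → b ∘ₗ b' = b' ∘ₗ b) →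
      ∃ r s : ℚ, b = r • LinearMap.id + s • c) ∧
  ∃ (a : U →ₗ[ℚ] U) (Ψ : T →ₗ[ℂ] T), (∀ u : U, Ψ (per u) = per (a u)) ∧ IsMaxEndo per U a ∧
    IsCMEndo a ∧ ∃ (z : ℂ) (p q : ℕ), z ∈ (minpoly ℚ a).aroots ℂ ∧ mult per U Ψ z = p ∧
      mult per U Ψ (starRingEnd ℂ z) = q ∧ 2 ≤ p + q ∧
      (∀ d m : ℕ, 2 ≤ d → 1 ≤ m → d ^ (m + 1) = p + q → ¬d ^ m ∣ p) ∧
      (p ≠ q → ∀ m i : ℕ, 1 < i → i < m → ¬(p = m.choose i ∧ q = m.choose (i - 1)))

/-- The endomorphism algebra of the (simple) abelian subvariety `U` contains a maximal commutative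
subfield `ℚ(a)` which is a CM field or totally real, and the multiplicities `p`, `q` of some
eigenvalue `z` of `a` and of its complex conjugate on the tangent space of `U` are positive and have
one of the following properties. Either `p ≠ q`, they are not two neighbouring binomial coefficients
`C(m, i)`, `C(m, i - 1)` with `1 < i < m`, and `p + q` does not divide the product of the greatest
common divisor of `p`, `q` with the greatest common divisor of the multiplicities of `w` and of its
complex conjugate, for all eigenvalues `w` for which both are positive. Or `p = q` is odd, all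
eigenvalues of `a` have this multiplicity, and some central endomorphism of `U` has an eigenvalue
which is not real. -/
def IsIndivisibleSub (per : H →+ T) (U : Submodule ℚ H) : Prop :=
  ∃ (a : U →ₗ[ℚ] U) (Ψ : T →ₗ[ℂ] T), (∀ u : U, Ψ (per u) = per (a u)) ∧ IsMaxEndo per U a ∧
    IsCMEndo a ∧ ∃ (z : ℂ) (p q : ℕ), z ∈ (minpoly ℚ a).aroots ℂ ∧ mult per U Ψ z = p ∧
      mult per U Ψ (starRingEnd ℂ z) = q ∧ 0 < p ∧ 0 < q ∧
      ((p ≠ q ∧ (∀ m i : ℕ, 1 < i → i < m → ¬(p = m.choose i ∧ q = m.choose (i - 1))) ∧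
        ∀ w ∈ (minpoly ℚ a).aroots ℂ, 0 < mult per U Ψ w →
          0 < mult per U Ψ (starRingEnd ℂ w) →
            ¬(p + q ∣ p.gcd q * (mult per U Ψ w).gcd (mult per U Ψ (starRingEnd ℂ w)))) ∨
      (p = q ∧ Odd p ∧ (∀ w ∈ (minpoly ℚ a).aroots ℂ, mult per U Ψ w = p) ∧
        ∃ (c : U →ₗ[ℚ] U) (k : ℂ), IsEndo per U c ∧
          (∀ b : U →ₗ[ℚ] U, IsEndo per U b → b ∘ₗ c = c ∘ₗ b) ∧
          k ∈ (minpoly ℚ c).aroots ℂ ∧ k.im ≠ 0))

/-- All endomorphisms of the (simple) abelian subvariety `U` are polynomials in an endomorphism `a`,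
the field `ℚ(a)` is a CM field (not totally real), and each eigenvalue of `a` has the multiplicity
two on the tangent space of `U`. If `ℚ(a)` is imaginary quadratic then `U` is an abelian fourfold of
Weil type. -/
def IsTwoTwoSub (per : H →+ T) (U : Submodule ℚ H) : Prop :=
  ∃ (a : U →ₗ[ℚ] U) (Ψ : T →ₗ[ℂ] T), (∀ u : U, Ψ (per u) = per (a u)) ∧
    (∀ b : U →ₗ[ℚ] U, IsEndo per U b → b ∈ Algebra.adjoin ℚ ({a} : Set (Module.End ℚ U))) ∧
    IsCMEndo a ∧ ∀ z ∈ (minpoly ℚ a).aroots ℂ, z.im ≠ 0 ∧ mult per U Ψ z = 2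

/-- The operator `x` belongs to the Hodge Lie algebra of the abelian subvariety `U` (the Lie algebra
of the Hodge group): to each rational Lie algebra `L` of linear operators on `U` the real span of
which contains the complex structure. -/
def InHodge (per : H →+ T) (U : Submodule ℚ H) (x : U →ₗ[ℚ] U) : Prop :=
  ∀ L : Submodule ℚ (U →ₗ[ℚ] U), (∀ y ∈ L, ∀ y' ∈ L, y ∘ₗ y' - y' ∘ₗ y ∈ L) →
    (∃ (m : ℕ) (r : Fin m → ℝ) (y : Fin m → (U →ₗ[ℚ] U)), (∀ j, y j ∈ L) ∧
      ∀ u : U, Complex.I • per u = ∑ j, (r j : ℂ) • per (y j u)) → x ∈ L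

/-- The Hodge group of the (simple) abelian subvariety `U` is large: the endomorphism algebra of `U`
contains a maximal commutative subfield `ℚ(a)` which is a CM field or totally real, and some complex
linear combination of elements of the Hodge Lie algebra acts on the tangent space of `U` through a
conjugate linear map `M` which has rank one on the eigenspace of `a` for some eigenvalue `z`. For
example, this holds for each `U` of type I, II or IV without complex multiplication the Hodge group
of which contains the derived group of the Lefschetz group. -/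
def IsLargeSub (per : H →+ T) (U : Submodule ℚ H) : Prop :=
  ∃ (a : U →ₗ[ℚ] U) (Ψ : T →ₗ[ℂ] T), (∀ u : U, Ψ (per u) = per (a u)) ∧ IsMaxEndo per U a ∧
    IsCMEndo a ∧ ∃ z ∈ (minpoly ℚ a).aroots ℂ, ∃ (m : ℕ) (c : Fin m → ℂ)
      (x : Fin m → (U →ₗ[ℚ] U)) (M : T →ₛₗ[starRingEnd ℂ] T), (∀ j, InHodge per U (x j)) ∧
      (∀ u : U, M (per u) = ∑ j, c j • per (x j u)) ∧
      Module.finrank ℂ ↥((Submodule.span ℂ (per '' U) ⊓ Module.End.eigenspace Ψ z).map M) = 1

/-- The (simple) abelian subvariety `U` is of type III over `ℚ`: its endomorphism algebra is a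
definite quaternion algebra over `ℚ`. The centre is `ℚ`, some endomorphism is not a scalar, and each
endomorphism all eigenvalues of which are real is a scalar. -/
def IsTypeThreeQ (per : H →+ T) (U : Submodule ℚ H) : Prop :=
  (∀ b : U →ₗ[ℚ] U, IsEndo per U b →
    (∀ c : U →ₗ[ℚ] U, IsEndo per U c → b ∘ₗ c = c ∘ₗ b) → ∃ r : ℚ, b = r • LinearMap.id) ∧
  (∃ b : U →ₗ[ℚ] U, IsEndo per U b ∧ ∀ r : ℚ, b ≠ r • LinearMap.id) ∧
  ∀ b : U →ₗ[ℚ] U, IsEndo per U b → (∀ z ∈ (minpoly ℚ b).aroots ℂ, z.im = 0) →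
    ∃ r : ℚ, b = r • LinearMap.id

/-- The (simple) abelian subvariety `U` has dimension at most seven, and two exceptions are avoided:
fourfolds of Mumford's type (without endomorphisms, the Hodge Lie algebra has dimension nine; for
all other fourfolds without endomorphisms it contains ten linearly independent elements), and the
abelian varieties of dimension four and six of type III over `ℚ`. -/
def IsSmallSub (per : H →+ T) (U : Submodule ℚ H) : Prop :=
  Module.finrank ℚ U ≤ 14 ∧
    (Module.finrank ℚ U = 8 →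
      (∃ b : U →ₗ[ℚ] U, IsEndo per U b ∧ ∀ r : ℚ, b ≠ r • LinearMap.id) ∨
        ∃ x : Fin 10 → (U →ₗ[ℚ] U), LinearIndependent ℚ x ∧ ∀ j, InHodge per U (x j)) ∧
    (Module.finrank ℚ U = 8 ∨ Module.finrank ℚ U = 12 → ¬IsTypeThreeQ per U)

/-- Each simple abelian subvariety `U` of `X` has one of the following properties: it has complex
multiplication; its dimension is one or a prime number; it has real multiplication and the relative
dimension is odd or two; its endomorphism algebra is `ℚ` or an indefinite quaternion algebra over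
`ℚ` and the relative dimension is not exceptional; its multiplicities are coprime at some place; the
centre of its endomorphism algebra is an imaginary quadratic field and the multiplicities are not
exceptional; the relative dimension does not divide products of common divisors of multiplicities;
its endomorphism algebra is a CM field all embeddings of which have the multiplicity two; its Hodge
group is large; its dimension is at most seven (without the exceptions of `IsSmallSub`). -/
def GoodSimple (per : H →+ T) : Prop :=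
  ∀ U : Submodule ℚ H, IsSimpleSub per U → IsCMSub per U ∨ Module.finrank ℚ U = 2 ∨
    (∃ p : ℕ, p.Prime ∧ Module.finrank ℚ U = 2 * p) ∨ IsRealOddSub per U ∨
    IsGenericSub per U ∨ IsCoprimeSub per U ∨ IsUnitarySub per U ∨ IsIndivisibleSub per U ∨
    IsTwoTwoSub per U ∨ IsLargeSub per U ∨ IsSmallSub per U

/-- The simple abelian subvarieties of `X` are not related by twists. Let `U₁`, `U₂` be simple
abelian subvarieties with maximal commutative subfields `ℚ(a₁)`, `ℚ(a₂)` (CM fields or totally real)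
of the same relative dimension `n ≥ 2`, and let `z₁`, `z₂` be eigenvalues. If for each automorphism
`σ` of `ℂ` the multiplicities of `σ z₁` and `σ z₂` agree or are both in `{0, n}`, then they agree for
all `σ`, or `n = 2` and their sum is two for all `σ`. This always holds if no multiplicity is zero
(for relative dimensions at least two), since then the hypothesis says that the multiplicities agree
for all `σ`. -/
def IsSeparated (per : H →+ T) : Prop :=
  ∀ (U₁ U₂ : Submodule ℚ H) (a₁ : U₁ →ₗ[ℚ] U₁) (a₂ : U₂ →ₗ[ℚ] U₂) (Ψ₁ Ψ₂ : T →ₗ[ℂ] T),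
    IsSimpleSub per U₁ → IsSimpleSub per U₂ → (∀ u : U₁, Ψ₁ (per u) = per (a₁ u)) →
    (∀ u : U₂, Ψ₂ (per u) = per (a₂ u)) → IsMaxEndo per U₁ a₁ → IsMaxEndo per U₂ a₂ →
    IsCMEndo a₁ → IsCMEndo a₂ →
    ∀ z₁ ∈ (minpoly ℚ a₁).aroots ℂ, ∀ z₂ ∈ (minpoly ℚ a₂).aroots ℂ, ∀ n : ℕ, 2 ≤ n →
      mult per U₁ Ψ₁ z₁ + mult per U₁ Ψ₁ (starRingEnd ℂ z₁) = n →
      mult per U₂ Ψ₂ z₂ + mult per U₂ Ψ₂ (starRingEnd ℂ z₂) = n →
      (∀ σ : ℂ ≃+* ℂ, mult per U₁ Ψ₁ (σ z₁) = mult per U₂ Ψ₂ (σ z₂) ∨
        ((mult per U₁ Ψ₁ (σ z₁) = 0 ∨ mult per U₁ Ψ₁ (σ z₁) = n) ∧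
          (mult per U₂ Ψ₂ (σ z₂) = 0 ∨ mult per U₂ Ψ₂ (σ z₂) = n))) →
      (∀ σ : ℂ ≃+* ℂ, mult per U₁ Ψ₁ (σ z₁) = mult per U₂ Ψ₂ (σ z₂)) ∨
        (n = 2 ∧ ∀ σ : ℂ ≃+* ℂ, mult per U₁ Ψ₁ (σ z₁) + mult per U₂ Ψ₂ (σ z₂) = 2)

end Pool.Agent.Y4.Q
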