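import Mathlib
import Pool.Agent.Y4.P.Stm4
import Pool.Agent.Y4.P.Jobs3

/-!
# Project P: statements, fourth part (definite places)
-/

set_option linter.unusedSectionVars false

namespace Pool.Agent.Y4.Q

open Matrix Module Pool.Agent.Y90 Pool.Agent.W437.HC Pool.Agent.W437.HD
  Pool.Agent.TH504.CB Pool.Agent.W522.U
open Pool.Agent.W548.Odd hiding cv
open Pool.Agent.H204R3.CM (IsHodge)
open Pool.Agent.Y4.P (WeilRing MaxM EigM RealOddM TwoTwoM HasPr PD)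

noncomputable section

/-- All automorphisms of `ℂ` commute with the complex conjugation on the eigenvalues. -/
def CMM {g : ℕ} (φ : Matrix (Fin g ⊕ Fin g) (Fin g ⊕ Fin g) ℚ) : Prop :=
  ∀ z ∈ (minpoly ℚ φ).aroots ℂ, ∀ σ : ℂ ≃+* ℂ, cc (σ z) = σ (cc z)

/-- A maximal commutative subfield which is CM or totally real, with coprime multiplicities at some
place. -/
def CopM4 {g : ℕ} (Z : Matrix (Fin g) (Fin g) ℂ) : Prop :=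
  ∃ φ, MaxM Z φ ∧ CMM φ ∧
    ∃ z ∈ (minpoly ℚ φ).aroots ℂ, Nat.Coprime (pd Z (EigM φ z)) (qd Z (EigM φ z))

/-- The centre is `ℚ`, a maximal commutative subfield is totally real, the relative dimension is not
exceptional. -/
def GenM {g : ℕ} (Z : Matrix (Fin g) (Fin g) ℂ) : Prop :=
  (∀ ψ : Matrix (Fin g ⊕ Fin g) (Fin g ⊕ Fin g) ℚ, qm ψ * DZ Z = DZ Z * qm ψ →
    (∀ χ : Matrix (Fin g ⊕ Fin g) (Fin g ⊕ Fin g) ℚ, qm χ * DZ Z = DZ Z * qm χ →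
      ψ * χ = χ * ψ) → ∃ c : ℚ, ψ = c • (1 : Matrix (Fin g ⊕ Fin g) (Fin g ⊕ Fin g) ℚ)) ∧
    ∃ φ, MaxM Z φ ∧ (∀ z ∈ (minpoly ℚ φ).aroots ℂ, z.im = 0) ∧
      ∃ k : ℕ, g = k * (minpoly ℚ φ).natDegree ∧ (∀ d m : ℕ, 3 ≤ m → Odd m → d ^ m ≠ 2 * k) ∧
        ∀ j : ℕ, 1 ≤ j → (4 * j + 2).choose (2 * j + 1) ≠ 2 * k

/-- The centre of the endomorphism algebra is the imaginary quadratic field generated by `c`, with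
`c ^ 2 = -D`. -/
def ImQ {g : ℕ} (Z : Matrix (Fin g) (Fin g) ℂ) (D : ℚ)
    (c : Matrix (Fin g ⊕ Fin g) (Fin g ⊕ Fin g) ℚ) : Prop :=
  0 < D ∧ qm c * DZ Z = DZ Z * qm c ∧ c * c = -(D • (1 : Matrix _ _ ℚ)) ∧
    (∀ ψ : Matrix (Fin g ⊕ Fin g) (Fin g ⊕ Fin g) ℚ, qm ψ * DZ Z = DZ Z * qm ψ →
      ψ * c = c * ψ) ∧
    ∀ ψ : Matrix (Fin g ⊕ Fin g) (Fin g ⊕ Fin g) ℚ, qm ψ * DZ Z = DZ Z * qm ψ →
      (∀ χ : Matrix (Fin g ⊕ Fin g) (Fin g ⊕ Fin g) ℚ, qm χ * DZ Z = DZ Z * qm χ →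
        ψ * χ = χ * ψ) → ∃ r s : ℚ, ψ = r • (1 : Matrix _ _ ℚ) + s • c

/-- The multiplicities are not exceptional: the sum is not a power with an exponent greater than
one, and the multiplicities are equal or not neighbouring binomial coefficients. -/
def NonExc (p q : ℕ) : Prop :=
  (∀ d m : ℕ, 2 ≤ m → d ^ m ≠ p + q) ∧
    (p ≠ q → ∀ m i : ℕ, 1 < i → i < m →
      ¬(p = m.choose i ∧ q = m.choose (i - 1)) ∧ ¬(p = m.choose (i - 1) ∧ q = m.choose i))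

/-- The centre is an imaginary quadratic field, the multiplicities are not exceptional. -/
def UniM {g : ℕ} (Z : Matrix (Fin g) (Fin g) ℂ) : Prop :=
  (∃ (D : ℚ) (c : Matrix (Fin g ⊕ Fin g) (Fin g ⊕ Fin g) ℚ), ImQ Z D c) ∧
    ∃ φ, MaxM Z φ ∧ CMM φ ∧
      ∃ z ∈ (minpoly ℚ φ).aroots ℂ, NonExc (pd Z (EigM φ z)) (qd Z (EigM φ z))

/-- The Lie algebra contains an element of rank one on an eigenspace. -/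
def BigM {g : ℕ} (Z : Matrix (Fin g) (Fin g) ℂ) : Prop :=
  ∃ φ, MaxM Z φ ∧ CMM φ ∧ ∃ z ∈ (minpoly ℚ φ).aroots ℂ, Rk1 Z (EigM φ z)

/-- Two simple factors are not related by twists. -/
def SepM {g₁ g₂ : ℕ} (Z₁ : Matrix (Fin g₁) (Fin g₁) ℂ) (Z₂ : Matrix (Fin g₂) (Fin g₂) ℂ)
    (φ₁ : Matrix (Fin g₁ ⊕ Fin g₁) (Fin g₁ ⊕ Fin g₁) ℚ)
    (φ₂ : Matrix (Fin g₂ ⊕ Fin g₂) (Fin g₂ ⊕ Fin g₂) ℚ) : Prop :=
  ∀ z₁ ∈ (minpoly ℚ φ₁).aroots ℂ, ∀ z₂ ∈ (minpoly ℚ φ₂).aroots ℂ, ∀ n : ℕ, 2 ≤ n →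
    pd Z₁ (EigM φ₁ z₁) + qd Z₁ (EigM φ₁ z₁) = n → pd Z₂ (EigM φ₂ z₂) + qd Z₂ (EigM φ₂ z₂) = n →
    (∀ σ : ℂ ≃+* ℂ, pd Z₁ (EigM φ₁ (σ z₁)) = pd Z₂ (EigM φ₂ (σ z₂)) ∨
      ((pd Z₁ (EigM φ₁ (σ z₁)) = 0 ∨ pd Z₁ (EigM φ₁ (σ z₁)) = n) ∧
        (pd Z₂ (EigM φ₂ (σ z₂)) = 0 ∨ pd Z₂ (EigM φ₂ (σ z₂)) = n))) →
    (∀ σ : ℂ ≃+* ℂ, pd Z₁ (EigM φ₁ (σ z₁)) = pd Z₂ (EigM φ₂ (σ z₂))) ∨
      (n = 2 ∧ ∀ σ : ℂ ≃+* ℂ, pd Z₁ (EigM φ₁ (σ z₁)) + pd Z₂ (EigM φ₂ (σ z₂)) = 2)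

/-- All simple factors are of one of the types of the theorem, and they are not related by
twists. -/
def GoodF4 {G : ℕ} (Z : Matrix (Fin G) (Fin G) ℂ) : Prop :=
  (∀ (a : ℕ) (Z' : Matrix (Fin a) (Fin a) ℂ) (E : Matrix (Fin G ⊕ Fin G) (Fin a ⊕ Fin a) ℚ)
    (F : Matrix (Fin a ⊕ Fin a) (Fin G ⊕ Fin G) ℚ), Fac Z Z' E F → PM Z' → IsSimpleAV Z' →
    0 < a → HasCM Z' ∨ a = 1 ∨ a.Prime ∨ RealOddM Z' ∨ GenM Z' ∨ CopM4 Z' ∨ UniM Z' ∨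
      TwoTwoM Z' ∨ BigM Z') ∧
  ∀ (a₁ a₂ : ℕ) (Z₁ : Matrix (Fin a₁) (Fin a₁) ℂ) (Z₂ : Matrix (Fin a₂) (Fin a₂) ℂ)
    (E₁ : Matrix (Fin G ⊕ Fin G) (Fin a₁ ⊕ Fin a₁) ℚ)
    (F₁ : Matrix (Fin a₁ ⊕ Fin a₁) (Fin G ⊕ Fin G) ℚ)
    (E₂ : Matrix (Fin G ⊕ Fin G) (Fin a₂ ⊕ Fin a₂) ℚ)
    (F₂ : Matrix (Fin a₂ ⊕ Fin a₂) (Fin G ⊕ Fin G) ℚ), Fac Z Z₁ E₁ F₁ → Fac Z Z₂ E₂ F₂ →
    PM Z₁ → PM Z₂ → IsSimpleAV Z₁ → IsSimpleAV Z₂ → 0 < a₁ → 0 < a₂ →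
    ∀ φ₁ φ₂, MaxM Z₁ φ₁ → MaxM Z₂ φ₂ → CMM φ₁ → CMM φ₂ → SepM Z₁ Z₂ φ₁ φ₂

/-- The simple factors of the period matrix of an abstract abelian variety. -/
def JGood4 : Prop :=
  ∀ (H T : Type) [AddCommGroup H] [Module ℚ H] [AddCommGroup T] [Module ℂ T] (per : H →+ T)
    (G : ℕ) (Z : Matrix (Fin G) (Fin G) ℂ) (A : H ≃ₗ[ℚ] (Fin G ⊕ Fin G → ℚ))
    (_hC : Cht (per.comp A.symm.toLinearMap.toAddMonoidHom) (JR Z)) (_hs : GoodSimple per)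
    (_ht : IsSeparated per), GoodF4 Z

/-- The first fundamental theorem with arbitrary products of determinants, with dualities in
dimension two. -/
def JForms2 : Prop :=
  ∀ (X : Type) [AddCommGroup X] [Module ℂ X] [FiniteDimensional ℂ X] (Γ : Type) [Group Γ]
    (R : Representation ℂ Γ X) (_hfi : ∀ Δ : Subgroup Γ, Δ.FiniteIndex → Δ = ⊤)
    (ω : X →ₗ[ℂ] X →ₗ[ℂ] ℂ) (_hnd : ∀ u, (∀ v, ω u v = 0) → u = 0)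
    (_hωR : ∀ g u v, ω (R g u) (R g v) = (1 : Γ →* ℂ) g * ω u v)
    (_hR1 : ∀ U, W522.U.SI R U → 2 ≤ finrank ℂ U → ∃ γ : Γ, (R γ - 1) * (R γ - 1) = 0 ∧
      finrank ℂ (U.map (R γ - 1)) = 1)
    (_hR2 : ∀ U, W522.U.SI R U → finrank ℂ U = 1 → ¬Du R 1 U U)
    (_hH : ∀ U U', W522.U.SI R U → W522.U.SI R U' → 2 ≤ finrank ℂ U → ¬Du R 1 U U →
      ∀ ψ : Γ → ℂ, Tw R ψ U U' → Tw R (fun _ => 1) U U' ∨ (finrank ℂ U = 2 ∧ Du R 1 U U'))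
    (_hss : Pool.Agent.H204R3.GP.HasProj R) (s : ℕ) (W : Fin s → Submodule ℂ X)
    (_hW : ∀ i, W522.U.SI R (W i))
    (_hWW : ∀ i j, Tw R (fun _ => 1) (W i) (W j) → i = j)
    (_hall : ∀ U, W522.U.SI R U → ∃ i, Tw R (fun _ => 1) U (W i))
    (st : Fin s → Fin s) (_hst : ∀ i, st (st i) = i) (_hDu : ∀ i, Du R 1 (W i) (W (st i)))
    (_hDu' : ∀ i j, Du R 1 (W i) (W j) → j = st i)
    (N : ∀ (κ : Type) [Finite κ], Submodule ℂ (MultilinearMap ℂ (fun _ : κ => X) ℂ))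
    (_hN : Clo N)
    (_hpair : ∀ b : X →ₗ[ℂ] X →ₗ[ℂ] ℂ, (∀ g u v, b (R g u) (R g v) = (1 : Γ →* ℂ) g * b u v) →
      Pool.Agent.H204R3.SP.bil2 b ∈ N (Fin 2))
    (_hdet : ∀ a : Fin s → ℤ, (∀ i, a (st i) = -a i) →
      (∀ (g : Γ) (h : ∀ i, ∀ u ∈ W i, R g u ∈ W i), ∃ M : ℕ, M ≠ 0 ∧
        (∏ i, LinearMap.det ((R g).restrict (h i)) ^ a i) ^ M = 1) →
      ∀ (ι : Fin s → Type) [∀ i, Fintype (ι i)] [∀ i, DecidableEq (ι i)]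
        (f : ∀ i, Basis (ι i) ℂ (W i))
        (q : ∀ x : (Σ i, Fin (a i).toNat), ι x.1 → X →ₗ[ℂ] W x.1),
        (∀ x y g v, (q x y (R g v) : X) = R g (q x y v)) →
        ∀ ψ : MultilinearMap ℂ (fun _ : (Σ x : (Σ i, Fin (a i).toNat), ι x.1) => X) ℂ,
          (∀ v, ψ v = ∏ x : (Σ i, Fin (a i).toNat), (f x.1).det (fun y => q x y (v ⟨x, y⟩))) →
            ψ ∈ N (Σ x : (Σ i, Fin (a i).toNat), ι x.1))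
    (m : ℕ) (φ : MultilinearMap ℂ (fun _ : Fin m × Fin 2 => X) ℂ)
    (_hφ : Pool.Agent.H204R3.SP.IsTate R 1 m φ), φ ∈ N (Fin m × Fin 2)

/-- Rank one elements: no endomorphisms, dimension not exceptional. -/
def JGen : Prop :=
  ∀ (g : ℕ) (Z : Matrix (Fin g) (Fin g) ℂ) (_h : PM Z)
    (_hU : IrS (LZ Z) (⊤ : Submodule ℂ (Fin g ⊕ Fin g → ℂ)))
    (_h1 : ∀ d m : ℕ, 3 ≤ m → Odd m → d ^ m ≠ 2 * g)
    (_h2 : ∀ j : ℕ, 1 ≤ j → (4 * j + 2).choose (2 * j + 1) ≠ 2 * g),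
    Rk1 Z (⊤ : Submodule ℂ (Fin g ⊕ Fin g → ℂ))

/-- Rank one elements: the centre is `ℚ`, the dimension is not exceptional. -/
def JCen : Prop :=
  ∀ (g : ℕ) (Z : Matrix (Fin g) (Fin g) ℂ) (_h : PM Z)
    (_hc : ∀ φ : Matrix (Fin g ⊕ Fin g) (Fin g ⊕ Fin g) ℚ, qm φ * DZ Z = DZ Z * qm φ →
      (∀ ψ : Matrix (Fin g ⊕ Fin g) (Fin g ⊕ Fin g) ℚ, qm ψ * DZ Z = DZ Z * qm ψ →
        φ * ψ = ψ * φ) → ∃ c : ℚ, φ = c • (1 : Matrix (Fin g ⊕ Fin g) (Fin g ⊕ Fin g) ℚ))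
    (U : Submodule ℂ (Fin g ⊕ Fin g → ℂ)) (_hU : IrS (LZ Z) U)
    (_hni : ∃ u ∈ U, ∃ v ∈ U, Pool.Agent.Y90.om g u v ≠ 0)
    (_h1 : ∀ d m : ℕ, 3 ≤ m → Odd m → d ^ m ≠ finrank ℂ U)
    (_h2 : ∀ j : ℕ, 1 ≤ j → (4 * j + 2).choose (2 * j + 1) ≠ finrank ℂ U), Rk1 Z U

/-- Rank one elements: the centre is an imaginary quadratic field, the multiplicities are not
exceptional. -/
def JUni : Prop :=
  ∀ (g : ℕ) (Z : Matrix (Fin g) (Fin g) ℂ) (_h : PM Z) (_hs : IsSimpleAV Z) (_hg : 0 < g) (D : ℚ)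
    (c : Matrix (Fin g ⊕ Fin g) (Fin g ⊕ Fin g) ℚ) (_hc : ImQ Z D c)
    (U : Submodule ℂ (Fin g ⊕ Fin g → ℂ)) (_hU : IrS (LZ Z) U) (_hn : ¬SDu Z U) (k : ℂ)
    (_hk : ∀ u ∈ U, qm c *ᵥ u = k • u) (_hx : NonExc (pd Z U) (qd Z U)), Rk1 Z U

/-- Hodge classes belong to the ring: period matrices. -/
def JMain4 : Prop :=
  ∀ (G : ℕ) (Z : Matrix (Fin G) (Fin G) ℂ) (_h : PM Z) (_hg : GoodF4 Z) (κ : Type) [Finite κ]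
    (f : (Fin G ⊕ Fin G → ℚ) [⋀^κ]→ₗ[ℚ] ℚ) (_hf : IsHodge (perOne Z) f),
    WeilRing (perOne Z) κ f

/-- The theorem. -/
def JFinal4 : Prop :=
  ∀ (H T : Type) [AddCommGroup H] [Module ℚ H] [AddCommGroup T] [Module ℂ T] (per : H →+ T)
    (_hX : St.IsAV per) (_hs : GoodSimple per) (_ht : IsSeparated per) (κ : Type) [Finite κ]
    (f : H [⋀^κ]→ₗ[ℚ] ℚ), IsHodge per f ↔ WeilRing per κ f

end

end Pool.Agent.Y4.Q
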