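import Mathlib
import Pool.Agent.Y90.Bal1
import Pool.Agent.Y4.P.Jobs4
import Pool.Agent.Y4.T.B2

/-!
# Conjugates, twists and ranks
-/

set_option linter.unusedSectionVars false

namespace Pool.Agent.Y4.Q

open Matrix Module Pool.Agent.Y90 Pool.Agent.W437.HC Pool.Agent.W437.HD
  Pool.Agent.TH504.CB Pool.Agent.W522.U
open Pool.Agent.W548.Odd hiding cv

noncomputable section

variable {G : ℕ} {Z : Matrix (Fin G) (Fin G) ℂ} {U U' : Submodule ℂ (Fin G ⊕ Fin G → ℂ)}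

theorem cjS_map (σ : ℂ ≃+* ℂ) (M : Matrix (Fin G ⊕ Fin G) (Fin G ⊕ Fin G) ℂ)
    (U : Submodule ℂ (Fin G ⊕ Fin G → ℂ)) :
    cjS σ (U.map (mulVecLin M)) = (cjS σ U).map (mulVecLin (M.map σ)) := by
  ext v
  constructor
  · rintro ⟨u, hu, huv⟩
    refine ⟨fun i => σ (u i), cj_mem_cjS hu, ?_⟩
    rw [mulVecLin_apply] at huv ⊢
    rw [← map_mulVec_aut, huv]
    funext i
    simp
  · rintro ⟨u, hu, rfl⟩
    rw [mem_cjS, mulVecLin_apply, map_mulVec_aut]
    refine ⟨_, hu, ?_⟩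
    rw [mulVecLin_apply]
    congr 1
    ext i j
    simp

/-- Group elements of rank one from conjugates. -/
theorem rz_unip' (h : PM Z) (hU : ∃ σ : ℂ ≃+* ℂ, Rk1 Z (cjS σ U)) :
    ∃ γ : Gam (GG (LZ Z)), (RZ Z γ - 1) * (RZ Z γ - 1) = 0 ∧
      finrank ℂ (U.map (RZ Z γ - 1)) = 1 := by
  obtain ⟨σ, D, hD, N, hN, h1, h2, h3⟩ := hU
  have hDD : D * D = 1 := by
    rcases hD with rfl | rfl
    · exact DZ_sq h.det
    · rw [neg_mul_neg]
      exact DZ_sq h.det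
  have hDm : D ∈ LZ Z := by
    rcases hD with rfl | rfl
    · exact DZ_mem
    · exact Submodule.neg_mem _ DZ_mem
  set D' := D.map σ.symm with hD'
  set N' := N.map σ.symm with hN'
  have g1 : D' * D' = 1 := by
    rw [hD', ← Matrix.map_mul, hDD, Matrix.map_one _ (map_zero _) (map_one _)]
  have g2 : D' * N' = N' := by rw [hD', hN', ← Matrix.map_mul, h1]
  have g3 : N' * D' = -N' := by
    rw [hD', hN', ← Matrix.map_mul, h2]
    ext i j
    simp
  have g4 : D' ∈ LZ Z := gal_LZ σ.symm D hDm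
  have g5 : N' ∈ LZ Z := gal_LZ σ.symm N hN
  have g6 : finrank ℂ (U.map (mulVecLin N')) = 1 := by
    rw [← finrank_cjS σ, cjS_map]
    have h4 : N'.map σ = N := by
      ext i j
      simp [hN']
    rw [h4]
    exact h3
  obtain ⟨γ, hγ⟩ := unip_mem (G := GG (LZ Z)) (D := ph _ D') (N := ph _ N')
    (by rw [← map_mul, g1, map_one]) (mem_GG.2 g4) (mem_GG.2 g5)
    (by rw [← map_mul, g2]) (by rw [← map_mul, g3, map_neg])
  have h4 : RZ Z γ - 1 = ph _ N' := by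
    change RG (GG (LZ Z)) γ - 1 = _
    rw [hγ, add_sub_cancel_left]
  refine ⟨γ, ?_, ?_⟩
  · rw [h4, ← map_mul]
    have h5 : N' * N' = 0 := by
      have h6 : N' * N' = -(N' * N') := by
        calc N' * N' = N' * (D' * N') := by rw [g2]
          _ = (N' * D') * N' := by rw [Matrix.mul_assoc]
          _ = -(N' * N') := by rw [g3, Matrix.neg_mul]
      have h7 : (2 : ℂ) • (N' * N') = 0 := by
        rw [two_smul]
        nth_rewrite 1 [h6]
        rw [neg_add_cancel]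
      exact (smul_eq_zero.1 h7).resolve_left two_ne_zero
    rw [h5, map_zero]
  · rw [h4]
    exact g6

/-- The separation property. -/
def SepP (Z : Matrix (Fin G) (Fin G) ℂ) (U U' : Submodule ℂ (Fin G ⊕ Fin G → ℂ)) : Prop :=
  finrank ℂ U' = finrank ℂ U → (∀ σ : ℂ ≃+* ℂ, pd Z (cjS σ U) = pd Z (cjS σ U') ∨
    ((pd Z (cjS σ U) = 0 ∨ qd Z (cjS σ U) = 0) ∧ (pd Z (cjS σ U') = 0 ∨ qd Z (cjS σ U') = 0))) →
    (∀ σ : ℂ ≃+* ℂ, pd Z (cjS σ U) = pd Z (cjS σ U')) ∨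
      (finrank ℂ U = 2 ∧ ∀ σ : ℂ ≃+* ℂ, pd Z (cjS σ U) + pd Z (cjS σ U') = 2)

/-- A conjugate of the complex structure which is a scalar on a submodule. -/
theorem scalar_cases (h : PM Z) (hU : IrS (LZ Z) U) {σ : ℂ ≃+* ℂ} {c : ℂ}
    (hc : ∀ u ∈ U, DS Z σ *ᵥ u = c • u) :
    (c = 1 ∧ pd Z (cjS σ.symm U) = finrank ℂ U ∧ qd Z (cjS σ.symm U) = 0) ∨
      (c = -1 ∧ pd Z (cjS σ.symm U) = 0 ∧ qd Z (cjS σ.symm U) = finrank ℂ U) := by
  obtain ⟨v, hv, hv0⟩ := Submodule.exists_mem_ne_zero_of_ne_bot hU.1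
  have hc1 : c = 1 ∨ c = -1 := by
    have h2 : DS Z σ *ᵥ (DS Z σ *ᵥ v) = v := by rw [mulVec_mulVec, DS_sq h.det, one_mulVec]
    rw [hc v hv, mulVec_smul, hc v hv, smul_smul] at h2
    have h3 : (c * c - 1) • v = 0 := by rw [sub_smul, h2, one_smul, sub_self]
    have h4 := (smul_eq_zero.1 h3).resolve_right hv0
    have h5 : (c - 1) * (c + 1) = 0 := by linear_combination h4
    rcases mul_eq_zero.1 h5 with h6 | h6
    · exact Or.inl (sub_eq_zero.1 h6)
    · exact Or.inr (eq_neg_of_add_eq_zero_left h6)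
  have hF := hU.cj gal_LZ σ.symm
  have hpq := pd_add_qd h hF.2.1
  rw [finrank_cjS] at hpq
  have hact : ∀ u ∈ cjS σ.symm U, DZ Z *ᵥ u = σ.symm c • u := by
    intro u hu
    rw [mem_cjS] at hu
    have h1 := hc _ hu
    have h2 : (fun i => σ.symm ((DS Z σ *ᵥ fun i => σ.symm.symm (u i)) i)) =
        fun i => σ.symm ((c • fun i => σ.symm.symm (u i)) i) := by rw [h1]
    rw [map_mulVec_aut σ.symm] at h2
    have h3 : (DS Z σ).map σ.symm = DZ Z := by
      ext i j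
      simp [DS]
    rw [h3] at h2
    have h4 : (fun i => σ.symm (σ.symm.symm (u i))) = u := by
      funext i
      simp
    rw [h4] at h2
    rw [h2]
    funext i
    simp
  have hbot : ∀ e : ℂ, e ≠ σ.symm c → cjS σ.symm U ⊓ eig Z e = ⊥ := by
    intro e he
    rw [eq_bot_iff]
    rintro x ⟨hx, hx'⟩
    have h1 : e • x = σ.symm c • x := by rw [← hact x hx, ← mem_eig.1 hx']
    have h2 : (e - σ.symm c) • x = 0 := by rw [sub_smul, h1, sub_self]
    rw [Submodule.mem_bot]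
    exact (smul_eq_zero.1 h2).resolve_left (sub_ne_zero.2 he)
  rcases hc1 with rfl | rfl
  · left
    have h1 : qd Z (cjS σ.symm U) = 0 := by
      unfold qd
      rw [hbot (-1) (by rw [map_one]; norm_num), finrank_bot]
    exact ⟨rfl, by omega, h1⟩
  · right
    have h1 : pd Z (cjS σ.symm U) = 0 := by
      unfold pd
      rw [hbot 1 (by rw [map_neg, map_one]; norm_num), finrank_bot]
    exact ⟨rfl, h1, by omega⟩

/-- The eigenvalue on an isomorphic submodule: the multiplicities of a conjugate. -/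
theorem pd_of_comm {T : (Fin G ⊕ Fin G → ℂ) →ₗ[ℂ] (Fin G ⊕ Fin G → ℂ)} (hU : Stab (LZ Z) U)
    (hi : ∀ u ∈ U, T u = 0 → u = 0) {σ : ℂ ≃+* ℂ}
    (hT : ∀ u ∈ U, T (DS Z σ *ᵥ u) = DS Z σ *ᵥ T u) :
    pd Z (cjS σ.symm (U.map T)) = pd Z (cjS σ.symm U) := by
  have key : ∀ W : Submodule ℂ (Fin G ⊕ Fin G → ℂ), pd Z (cjS σ.symm W) =
      finrank ℂ ↥(W ⊓ cjS σ (eig Z 1)) := by
    intro W
    unfold pd
    rw [← finrank_cjS σ.symm (W ⊓ cjS σ (eig Z 1)), cjS_inf, cjS_symm]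
  have hmem : ∀ v : Fin G ⊕ Fin G → ℂ, v ∈ cjS σ (eig Z 1) ↔ DS Z σ *ᵥ v = v := by
    intro v
    constructor
    · intro hv
      rw [mem_cj_eig (map_one σ) hv, one_smul]
    · intro hv
      rw [mem_cjS, mem_eig, one_smul]
      have h1 : (fun i => σ.symm ((DS Z σ *ᵥ v) i)) = fun i => σ.symm (v i) := by rw [hv]
      rw [map_mulVec_aut σ.symm] at h1
      have h3 : (DS Z σ).map σ.symm = DZ Z := by
        ext i j
        simp [DS]
      rw [h3] at h1
      exact h1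
  rw [key, key, ← finrank_map_of_inj (U := U ⊓ cjS σ (eig Z 1)) (T := T) (fun u hu => hi u hu.1)]
  suffices h9 : U.map T ⊓ cjS σ (eig Z 1) = (U ⊓ cjS σ (eig Z 1)).map T by rw [h9]
  ext v
  constructor
  · rintro ⟨⟨u, hu, rfl⟩, hv'⟩
    refine ⟨u, ⟨hu, ?_⟩, rfl⟩
    rw [SetLike.mem_coe, hmem] at hv' ⊢
    rw [← sub_eq_zero]
    refine hi _ (U.sub_mem (hU _ (DS_mem σ) u hu) hu) ?_
    rw [map_sub, hT u hu, hv', sub_self]
  · rintro ⟨u, ⟨hu, hu'⟩, rfl⟩
    refine ⟨⟨u, hu, rfl⟩, ?_⟩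
    rw [SetLike.mem_coe, hmem] at hu' ⊢
    rw [← hT u hu, hu']

/-- Twisted homomorphisms and the conjugates of the complex structure. -/
theorem tw_split (h : PM Z) (hU : IrS (LZ Z) U) (hU' : IrS (LZ Z) U')
    (ψ : Gam (GG (LZ Z)) → ℂ) (hT : Tw (RZ Z) ψ U U') :
    ∃ T : (Fin G ⊕ Fin G → ℂ) →ₗ[ℂ] (Fin G ⊕ Fin G → ℂ), (∀ u ∈ U, T u ∈ U') ∧
      (∃ u ∈ U, T u ≠ 0) ∧ (∀ u ∈ U, T u = 0 → u = 0) ∧ U.map T = U' ∧
      ∀ σ : ℂ ≃+* ℂ, (∀ u ∈ U, T (DS Z σ *ᵥ u) = DS Z σ *ᵥ T u) ∨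
        ∃ c c' : ℂ, (∀ u ∈ U, DS Z σ *ᵥ u = c • u) ∧ ∀ u ∈ U', DS Z σ *ᵥ u = c' • u := by
  obtain ⟨Δ, hΔ, T, hT1, hT0, hT2⟩ := hT
  obtain rfl := fi_top Δ hΔ
  have hSI := (si_iff h.genI).2 hU
  have hinj := tw_inj hSI hΔ hT0 hT2
  have htor : ∀ σ : ℂ ≃+* ℂ, ψ (gs h σ) ≠ 0 ∧ ∀ u ∈ U, T (torE (ph _ (DS Z σ)) two u) =
      ψ (gs h σ) • torE (ph _ (DS Z σ)) two (T u) := fun σ =>
    ⟨tw_ne hSI hΔ hT0 hT2 (Subgroup.mem_top _) (rz_stable h hU.2.1 (gs h σ)),
      fun u hu => hT2 (gs h σ) (Subgroup.mem_top _) u hu⟩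
  have hst : Stab (LZ Z) (U.map T) := by
    refine stab_GG.1 ((stable_iff h.genI _).1 fun g => ?_)
    rintro _ ⟨u, hu, rfl⟩
    have h1 := hT2 g (Subgroup.mem_top _) u hu
    have h2 : ψ g ≠ 0 := tw_ne hSI hΔ hT0 hT2 (Subgroup.mem_top _) (rz_stable h hU.2.1 g)
    refine ⟨(ψ g)⁻¹ • RZ Z g u, U.smul_mem _ (rz_stable h hU.2.1 g u hu), ?_⟩
    rw [map_smul, h1, smul_smul, inv_mul_cancel₀ h2, one_smul]
  have hmap : U.map T = U' := by
    have h1 : U.map T ≤ U' := by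
      rintro _ ⟨u, hu, rfl⟩
      exact hT1 u hu
    rcases hU'.2.2 _ h1 hst with h2 | h2
    · exfalso
      obtain ⟨u, hu, hu0⟩ := hT0
      apply hu0
      have h3 : T u ∈ U.map T := ⟨u, hu, rfl⟩
      rw [h2] at h3
      exact (Submodule.mem_bot ℂ).1 h3
    · exact h2
  refine ⟨T, hT1, hT0, hinj, hmap, fun σ => ?_⟩
  obtain ⟨h2, h1⟩ := htor σ
  by_cases hns : ∀ c : ℂ, ∃ u ∈ U, DS Z σ *ᵥ u ≠ c • u
  · exact Or.inl (twist_free hinj (phDS_sq h σ) (hU.2.1 _ (DS_mem σ)) hns _ h1 h2)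
  · right
    push Not at hns
    obtain ⟨c, hc⟩ := hns
    have h3 : ∀ u ∈ U, ((5 / 4 + 3 / 4 * c) • T u : Fin G ⊕ Fin G → ℂ) =
        ψ (gs h σ) • ((5 / 4 : ℂ) • T u + (3 / 4 : ℂ) • DS Z σ *ᵥ T u) := by
      intro u hu
      have h4 := h1 u hu
      rw [torE_two, torE_two, ph_apply', ph_apply', hc u hu, map_add, map_smul, map_smul,
        map_smul, smul_smul, ← add_smul] at h4
      exact h4
    refine ⟨c, (4 / 3) * ((ψ (gs h σ))⁻¹ * (5 / 4 + 3 / 4 * c) - 5 / 4), hc, ?_⟩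
    intro v hv
    rw [← hmap] at hv
    obtain ⟨u, hu, rfl⟩ := hv
    have h4 := h3 u hu
    have h5 : (ψ (gs h σ))⁻¹ • ((5 / 4 + 3 / 4 * c) • T u) =
        (5 / 4 : ℂ) • T u + (3 / 4 : ℂ) • DS Z σ *ᵥ T u := by
      rw [h4, smul_smul, inv_mul_cancel₀ h2, one_smul]
    have h6 : DS Z σ *ᵥ T u = (4 / 3 : ℂ) • ((ψ (gs h σ))⁻¹ • ((5 / 4 + 3 / 4 * c) • T u) -
        (5 / 4 : ℂ) • T u) := by
      rw [h5]
      module
    rw [h6]
    module

/-- Twists of submodules with the same multiplicities are trivial. -/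
theorem tw_one (h : PM Z) (hU : IrS (LZ Z) U) (hU' : IrS (LZ Z) U')
    (hpd : ∀ σ : ℂ ≃+* ℂ, pd Z (cjS σ U) = pd Z (cjS σ U'))
    {T : (Fin G ⊕ Fin G → ℂ) →ₗ[ℂ] (Fin G ⊕ Fin G → ℂ)} (hT1 : ∀ u ∈ U, T u ∈ U')
    (hT0 : ∃ u ∈ U, T u ≠ 0) (hfr : finrank ℂ U' = finrank ℂ U)
    (hdich : ∀ σ : ℂ ≃+* ℂ, (∀ u ∈ U, T (DS Z σ *ᵥ u) = DS Z σ *ᵥ T u) ∨
      ∃ c c' : ℂ, (∀ u ∈ U, DS Z σ *ᵥ u = c • u) ∧ ∀ u ∈ U', DS Z σ *ᵥ u = c' • u) :
    Tw (RZ Z) (fun _ => 1) U U' := by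
  have hpos : 0 < finrank ℂ U := by
    rw [Nat.pos_iff_ne_zero, ne_eq, Submodule.finrank_eq_zero]
    exact hU.1
  have hD : ∀ σ : ℂ ≃+* ℂ, ∀ u ∈ U, T (DS Z σ *ᵥ u) = DS Z σ *ᵥ T u := by
    intro σ
    rcases hdich σ with h1 | ⟨c, c', h1, h2⟩
    · exact h1
    · have h3 := scalar_cases h hU h1
      have h4 := scalar_cases h hU' h2
      have h5 := hpd σ.symm
      have h6 : c = c' := by
        rcases h3 with ⟨rfl, h7, h8⟩ | ⟨rfl, h7, h8⟩ <;>
          rcases h4 with ⟨rfl, h9, h10⟩ | ⟨rfl, h9, h10⟩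
        · rfl
        · omega
        · omega
        · rfl
      intro u hu
      rw [h1 u hu, map_smul, h2 _ (hT1 u hu), h6]
  let C : Submodule ℂ (Matrix (Fin G ⊕ Fin G) (Fin G ⊕ Fin G) ℂ) :=
    { carrier := {X | ∀ u ∈ U, X *ᵥ u ∈ U ∧ T (X *ᵥ u) = X *ᵥ T u}
      add_mem' := by
        intro X Y hX hY u hu
        obtain ⟨x1, x2⟩ := hX u hu
        obtain ⟨y1, y2⟩ := hY u hu
        rw [add_mulVec, add_mulVec, map_add, x2, y2]
        exact ⟨U.add_mem x1 y1, rfl⟩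
      zero_mem' := by
        intro u hu
        rw [zero_mulVec, zero_mulVec, map_zero]
        exact ⟨U.zero_mem, rfl⟩
      smul_mem' := by
        intro c X hX u hu
        obtain ⟨x1, x2⟩ := hX u hu
        rw [smul_mulVec, smul_mulVec, map_smul, x2]
        exact ⟨U.smul_mem c x1, rfl⟩ }
  have hC : LZ Z ≤ C := by
    refine LZ_le (fun σ u hu => ⟨hU.2.1 _ (DS_mem σ) u hu, hD σ u hu⟩) (fun A hA B hB u hu => ?_)
    obtain ⟨a1, a2⟩ := hA u hu
    obtain ⟨b1, b2⟩ := hB u hu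
    obtain ⟨c1, c2⟩ := hA _ b1
    obtain ⟨d1, d2⟩ := hB _ a1
    rw [sub_mulVec, sub_mulVec, ← mulVec_mulVec, ← mulVec_mulVec, ← mulVec_mulVec,
      ← mulVec_mulVec, map_sub, c2, d2, a2, b2]
    exact ⟨U.sub_mem c1 d1, rfl⟩
  refine ⟨⊤, inferInstance, T, hT1, hT0, fun g _ u hu => ?_⟩
  rw [one_smul]
  exact (rz_equiv h hU.2.1 T).2 (fun X hX u hu => (hC hX u hu).2) g u hu

/-- Twists of submodules of dimension two with complementary multiplicities are dualities. -/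
theorem tw_du (h : PM Z) (hU : IrS (LZ Z) U) (hU' : IrS (LZ Z) U') (hn : finrank ℂ U = 2)
    (hpd : ∀ σ : ℂ ≃+* ℂ, pd Z (cjS σ U) + pd Z (cjS σ U') = 2)
    {T : (Fin G ⊕ Fin G → ℂ) →ₗ[ℂ] (Fin G ⊕ Fin G → ℂ)} (hT1 : ∀ u ∈ U, T u ∈ U')
    (hinj : ∀ u ∈ U, T u = 0 → u = 0) (hmap : U.map T = U') (hfr : finrank ℂ U' = finrank ℂ U)
    (hdich : ∀ σ : ℂ ≃+* ℂ, (∀ u ∈ U, T (DS Z σ *ᵥ u) = DS Z σ *ᵥ T u) ∨
      ∃ c c' : ℂ, (∀ u ∈ U, DS Z σ *ᵥ u = c • u) ∧ ∀ u ∈ U', DS Z σ *ᵥ u = c' • u) :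
    Du (RZ Z) 1 U U' := by
  obtain ⟨p, hp⟩ := exists_pr U'
  have hn' : finrank ℂ U' = 2 := hfr.trans hn
  let f := finBasisOfFinrankEq ℂ U' hn'
  let b : (Fin G ⊕ Fin G → ℂ) →ₗ[ℂ] (Fin G ⊕ Fin G → ℂ) →ₗ[ℂ] ℂ :=
    (Y4.T.dt f).compl₁₂ (p.comp T) p
  have hb : ∀ u v, b u v = Y4.T.dt f (p (T u)) (p v) := fun u v => rfl
  have hpu : ∀ v (hv : v ∈ U'), p v = ⟨v, hv⟩ := fun v hv => hp ⟨v, hv⟩
  rw [rz_du h hU.2.1 hU'.2.1]
  refine ⟨b, ?_, ?_⟩
  · obtain ⟨u, hu, hu0⟩ := Submodule.exists_mem_ne_zero_of_ne_bot hU.1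
    have h1 : p (T u) ≠ 0 := by
      rw [hpu _ (hT1 u hu)]
      intro h2
      exact hu0 (hinj u hu (congrArg Subtype.val h2))
    have h2 : Y4.T.dt f (p (T u)) ≠ 0 := fun h3 => h1 (Y4.T.dt_inj f (h3.trans (map_zero _).symm))
    obtain ⟨w, hw⟩ : ∃ w, Y4.T.dt f (p (T u)) w ≠ 0 := by
      by_contra hcon
      push Not at hcon
      exact h2 (LinearMap.ext hcon)
    refine ⟨u, hu, w, w.2, ?_⟩
    rw [hb, hp]
    exact hw
  let C : Submodule ℂ (Matrix (Fin G ⊕ Fin G) (Fin G ⊕ Fin G) ℂ) :=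
    { carrier := {X | (∀ u ∈ U, X *ᵥ u ∈ U) ∧ (∀ u ∈ U', X *ᵥ u ∈ U') ∧
        ∀ u ∈ U, ∀ v ∈ U', b (X *ᵥ u) v + b u (X *ᵥ v) = 0}
      add_mem' := by
        rintro X Y ⟨x1, x2, x3⟩ ⟨y1, y2, y3⟩
        refine ⟨fun u hu => ?_, fun u hu => ?_, fun u hu v hv => ?_⟩
        · rw [add_mulVec]
          exact U.add_mem (x1 u hu) (y1 u hu)
        · rw [add_mulVec]
          exact U'.add_mem (x2 u hu) (y2 u hu)
        · rw [add_mulVec, add_mulVec, map_add, map_add, LinearMap.add_apply]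
          linear_combination x3 u hu v hv + y3 u hu v hv
      zero_mem' := by
        refine ⟨fun u hu => ?_, fun u hu => ?_, fun u hu v hv => ?_⟩
        · rw [zero_mulVec]
          exact U.zero_mem
        · rw [zero_mulVec]
          exact U'.zero_mem
        · rw [zero_mulVec, zero_mulVec, map_zero, map_zero, LinearMap.zero_apply, add_zero]
      smul_mem' := by
        rintro c X ⟨x1, x2, x3⟩
        refine ⟨fun u hu => ?_, fun u hu => ?_, fun u hu v hv => ?_⟩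
        · rw [smul_mulVec]
          exact U.smul_mem c (x1 u hu)
        · rw [smul_mulVec]
          exact U'.smul_mem c (x2 u hu)
        · rw [smul_mulVec, smul_mulVec, map_smul, map_smul, LinearMap.smul_apply, smul_eq_mul,
            smul_eq_mul]
          linear_combination c * x3 u hu v hv }
  have hC : LZ Z ≤ C := by
    refine LZ_le (fun σ => ⟨hU.2.1 _ (DS_mem σ), hU'.2.1 _ (DS_mem σ), fun u hu v hv => ?_⟩)
      (fun A hA B hB => ?_)
    · rcases hdich σ with h1 | ⟨c, c', h1, h2⟩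
      · -- the trace vanishes
        let X : Module.End ℂ U' := (mulVecLin (DS Z σ)).restrict (p := U') (q := U')
          (hU'.2.1 _ (DS_mem σ))
        have hX : ∀ w : U', ((X w : U') : Fin G ⊕ Fin G → ℂ) = DS Z σ *ᵥ w := fun w => rfl
        have hpX : ∀ w : U', p (DS Z σ *ᵥ (w : Fin G ⊕ Fin G → ℂ)) = X w := fun w => by
          rw [← hX, hp]
        have key : ∀ (c : ℂ) (_hc : σ c = c), cjS σ.symm U' ⊓ eig Z c ≠ ⊥ →
            ∃ w : U', w ≠ 0 ∧ X w = c • w := by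
          intro c hc hne
          obtain ⟨x, hx, hx0⟩ := Submodule.exists_mem_ne_zero_of_ne_bot hne
          have h3 : (fun i => σ (x i)) ∈ cjS σ (cjS σ.symm U' ⊓ eig Z c) := cj_mem_cjS hx
          rw [cjS_inf] at h3
          have h4 : (fun i => σ (x i)) ∈ U' := by
            have h5 := h3.1
            have h6 : cjS σ (cjS σ.symm U') = U' := by
              ext v
              rw [mem_cjS, mem_cjS]
              simp
            rwa [SetLike.mem_coe, h6] at h5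
          refine ⟨⟨_, h4⟩, fun h0 => hx0 ?_, Subtype.ext ?_⟩
          · have h5 := congrArg Subtype.val h0
            funext i
            have h6 := congrFun h5 i
            simpa using h6
          · rw [hX]
            exact mem_cj_eig hc h3.2
        have hpU : pd Z (cjS σ.symm U') = pd Z (cjS σ.symm U) := by
          rw [← hmap]
          exact pd_of_comm hU.2.1 hinj h1
        have h5 := hpd σ.symm
        have h6 := pd_add_qd h (hU'.cj gal_LZ σ.symm).2.1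
        rw [finrank_cjS, hn'] at h6
        obtain ⟨x, hx0, hx⟩ := key 1 (map_one σ) (fun h0 => by
          unfold pd at hpU h5
          rw [h0, finrank_bot] at hpU h5
          omega)
        obtain ⟨y, hy0, hy⟩ := key (-1) (by rw [map_neg, map_one]) (fun h0 => by
          have h7 : qd Z (cjS σ.symm U') = 0 := by
            unfold qd
            rw [h0, finrank_bot]
          omega)
        have hxy : Y4.T.dt f x y ≠ 0 := by
          intro h0
          have h7 : Y4.T.dt f y x = 0 := by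
            have h8 : Y4.T.dt f y x = -Y4.T.dt f x y := by
              rw [Y4.T.dt_apply, Y4.T.dt_apply]
              ring
            rw [h8, h0, neg_zero]
          obtain ⟨c, hc⟩ := Y4.T.dt_of_ker f hx0 h7
          have h8 : y = c • x := by
            apply Y4.T.dt_inj f
            rw [map_smul, hc]
          have h9 : X y = y := by rw [h8, map_smul, hx, one_smul]
          rw [hy] at h9
          have h10 : (2 : ℂ) • y = 0 := by
            have h11 : (2 : ℂ) • y = y - (-1 : ℂ) • y := by module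
            rw [h11, h9, sub_self]
          exact hy0 ((smul_eq_zero.1 h10).resolve_left two_ne_zero)
        have htr : LinearMap.trace ℂ U' X = 0 := by
          have h7 := Y4.T.dt_tr f X x y
          rw [hx, hy, map_smul, map_smul, LinearMap.smul_apply, smul_eq_mul, smul_eq_mul] at h7
          have h8 : LinearMap.trace ℂ U' X * Y4.T.dt f x y = 0 := by linear_combination -h7
          exact (mul_eq_zero.1 h8).resolve_right hxy
        rw [hb, hb, h1 u hu]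
        have h7 : p (DS Z σ *ᵥ T u) = X (p (T u)) := by
          rw [hpu _ (hT1 u hu)]
          exact hpX ⟨T u, hT1 u hu⟩
        have h8 : p (DS Z σ *ᵥ v) = X (p v) := by
          rw [hpu _ hv]
          exact hpX ⟨v, hv⟩
        rw [h7, h8, Y4.T.dt_tr, htr, zero_mul]
      · have h3 := scalar_cases h hU h1
        have h4 := scalar_cases h hU' h2
        have h5 := hpd σ.symm
        rw [hn] at h3
        rw [hn'] at h4
        have h6 : c + c' = 0 := by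
          rcases h3 with ⟨rfl, h7, h8⟩ | ⟨rfl, h7, h8⟩ <;>
            rcases h4 with ⟨rfl, h9, h10⟩ | ⟨rfl, h9, h10⟩
          · omega
          · norm_num
          · norm_num
          · omega
        rw [h1 u hu, h2 v hv, map_smul, map_smul, LinearMap.smul_apply, smul_eq_mul, smul_eq_mul]
        linear_combination h6 * b u v
    · obtain ⟨a1, a2, a3⟩ := hA
      obtain ⟨b1, b2, b3⟩ := hB
      refine ⟨fun u hu => ?_, fun u hu => ?_, fun u hu v hv => ?_⟩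
      · rw [sub_mulVec, ← mulVec_mulVec, ← mulVec_mulVec]
        exact U.sub_mem (a1 _ (b1 u hu)) (b1 _ (a1 u hu))
      · rw [sub_mulVec, ← mulVec_mulVec, ← mulVec_mulVec]
        exact U'.sub_mem (a2 _ (b2 u hu)) (b2 _ (a2 u hu))
      · rw [sub_mulVec, sub_mulVec, ← mulVec_mulVec, ← mulVec_mulVec, ← mulVec_mulVec,
          ← mulVec_mulVec, map_sub, map_sub, LinearMap.sub_apply]
        have e1 := a3 _ (b1 u hu) v hv
        have e2 := b3 _ (a1 u hu) v hv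
        have e3 := a3 u hu _ (b2 v hv)
        have e4 := b3 u hu _ (a2 v hv)
        linear_combination e1 - e2 + e3 - e4
  exact fun X hX => (hC hX).2.2

/-- The twists are trivial or dualities in dimension two, if the separation property holds. -/
theorem rz_twist' (h : PM Z) (hU : IrS (LZ Z) U) (hU' : IrS (LZ Z) U') (hsep : SepP Z U U')
    (ψ : Gam (GG (LZ Z)) → ℂ) (hT : Tw (RZ Z) ψ U U') :
    Tw (RZ Z) (fun _ => 1) U U' ∨ (finrank ℂ U = 2 ∧ Du (RZ Z) 1 U U') := by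
  obtain ⟨T, hT1, hT0, hinj, hmap, hdich⟩ := tw_split h hU hU' ψ hT
  have hfr : finrank ℂ U' = finrank ℂ U := by rw [← hmap, finrank_map_of_inj hinj]
  rcases hsep hfr (fun σ => by
    rcases hdich σ.symm with h1 | ⟨c, c', h1, h2⟩
    · left
      have h3 := pd_of_comm hU.2.1 hinj h1
      rw [hmap] at h3
      exact h3.symm
    · right
      have h3 := scalar_cases h hU h1
      have h4 := scalar_cases h hU' h2
      change (pd Z (cjS σ U) = 0 ∨ qd Z (cjS σ U) = 0) ∧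
        (pd Z (cjS σ U') = 0 ∨ qd Z (cjS σ U') = 0)
      constructor
      · rcases h3 with ⟨-, -, h5⟩ | ⟨-, h5, -⟩
        · exact Or.inr h5
        · exact Or.inl h5
      · rcases h4 with ⟨-, -, h5⟩ | ⟨-, h5, -⟩
        · exact Or.inr h5
        · exact Or.inl h5) with h1 | ⟨h1, h2⟩
  · exact Or.inl (tw_one h hU hU' h1 hT1 hT0 hfr hdich)
  · exact Or.inr ⟨h1, tw_du h hU hU' h1 h2 hT1 hinj hmap hfr hdich⟩

end

end Pool.Agent.Y4.Q
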