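import Mathlib
import Pool.Agent.Y4.Aut
import Pool.Agent.Y4.P.Cls4
import Pool.Agent.Y4.P.Twi
import Pool.Agent.Y261.P.Spec

/-!
# The classification of the irreducible submodules: definite places
-/

set_option linter.unusedSectionVars false

namespace Pool.Agent.Y4.Q

open Matrix Module Pool.Agent.Y90 Pool.Agent.W437.HC Pool.Agent.W437.HD
  Pool.Agent.TH504.CB Pool.Agent.W522.U
open Pool.Agent.W548.Odd hiding cv
open Pool.Agent.Y4.P (MaxM EigM RealOddM TwoTwoM HasPr PD ClassZ JTransfer JTransfer2 JClass JSpec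
  JSympG2 JCop2 JTwoTwo2)

noncomputable section

/-- The automorphisms of `ℂ` act transitively on the roots of an irreducible polynomial. -/
theorem exists_aut_root {p : Polynomial ℚ} (hp : Irreducible p) {z w : ℂ} (hz : z ∈ p.aroots ℂ)
    (hw : w ∈ p.aroots ℂ) : ∃ σ : ℂ ≃+* ℂ, σ z = w := by
  have hF : Fact (Irreducible p) := ⟨hp⟩
  have hfd : FiniteDimensional ℚ (AdjoinRoot p) :=
    Module.Finite.of_basis (AdjoinRoot.powerBasis hp.ne_zero).basis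
  have hnf : NumberField (AdjoinRoot p) := { to_charZero := inferInstance, to_finiteDimensional := hfd }
  have hz' : p.eval₂ (algebraMap ℚ ℂ) z = 0 := by
    rw [Polynomial.mem_aroots, Polynomial.aeval_def] at hz
    exact hz.2
  have hw' : p.eval₂ (algebraMap ℚ ℂ) w = 0 := by
    rw [Polynomial.mem_aroots, Polynomial.aeval_def] at hw
    exact hw.2
  obtain ⟨σ, hσ⟩ := exists_aut_emb (AdjoinRoot.lift (algebraMap ℚ ℂ) z hz')
    (AdjoinRoot.lift (algebraMap ℚ ℂ) w hw')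
  refine ⟨σ, ?_⟩
  have h1 := congrArg (fun f : AdjoinRoot p →+* ℂ => f (AdjoinRoot.root p)) hσ
  simp only [RingHom.comp_apply, AdjoinRoot.lift_root] at h1
  exact h1

variable {g : ℕ} {Z : Matrix (Fin g) (Fin g) ℂ} {U : Submodule ℂ (Fin g ⊕ Fin g → ℂ)}

/-- No conjugate of the complex structure is a scalar. -/
def NS (Z : Matrix (Fin g) (Fin g) ℂ) (U : Submodule ℂ (Fin g ⊕ Fin g → ℂ)) : Prop :=
  ∀ σ : ℂ ≃+* ℂ, pd Z (cjS σ U) ≠ 0 ∧ qd Z (cjS σ U) ≠ 0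

/-- The multiplicities are those of an endomorphism. -/
def ME (Z : Matrix (Fin g) (Fin g) ℂ) (U : Submodule ℂ (Fin g ⊕ Fin g → ℂ)) : Prop :=
  ∃ φ, MaxM Z φ ∧ CMM φ ∧ ∃ z ∈ (minpoly ℚ φ).aroots ℂ, ∀ σ : ℂ ≃+* ℂ,
    pd Z (cjS σ U) = pd Z (EigM φ (σ z)) ∧ qd Z (cjS σ U) = qd Z (EigM φ (σ z))

/-- The conclusions of the classification. -/
def ClassQ {g : ℕ} (Z : Matrix (Fin g) (Fin g) ℂ) : Prop :=
  ∀ U, IrS (LZ Z) U →
    (2 ≤ finrank ℂ U → (∃ σ : ℂ ≃+* ℂ, Rk1 Z (cjS σ U)) ∧ (NS Z U ∨ ME Z U)) ∧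
      ((SDu Z U ∧ 2 ≤ finrank ℂ U) ∨ PD (LZ Z) U)

theorem cjS_refl (U : Submodule ℂ (Fin g ⊕ Fin g → ℂ)) : cjS (RingEquiv.refl ℂ) U = U := by
  ext v
  rfl

/-- The eigenspaces of the complex structure on a submodule one of which vanishes. -/
theorem act_of_pd (h : PM Z) (hU : Stab (LZ Z) U) :
    (pd Z U = 0 → ∀ u ∈ U, DZ Z *ᵥ u = (-1 : ℂ) • u) ∧
      (qd Z U = 0 → ∀ u ∈ U, DZ Z *ᵥ u = (1 : ℂ) • u) := by
  have h1 := (split_eig h hU).2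
  constructor
  · intro h0 u hu
    unfold pd at h0
    rw [Submodule.finrank_eq_zero] at h0
    rw [h0, bot_sup_eq] at h1
    have h2 : u ∈ U ⊓ eig Z (-1) := by
      rw [h1]
      exact hu
    exact mem_eig.1 h2.2
  · intro h0 u hu
    unfold qd at h0
    rw [Submodule.finrank_eq_zero] at h0
    rw [h0, sup_bot_eq] at h1
    have h2 : u ∈ U ⊓ eig Z 1 := by
      rw [h1]
      exact hu
    exact mem_eig.1 h2.2

theorem ns_of_nonscalar (h : PM Z) (hU : IrS (LZ Z) U)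
    (hd : ∀ (σ : ℂ ≃+* ℂ) (c : ℂ), ∃ u ∈ U, DS Z σ *ᵥ u ≠ c • u) : NS Z U := by
  have key : ∀ (σ : ℂ ≃+* ℂ) (c : ℂ), ¬∀ u ∈ cjS σ U, DZ Z *ᵥ u = c • u := by
    intro σ c hc
    obtain ⟨u, hu, hne⟩ := hd σ.symm (σ.symm c)
    apply hne
    have h1 := hc _ (cj_mem_cjS (σ := σ) hu)
    have h2 : (fun i => σ.symm ((DZ Z *ᵥ fun i => σ (u i)) i)) =
        fun i => σ.symm ((c • fun i => σ (u i)) i) := by rw [h1]
    rw [map_mulVec_aut σ.symm] at h2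
    have h3 : (fun i => σ.symm (σ (u i))) = u := by
      funext i
      simp
    rw [h3] at h2
    have h4 : (DZ Z).map σ.symm = DS Z σ.symm := rfl
    rw [h4] at h2
    rw [h2]
    funext i
    simp
  intro σ
  have hF := hU.cj gal_LZ σ
  have h1 := act_of_pd h hF.2.1
  exact ⟨fun h0 => key σ _ (h1.1 h0), fun h0 => key σ _ (h1.2 h0)⟩

theorem classQ_of (h : PM Z) (hc : ClassZ Z) : ClassQ Z := by
  intro U hU
  obtain ⟨c1, c2⟩ := hc U hU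
  refine ⟨fun hn => ⟨⟨RingEquiv.refl ℂ, ?_⟩, Or.inl (ns_of_nonscalar h hU (c1 hn).2)⟩, c2⟩
  rw [cjS_refl]
  exact (c1 hn).1

/-- Rank one elements for conjugates of isomorphic submodules. -/
theorem rk1_cj_map {T : (Fin g ⊕ Fin g → ℂ) →ₗ[ℂ] (Fin g ⊕ Fin g → ℂ)} {σ : ℂ ≃+* ℂ}
    (hT : ∀ X ∈ LZ Z, ∀ v, T (X *ᵥ v) = X *ᵥ T v) (hi : ∀ u ∈ U, T u = 0 → u = 0)
    (hU : Stab (LZ Z) U) (hd : Rk1 Z (cjS σ (U.map T))) : Rk1 Z (cjS σ U) := by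
  obtain ⟨D, hD, N, hN, h1, h2, h3⟩ := hd
  refine ⟨D, hD, N, hN, h1, h2, ?_⟩
  set N' := N.map σ.symm with hN'
  have hN1 : N' ∈ LZ Z := gal_LZ σ.symm N hN
  have key : ∀ W : Submodule ℂ (Fin g ⊕ Fin g → ℂ),
      finrank ℂ ((cjS σ W).map (mulVecLin N)) = finrank ℂ (W.map (mulVecLin N')) := by
    intro W
    rw [← finrank_cjS σ (W.map (mulVecLin N')), cjS_map]
    have h4 : N'.map σ = N := by
      ext i j
      simp [hN']
    rw [h4]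
  rw [key] at h3 ⊢
  have h4 : (U.map T).map (mulVecLin N') = (U.map (mulVecLin N')).map T := by
    rw [← Submodule.map_comp, ← Submodule.map_comp]
    congr 1
    refine LinearMap.ext fun v => ?_
    simp only [LinearMap.comp_apply, mulVecLin_apply]
    exact (hT N' hN1 v).symm
  rw [h4, finrank_map_of_inj] at h3
  · exact h3
  · rintro _ ⟨u, hu, rfl⟩ h0
    exact hi _ (hU N' hN1 u hu) h0

/-- Multiplicities of conjugates of isomorphic submodules. -/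
theorem pd_cj_map {T : (Fin g ⊕ Fin g → ℂ) →ₗ[ℂ] (Fin g ⊕ Fin g → ℂ)}
    (hT : ∀ X ∈ LZ Z, ∀ v, T (X *ᵥ v) = X *ᵥ T v) (hi : ∀ u ∈ U, T u = 0 → u = 0)
    (hU : Stab (LZ Z) U) (σ : ℂ ≃+* ℂ) : pd Z (cjS σ (U.map T)) = pd Z (cjS σ U) :=
  pd_of_comm (σ := σ.symm) hU hi fun u _ => hT _ (DS_mem _) u

theorem stab_map {T : (Fin g ⊕ Fin g → ℂ) →ₗ[ℂ] (Fin g ⊕ Fin g → ℂ)}
    (hT : ∀ X ∈ LZ Z, ∀ v, T (X *ᵥ v) = X *ᵥ T v) (hU : Stab (LZ Z) U) :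
    Stab (LZ Z) (U.map T) := by
  rintro X hX _ ⟨u, hu, rfl⟩
  exact ⟨X *ᵥ u, hU X hX u hu, hT X hX u⟩

theorem stab_cj (hU : Stab (LZ Z) U) (σ : ℂ ≃+* ℂ) : Stab (LZ Z) (cjS σ U) := by
  intro X hX v hv
  rw [mem_cjS] at hv ⊢
  rw [map_mulVec_aut σ.symm]
  exact hU _ (gal_LZ σ.symm X hX) _ hv

theorem qd_cj_map (h : PM Z) {T : (Fin g ⊕ Fin g → ℂ) →ₗ[ℂ] (Fin g ⊕ Fin g → ℂ)}
    (hT : ∀ X ∈ LZ Z, ∀ v, T (X *ᵥ v) = X *ᵥ T v) (hi : ∀ u ∈ U, T u = 0 → u = 0)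
    (hU : Stab (LZ Z) U) (σ : ℂ ≃+* ℂ) : qd Z (cjS σ (U.map T)) = qd Z (cjS σ U) := by
  have h1 := pd_add_qd h (stab_cj (stab_map hT hU) σ)
  have h2 := pd_add_qd h (stab_cj hU σ)
  rw [finrank_cjS, finrank_map_of_inj hi] at h1
  rw [finrank_cjS] at h2
  have h3 := pd_cj_map hT hi hU σ
  omega

/-- The classification: coprime multiplicities at some place. -/
theorem class_cop4 (hSp : JSpec) (hCo : JCop2) (h : PM Z) (hs : IsSimpleAV Z) (hg : 0 < g)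
    (hc : CopM4 Z) : ClassQ Z := by
  obtain ⟨φ, hφ, hcm, w, hw, hco⟩ := hc
  obtain ⟨s1, s2, s3⟩ := hSp g Z h hs hg φ hφ
  intro U hU
  obtain ⟨z, hz, T, hT, hi, hm⟩ := s2 U hU
  have hpd : ∀ σ : ℂ ≃+* ℂ, pd Z (cjS σ U) = pd Z (EigM φ (σ z)) := by
    intro σ
    rw [← pd_cj_map hT hi hU.2.1, hm, Pool.Agent.Y4.P.cjS_eigM]
  have hqd : ∀ σ : ℂ ≃+* ℂ, qd Z (cjS σ U) = qd Z (EigM φ (σ z)) := by
    intro σ
    rw [← qd_cj_map h hT hi hU.2.1, hm, Pool.Agent.Y4.P.cjS_eigM]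
  refine ⟨fun hn => ⟨?_, Or.inr ⟨φ, hφ, hcm, z, hz, fun σ => ⟨hpd σ, hqd σ⟩⟩⟩,
    Or.inr (Pool.Agent.Y4.P.pd_of_map hT hi (by rw [hm]; exact s3 hcm z hz))⟩
  obtain ⟨σ, hσ⟩ := exists_aut_root (Pool.Agent.Y261.P.minpoly_irr h hs hg hφ.1) hz hw
  refine ⟨σ, rk1_cj_map hT hi hU.2.1 ?_⟩
  rw [hm, Pool.Agent.Y4.P.cjS_eigM, hσ]
  refine hCo g Z h _ (s1 w hw).1 hco ?_
  have h1 := finrank_cjS σ (EigM φ z)
  rw [Pool.Agent.Y4.P.cjS_eigM, hσ] at h1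
  rw [h1, ← hm, finrank_map_of_inj hi]
  exact hn

/-- The classification: the centre is `ℚ`. -/
theorem class_gen (hSp : JSpec) (hGe : JCen) (h : PM Z) (hs : IsSimpleAV Z) (hg : 0 < g)
    (hc : GenM Z) : ClassZ Z := by
  obtain ⟨hsc, φ, hφ, hre, k, hgk, hc1, hc2⟩ := hc
  obtain ⟨s1, s2, -⟩ := hSp g Z h hs hg φ hφ
  intro U hU
  obtain ⟨z, hz, T, hT, hi, hm⟩ := s2 U hU
  have hfr : finrank ℂ (EigM φ z) = finrank ℂ U := by rw [← hm, finrank_map_of_inj hi]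
  have hW := (s1 z hz).1
  have hdeg : 0 < (minpoly ℚ φ).natDegree := by
    rcases Nat.eq_zero_or_pos (minpoly ℚ φ).natDegree with h0 | h0
    · rw [h0, mul_zero] at hgk
      omega
    · exact h0
  have h2k : finrank ℂ (EigM φ z) = 2 * k := by
    have h1 := (s1 z hz).2
    have h3 : 2 * g = 2 * k * (minpoly ℚ φ).natDegree := by
      rw [mul_assoc]
      exact congrArg (2 * ·) hgk
    rw [h3] at h1
    exact Nat.eq_of_mul_eq_mul_right hdeg h1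
  have hom := Pool.Agent.Y4.P.om_real h (hre z hz) hW
  have hsd : ∀ w ∈ (minpoly ℚ φ).aroots ℂ, SDu Z (EigM φ w) := fun w hw =>
    ⟨Pool.Agent.Y90.om g, Pool.Agent.Y4.P.om_real h (hre w hw) (s1 w hw).1,
      fun X hX u _ v _ => h.om_sp hX u v⟩
  have h2 : 2 ≤ finrank ℂ U := by
    have h4 : 0 < k := by
      rcases Nat.eq_zero_or_pos k with h0 | h0
      · rw [h0, zero_mul] at hgk
        omega
      · exact h0
    omega
  refine ⟨fun _ => ⟨Pool.Agent.Y4.P.rk1_of_map hT hi hU.2.1 ?_,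
    Pool.Agent.Y4.P.nonscalar_of_map hT ?_⟩,
    Or.inl ⟨Pool.Agent.Y4.P.sdu_of_map' hT (by rw [hm]; exact hsd z hz), h2⟩⟩
  · rw [hm]
    exact hGe g Z h hsc _ hW hom (by rw [h2k]; exact hc1) (by rw [h2k]; exact hc2)
  · rw [hm]
    refine Pool.Agent.Y4.P.nonscalar_sdu h hW fun σ => ?_
    rw [Pool.Agent.Y4.P.cjS_eigM]
    exact hsd _ (Pool.Agent.Y4.P.root_aut hz σ)

end

end Pool.Agent.Y4.Q
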