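import Mathlib
import Pool.Agent.Y4.P.Cls5
import Pool.Agent.Y4.P.Real

/-!
# The centre of the endomorphism algebra is an imaginary quadratic field
-/

set_option linter.unusedSectionVars false

namespace Pool.Agent.Y4.Q

open Matrix Module Pool.Agent.Y90 Pool.Agent.W437.HC Pool.Agent.W437.HD
  Pool.Agent.TH504.CB Pool.Agent.W522.U
open Pool.Agent.W548.Odd hiding cv
open Pool.Agent.Y4.P (MaxM EigM exists_herm mem_eigM JSpec JClass JSympG2 JCop2 JTwoTwo2)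

noncomputable section

variable {g : ℕ} {Z : Matrix (Fin g) (Fin g) ℂ}

theorem qm_smul' (q : ℚ) (M : Matrix (Fin g ⊕ Fin g) (Fin g ⊕ Fin g) ℚ) :
    qm (q • M) = (q : ℂ) • qm M := by
  ext i j
  simp [qm]

theorem qm_one' : qm (1 : Matrix (Fin g ⊕ Fin g) (Fin g ⊕ Fin g) ℚ) = 1 :=
  Matrix.map_one _ (by simp) (by simp)

/-- The Rosati involution. -/
def ros (c : Matrix (Fin g ⊕ Fin g) (Fin g ⊕ Fin g) ℚ) :
    Matrix (Fin g ⊕ Fin g) (Fin g ⊕ Fin g) ℚ := -(Om g ℚ * cᵀ * Om g ℚ)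

theorem ros_mul (c d : Matrix (Fin g ⊕ Fin g) (Fin g ⊕ Fin g) ℚ) :
    ros (c * d) = ros d * ros c := by
  have hOO : Om g ℚ * Om g ℚ = -1 := Om_sq ℚ
  unfold ros
  rw [transpose_mul]
  calc -(Om g ℚ * (dᵀ * cᵀ) * Om g ℚ) = Om g ℚ * dᵀ * (-1) * cᵀ * Om g ℚ := by noncomm_ring
    _ = Om g ℚ * dᵀ * (Om g ℚ * Om g ℚ) * cᵀ * Om g ℚ := by rw [hOO]
    _ = -(Om g ℚ * dᵀ * Om g ℚ) * -(Om g ℚ * cᵀ * Om g ℚ) := by noncomm_ring

theorem ros_ros (c : Matrix (Fin g ⊕ Fin g) (Fin g ⊕ Fin g) ℚ) : ros (ros c) = c := by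
  have hOO : Om g ℚ * Om g ℚ = -1 := Om_sq ℚ
  have hOt : (Om g ℚ)ᵀ = -Om g ℚ := Om_transpose ℚ
  unfold ros
  rw [transpose_neg, transpose_mul, transpose_mul, transpose_transpose, hOt]
  calc -(Om g ℚ * -(-Om g ℚ * (c * -Om g ℚ)) * Om g ℚ) =
        (Om g ℚ * Om g ℚ) * c * (Om g ℚ * Om g ℚ) := by noncomm_ring
    _ = c := by
        rw [hOO]
        noncomm_ring

theorem ros_smul_one (r : ℚ) : ros (r • (1 : Matrix (Fin g ⊕ Fin g) (Fin g ⊕ Fin g) ℚ)) =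
    r • (1 : Matrix (Fin g ⊕ Fin g) (Fin g ⊕ Fin g) ℚ) := by
  have hOO : Om g ℚ * Om g ℚ = -1 := Om_sq ℚ
  unfold ros
  rw [transpose_smul, transpose_one, Matrix.mul_smul, Matrix.mul_one, Matrix.smul_mul, hOO,
    smul_neg, neg_neg]

theorem ros_neg (c : Matrix (Fin g ⊕ Fin g) (Fin g ⊕ Fin g) ℚ) : ros (-c) = -ros c := by
  unfold ros
  rw [transpose_neg]
  noncomm_ring

theorem ros_add (c d : Matrix (Fin g ⊕ Fin g) (Fin g ⊕ Fin g) ℚ) :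
    ros (c + d) = ros c + ros d := by
  unfold ros
  rw [transpose_add]
  noncomm_ring

theorem qm_ros (c : Matrix (Fin g ⊕ Fin g) (Fin g ⊕ Fin g) ℚ) :
    qm (ros c) = -(Om g ℂ * (qm c)ᵀ * Om g ℂ) := by
  have hOm : qm (Om g ℚ) = Om g ℂ := Om_map ℂ
  unfold ros
  rw [qm_neg, qm_mul, qm_mul, hOm]
  rfl

/-- The Rosati involution preserves the endomorphisms. -/
theorem ros_comm (h : PM Z) {φ : Matrix (Fin g ⊕ Fin g) (Fin g ⊕ Fin g) ℚ}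
    (hφ : qm φ * DZ Z = DZ Z * qm φ) : qm (ros φ) * DZ Z = DZ Z * qm (ros φ) := by
  have hOO : Om g ℂ * Om g ℂ = -1 := Om_sq ℂ
  have hsp : (DZ Z)ᵀ * Om g ℂ = -(Om g ℂ * DZ Z) := eq_neg_of_add_eq_zero_left (h.sp DZ_mem)
  have hsp' : DZ Z * Om g ℂ = -(Om g ℂ * (DZ Z)ᵀ) := by
    calc DZ Z * Om g ℂ = -(Om g ℂ * Om g ℂ) * (DZ Z * Om g ℂ) := by
          rw [hOO, neg_neg, Matrix.one_mul]
      _ = -(Om g ℂ * (Om g ℂ * DZ Z) * Om g ℂ) := by noncomm_ring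
      _ = Om g ℂ * ((DZ Z)ᵀ * Om g ℂ) * Om g ℂ := by
          rw [hsp]
          noncomm_ring
      _ = Om g ℂ * (DZ Z)ᵀ * (Om g ℂ * Om g ℂ) := by noncomm_ring
      _ = -(Om g ℂ * (DZ Z)ᵀ) := by
          rw [hOO]
          noncomm_ring
  have hφt : (DZ Z)ᵀ * (qm φ)ᵀ = (qm φ)ᵀ * (DZ Z)ᵀ := by
    rw [← transpose_mul, hφ, transpose_mul]
  rw [qm_ros, Matrix.neg_mul, Matrix.mul_neg]
  congr 1
  calc Om g ℂ * (qm φ)ᵀ * Om g ℂ * DZ Z = Om g ℂ * (qm φ)ᵀ * (Om g ℂ * DZ Z) := by noncomm_ring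
    _ = -(Om g ℂ * ((qm φ)ᵀ * (DZ Z)ᵀ) * Om g ℂ) := by
        rw [show Om g ℂ * DZ Z = -((DZ Z)ᵀ * Om g ℂ) by rw [hsp, neg_neg]]
        noncomm_ring
    _ = -(Om g ℂ * (DZ Z)ᵀ) * (qm φ)ᵀ * Om g ℂ := by
        rw [← hφt]
        noncomm_ring
    _ = DZ Z * (Om g ℂ * (qm φ)ᵀ * Om g ℂ) := by
        rw [← hsp']
        noncomm_ring

variable {D : ℚ} {c : Matrix (Fin g ⊕ Fin g) (Fin g ⊕ Fin g) ℚ}

/-- The Rosati involution is the complex conjugation on the centre. -/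
theorem ImQ.ros_eq (h : PM Z) (hg : 0 < g) (hc : ImQ Z D c) : ros c = -c := by
  obtain ⟨hD, h1, h2, h3, h4⟩ := hc
  have hne : Nonempty (Fin g) := ⟨⟨0, hg⟩⟩
  -- `c` is not a scalar
  have hns : ∀ q : ℚ, c ≠ q • (1 : Matrix (Fin g ⊕ Fin g) (Fin g ⊕ Fin g) ℚ) := by
    intro q hq
    rw [hq, smul_mul_smul_comm, Matrix.one_mul, ← neg_smul] at h2
    have h5 := congrFun (congrFun h2 (Sum.inl ⟨0, hg⟩)) (Sum.inl ⟨0, hg⟩)
    rw [Matrix.smul_apply, Matrix.smul_apply, Matrix.one_apply_eq, smul_eq_mul, smul_eq_mul,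
      mul_one, mul_one] at h5
    nlinarith [mul_self_nonneg q]
  obtain ⟨ψ, hψ⟩ : ∃ ψ, ψ = c + ros c := ⟨_, rfl⟩
  have hψr : ros ψ = ψ := by
    rw [hψ, ros_add, ros_ros, add_comm]
  have hqa : ∀ a b : Matrix (Fin g ⊕ Fin g) (Fin g ⊕ Fin g) ℚ, qm (a + b) = qm a + qm b := by
    intro a b
    ext i j
    simp [qm]
  have hψc : qm ψ * DZ Z = DZ Z * qm ψ := by
    rw [hψ, hqa, Matrix.add_mul, Matrix.mul_add, h1, ros_comm h h1]
  have hψz : ∀ χ : Matrix (Fin g ⊕ Fin g) (Fin g ⊕ Fin g) ℚ, qm χ * DZ Z = DZ Z * qm χ →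
      ψ * χ = χ * ψ := by
    intro χ hχ
    have h5 : ros χ * c = c * ros χ := h3 _ (ros_comm h hχ)
    have h6 := congrArg ros h5
    rw [ros_mul, ros_mul, ros_ros] at h6
    rw [hψ, Matrix.add_mul, Matrix.mul_add, h3 χ hχ, h6]
  obtain ⟨r, s, hrs⟩ := h4 ψ hψc hψz
  -- an eigenvector of `c`
  obtain ⟨k, hk⟩ : ∃ k : ℂ, k * k = -(D : ℂ) := IsAlgClosed.exists_eq_mul_self _ |>.imp
    fun _ hx => hx.symm
  have hqs : ∀ (q : ℚ) (M : Matrix (Fin g ⊕ Fin g) (Fin g ⊕ Fin g) ℚ),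
      qm (q • M) = (q : ℂ) • qm M := by
    intro q M
    ext i j
    simp [qm]
  have hq1 : qm (1 : Matrix (Fin g ⊕ Fin g) (Fin g ⊕ Fin g) ℚ) = 1 :=
    Matrix.map_one _ (by simp) (by simp)
  have hcc : qm c * qm c = -((D : ℂ) • (1 : Matrix (Fin g ⊕ Fin g) (Fin g ⊕ Fin g) ℂ)) := by
    rw [← qm_mul, h2, qm_neg, hqs, hq1]
  obtain ⟨x, hx⟩ : ∃ x : Fin g ⊕ Fin g → ℂ, qm c *ᵥ x + k • x ≠ 0 := by
    by_contra hno
    push Not at hno
    have h5 : qm c = (-k) • (1 : Matrix (Fin g ⊕ Fin g) (Fin g ⊕ Fin g) ℂ) := by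
      refine Y261.P.mat_ext fun v => ?_
      rw [smul_mulVec, one_mulVec, neg_smul]
      exact eq_neg_of_add_eq_zero_left (hno v)
    have h6 := congrFun (congrFun h5 (Sum.inl ⟨0, hg⟩)) (Sum.inl ⟨0, hg⟩)
    rw [Matrix.smul_apply, Matrix.one_apply_eq, smul_eq_mul, mul_one] at h6
    have h7 : k * k = (((c (Sum.inl ⟨0, hg⟩) (Sum.inl ⟨0, hg⟩)) ^ 2 : ℚ) : ℂ) := by
      have h8 : qm c (Sum.inl ⟨0, hg⟩) (Sum.inl ⟨0, hg⟩) =
        ((c (Sum.inl ⟨0, hg⟩) (Sum.inl ⟨0, hg⟩) : ℚ) : ℂ) := rfl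
      rw [h8] at h6
      push_cast
      rw [h6]
      ring
    rw [hk] at h7
    have h9 : -D = (c (Sum.inl ⟨0, hg⟩) (Sum.inl ⟨0, hg⟩)) ^ 2 := by exact_mod_cast h7
    nlinarith [sq_nonneg (c (Sum.inl ⟨0, hg⟩) (Sum.inl ⟨0, hg⟩))]
  obtain ⟨v, hv⟩ : ∃ v, v = qm c *ᵥ x + k • x := ⟨_, rfl⟩
  have hv0 : v ≠ 0 := by rw [hv]; exact hx
  have hcv : qm c *ᵥ v = k • v := by
    rw [hv, mulVec_add, mulVec_mulVec, hcc, mulVec_smul, smul_add, smul_smul, hk, neg_mulVec,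
      smul_mulVec, one_mulVec, neg_smul, add_comm]
  obtain ⟨S, hS, hp⟩ := exists_herm h
  have hψv : qm ψ *ᵥ v = ((r : ℂ) + s * k) • v := by
    rw [hrs, hqa, hqs, hqs, hq1, add_mulVec, smul_mulVec, one_mulVec, smul_mulVec, hcv, smul_smul,
      add_smul]
  have hψt : (qm ψ)ᵀ * Om g ℂ = Om g ℂ * qm ψ := by
    have h5 : qm (ros ψ) = qm ψ := by rw [hψr]
    rw [qm_ros] at h5
    have hOO : Om g ℂ * Om g ℂ = -1 := Om_sq ℂ
    calc (qm ψ)ᵀ * Om g ℂ = -(Om g ℂ * Om g ℂ) * ((qm ψ)ᵀ * Om g ℂ) := by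
          rw [hOO, neg_neg, Matrix.one_mul]
      _ = Om g ℂ * -(Om g ℂ * (qm ψ)ᵀ * Om g ℂ) := by noncomm_ring
      _ = Om g ℂ * qm ψ := by rw [h5]
  have hstar : (qm ψ)ᴴ = (qm ψ)ᵀ := by
    ext i j
    simp [conjTranspose_apply, qm]
  have hreal : ((r : ℂ) + s * k) = starRingEnd ℂ ((r : ℂ) + s * k) := by
    have h5 : star (qm ψ *ᵥ v) ⬝ᵥ (S *ᵥ v) = star v ⬝ᵥ (S *ᵥ (qm ψ *ᵥ v)) := by
      rw [star_mulVec, ← dotProduct_mulVec, mulVec_mulVec, mulVec_mulVec, hstar, hS,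
        ← Matrix.mul_assoc, hψt, Matrix.mul_assoc, Matrix.mul_assoc, Matrix.mul_smul,
        Matrix.smul_mul, hψc]
    rw [hψv, star_smul, smul_dotProduct, mulVec_smul, dotProduct_smul, smul_eq_mul,
      smul_eq_mul] at h5
    have h6 : star v ⬝ᵥ (S *ᵥ v) ≠ 0 := fun h0 => hv0 (hp v h0)
    exact (mul_right_cancel₀ h6 h5).symm
  have hkim : k.im ≠ 0 := by
    intro h0
    have h5 : k = (k.re : ℂ) := Complex.ext (by simp) (by simp [h0])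
    rw [h5] at hk
    have h6 : k.re * k.re = -(D : ℝ) := by exact_mod_cast hk
    have h7 : (0 : ℝ) < D := by exact_mod_cast hD
    nlinarith [mul_self_nonneg k.re]
  have hs0 : s = 0 := by
    have h5 := congrArg Complex.im hreal
    simp at h5
    have h6 : (s : ℝ) * k.im = 0 := by linarith
    rcases mul_eq_zero.1 h6 with h7 | h7
    · exact_mod_cast h7
    · exact absurd h7 hkim
  rw [hs0, zero_smul, add_zero] at hrs
  -- `ros c = r - c`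
  have h5 : ros c = r • (1 : Matrix (Fin g ⊕ Fin g) (Fin g ⊕ Fin g) ℚ) - c := by
    rw [← hrs, hψ]
    abel
  have h6 : ros c * ros c = -(D • (1 : Matrix (Fin g ⊕ Fin g) (Fin g ⊕ Fin g) ℚ)) := by
    rw [← ros_mul, h2, ros_neg, ros_smul_one]
  rw [h5] at h6
  have h7 : (r * r) • (1 : Matrix (Fin g ⊕ Fin g) (Fin g ⊕ Fin g) ℚ) = (2 * r) • c := by
    have h8 : (r • (1 : Matrix (Fin g ⊕ Fin g) (Fin g ⊕ Fin g) ℚ) - c) *
        (r • (1 : Matrix (Fin g ⊕ Fin g) (Fin g ⊕ Fin g) ℚ) - c) =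
        (r * r) • (1 : Matrix (Fin g ⊕ Fin g) (Fin g ⊕ Fin g) ℚ) - (2 * r) • c + c * c := by
      rw [sub_mul, mul_sub, mul_sub, smul_mul_smul_comm, Matrix.one_mul, Matrix.smul_mul,
        Matrix.one_mul, Matrix.mul_smul, Matrix.mul_one, two_mul, add_smul]
      abel
    rw [h8, h2] at h6
    have h9 := add_eq_right.1 h6
    exact sub_eq_zero.1 h9
  have hr0 : r = 0 := by
    by_contra hr
    apply hns (r / 2)
    have h8 : c = ((2 * r)⁻¹ * (2 * r)) • c := by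
      rw [inv_mul_cancel₀ (by simpa using hr), one_smul]
    rw [h8, ← smul_smul, ← h7, smul_smul]
    congr 1
    field_simp
  rw [h5, hr0, zero_smul, zero_sub]

/-- The symplectic form and the centre. -/
theorem ImQ.om_skew (h : PM Z) (hg : 0 < g) (hc : ImQ Z D c) (u v : Fin g ⊕ Fin g → ℂ) :
    om g (qm c *ᵥ u) v = -om g u (qm c *ᵥ v) := by
  have hOO : Om g ℂ * Om g ℂ = -1 := Om_sq ℂ
  have h1 : qm (ros c) = -qm c := by rw [hc.ros_eq h hg, qm_neg]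
  rw [qm_ros, neg_inj] at h1
  have h2 : (qm c)ᵀ * Om g ℂ = -(Om g ℂ * qm c) := by
    calc (qm c)ᵀ * Om g ℂ = -(Om g ℂ * Om g ℂ) * ((qm c)ᵀ * Om g ℂ) := by
          rw [hOO, neg_neg, Matrix.one_mul]
      _ = -(Om g ℂ * (Om g ℂ * (qm c)ᵀ * Om g ℂ)) := by noncomm_ring
      _ = -(Om g ℂ * qm c) := by rw [h1]
  have h3 : (qm c *ᵥ u) ⬝ᵥ (Om g ℂ *ᵥ v) = u ⬝ᵥ (((qm c)ᵀ * Om g ℂ) *ᵥ v) := by
    rw [← mulVec_mulVec, dotProduct_mulVec u, vecMul_transpose]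
  rw [om_apply, om_apply, h3, h2, neg_mulVec, dotProduct_neg, mulVec_mulVec]

/-- Irreducible submodules are not self-dual if the centre is an imaginary quadratic field. -/
theorem ImQ.not_sdu (h : PM Z) (hg : 0 < g) (hc : ImQ Z D c)
    {U : Submodule ℂ (Fin g ⊕ Fin g → ℂ)} (hW : Stab (LZ Z) U) {k : ℂ}
    (hk : ∀ u ∈ U, qm c *ᵥ u = k • u) : ¬SDu Z U := by
  rintro ⟨b, ⟨u0, hu0, v0, hv0, hb0⟩, hb⟩
  obtain ⟨p, p1, p2, p3⟩ := h.cred _ hW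
  have hOO : Om g ℂ * Om g ℂ = -1 := Om_sq ℂ
  let M : Matrix (Fin g ⊕ Fin g) (Fin g ⊕ Fin g) ℂ :=
    Matrix.of fun i j => b (p (Pi.single i 1)) (p (Pi.single j 1))
  have hM : ∀ u v, u ⬝ᵥ (M *ᵥ v) = b (p u) (p v) := by
    intro u v
    have h1 : ∀ w : Fin g ⊕ Fin g → ℂ, p w = ∑ i, w i • p (Pi.single i 1) := by
      intro w
      conv_lhs => rw [← (Pi.basisFun ℂ (Fin g ⊕ Fin g)).sum_repr w]
      rw [map_sum]
      refine Finset.sum_congr rfl fun i _ => ?_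
      rw [map_smul, Pi.basisFun_apply, Pi.basisFun_repr]
    rw [h1 u, h1 v]
    simp only [map_sum, LinearMap.sum_apply, map_smul, LinearMap.smul_apply, smul_eq_mul,
      dotProduct, mulVec, M, Matrix.of_apply, Finset.mul_sum]
    rw [Finset.sum_comm]
    refine Finset.sum_congr rfl fun i _ => Finset.sum_congr rfl fun j _ => ?_
    ring
  have hinv : ∀ X ∈ LZ Z, Xᵀ * M + M * X = 0 := by
    intro X hX
    have h1 : ∀ u v, u ⬝ᵥ ((Xᵀ * M + M * X) *ᵥ v) = 0 := by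
      intro u v
      rw [add_mulVec, dotProduct_add, ← mulVec_mulVec, ← mulVec_mulVec, dotProduct_mulVec,
        ← mulVec_transpose, transpose_transpose, hM, hM, p1 X hX, p1 X hX]
      exact hb X hX _ (p2 u) _ (p2 v)
    ext i j
    have h2 := h1 (Pi.single i 1) (Pi.single j 1)
    simpa using h2
  let S : Matrix (Fin g ⊕ Fin g) (Fin g ⊕ Fin g) ℂ := -(Om g ℂ * M)
  have hS : ∀ u v, om g u (S *ᵥ v) = b (p u) (p v) := by
    intro u v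
    have h1 : Om g ℂ * S = M := by
      change Om g ℂ * -(Om g ℂ * M) = M
      rw [Matrix.mul_neg, ← Matrix.mul_assoc, hOO, Matrix.neg_mul, Matrix.one_mul, neg_neg]
    rw [om_apply, mulVec_mulVec, h1, hM]
  have hScm : InCm {DZ Z} S := by
    intro X hX
    have h1 : Xᵀ * Om g ℂ + Om g ℂ * X = 0 := h.sp hX
    have h2 : Xᵀ * M = -(M * X) := eq_neg_of_add_eq_zero_left (hinv X hX)
    have h3 : Om g ℂ * Xᵀ = -(X * Om g ℂ) := by
      have h4 : Om g ℂ * X = -(Xᵀ * Om g ℂ) := eq_neg_of_add_eq_zero_right h1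
      calc Om g ℂ * Xᵀ = -(Om g ℂ * (Xᵀ * (Om g ℂ * Om g ℂ))) := by
            rw [hOO]
            noncomm_ring
        _ = Om g ℂ * (-(Xᵀ * Om g ℂ)) * Om g ℂ := by noncomm_ring
        _ = Om g ℂ * Om g ℂ * X * Om g ℂ := by
            rw [← h4]
            noncomm_ring
        _ = -(X * Om g ℂ) := by
            rw [hOO]
            noncomm_ring
    change -(Om g ℂ * M) * X = X * -(Om g ℂ * M)
    calc -(Om g ℂ * M) * X = Om g ℂ * -(M * X) := by noncomm_ring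
      _ = Om g ℂ * Xᵀ * M := by
          rw [← h2]
          noncomm_ring
      _ = X * -(Om g ℂ * M) := by
          rw [h3]
          noncomm_ring
  -- `S` commutes with `c`
  have hSc : ∀ X, InCm {DZ Z} X → X * qm c = qm c * X := by
    refine Cm_induction ?_ ?_ ?_ ?_
    · intro u hu
      rw [← qm_mul, ← qm_mul, hc.2.2.2.1 u (hu _ DZ_mem)]
    · rw [Matrix.zero_mul, Matrix.mul_zero]
    · intro X Y hX hY
      rw [Matrix.add_mul, Matrix.mul_add, hX, hY]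
    · intro a X hX
      rw [Matrix.smul_mul, Matrix.mul_smul, hX]
  have h1 : om g (qm c *ᵥ u0) (S *ᵥ v0) = -om g u0 (S *ᵥ (qm c *ᵥ v0)) := by
    rw [hc.om_skew h hg, mulVec_mulVec, mulVec_mulVec, hSc S hScm]
  rw [hk u0 hu0, hk v0 hv0, mulVec_smul, map_smul, LinearMap.smul_apply, map_smul, smul_eq_mul,
    hS, p3 u0 hu0, p3 v0 hv0] at h1
  have h2 : (2 * k) * b u0 v0 = 0 := by linear_combination h1
  have hk0 : k ≠ 0 := by
    rintro rfl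
    have hu1 : u0 ≠ 0 := by
      rintro rfl
      rw [map_zero, LinearMap.zero_apply] at hb0
      exact hb0 rfl
    have h3 : (qm c * qm c) *ᵥ u0 = 0 := by
      rw [← mulVec_mulVec, hk u0 hu0, zero_smul, mulVec_zero]
    have h4 : qm c * qm c = -((D : ℂ) • (1 : Matrix (Fin g ⊕ Fin g) (Fin g ⊕ Fin g) ℂ)) := by
      rw [← qm_mul, hc.2.2.1, qm_neg, qm_smul', qm_one']
    rw [h4, neg_mulVec, smul_mulVec, one_mulVec, neg_eq_zero] at h3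
    rcases smul_eq_zero.1 h3 with h5 | h5
    · have h6 : D = 0 := by exact_mod_cast h5
      have h7 := hc.1
      rw [h6] at h7
      exact lt_irrefl _ h7
    · exact hu1 h5
  rcases mul_eq_zero.1 h2 with h3 | h3
  · exact hk0 (by simpa using h3)
  · exact hb0 h3

/-- The classification: the centre is an imaginary quadratic field. -/
theorem class_uni (hSp : JSpec) (hUn : JUni) (h : PM Z) (hs : IsSimpleAV Z) (hg : 0 < g)
    (hc : UniM Z) : ClassQ Z := by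
  obtain ⟨⟨D, c, hc⟩, φ, hφ, hcm, w, hw, hx⟩ := hc
  obtain ⟨s1, s2, s3⟩ := hSp g Z h hs hg φ hφ
  intro U hU
  obtain ⟨z, hz, T, hT, hi, hm⟩ := s2 U hU
  have hpd : ∀ σ : ℂ ≃+* ℂ, pd Z (cjS σ U) = pd Z (EigM φ (σ z)) := by
    intro σ
    rw [← pd_cj_map hT hi hU.2.1, hm, Pool.Agent.Y4.P.cjS_eigM]
  have hqd : ∀ σ : ℂ ≃+* ℂ, qd Z (cjS σ U) = qd Z (EigM φ (σ z)) := by
    intro σ
    rw [← qd_cj_map h hT hi hU.2.1, hm, Pool.Agent.Y4.P.cjS_eigM]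
  refine ⟨fun hn => ⟨?_, Or.inr ⟨φ, hφ, hcm, z, hz, fun σ => ⟨hpd σ, hqd σ⟩⟩⟩,
    Or.inr (Pool.Agent.Y4.P.pd_of_map hT hi (by rw [hm]; exact s3 hcm z hz))⟩
  obtain ⟨σ, hσ⟩ := exists_aut_root (Pool.Agent.Y261.P.minpoly_irr h hs hg hφ.1) hz hw
  refine ⟨σ, rk1_cj_map hT hi hU.2.1 ?_⟩
  rw [hm, Pool.Agent.Y4.P.cjS_eigM, hσ]
  obtain ⟨p, hp⟩ := Y261.P.mem_adj (hφ.2 c hc.2.1 (hc.2.2.2.1 φ hφ.1).symm)
  have hk : ∀ u ∈ EigM φ w, qm c *ᵥ u = Polynomial.aeval w p • u := by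
    intro u hu
    rw [hp, Y261.P.qm_aeval]
    exact Y261.P.aeval_mulVec (mem_eigM.1 hu) p
  exact hUn g Z h hs hg D c hc _ (s1 w hw).1 (hc.not_sdu h hg (s1 w hw).1.2.1 hk) _ hk hx

/-- The classification: large Hodge Lie algebras. -/
theorem class_big (hSp : JSpec) (h : PM Z) (hs : IsSimpleAV Z) (hg : 0 < g)
    (hc : BigM Z) : ClassQ Z := by
  obtain ⟨φ, hφ, hcm, w, hw, hx⟩ := hc
  obtain ⟨s1, s2, s3⟩ := hSp g Z h hs hg φ hφ
  intro U hU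
  obtain ⟨z, hz, T, hT, hi, hm⟩ := s2 U hU
  have hpd : ∀ σ : ℂ ≃+* ℂ, pd Z (cjS σ U) = pd Z (EigM φ (σ z)) := by
    intro σ
    rw [← pd_cj_map hT hi hU.2.1, hm, Pool.Agent.Y4.P.cjS_eigM]
  have hqd : ∀ σ : ℂ ≃+* ℂ, qd Z (cjS σ U) = qd Z (EigM φ (σ z)) := by
    intro σ
    rw [← qd_cj_map h hT hi hU.2.1, hm, Pool.Agent.Y4.P.cjS_eigM]
  refine ⟨fun hn => ⟨?_, Or.inr ⟨φ, hφ, hcm, z, hz, fun σ => ⟨hpd σ, hqd σ⟩⟩⟩,
    Or.inr (Pool.Agent.Y4.P.pd_of_map hT hi (by rw [hm]; exact s3 hcm z hz))⟩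
  obtain ⟨σ, hσ⟩ := exists_aut_root (Pool.Agent.Y261.P.minpoly_irr h hs hg hφ.1) hz hw
  refine ⟨σ, rk1_cj_map hT hi hU.2.1 ?_⟩
  rw [hm, Pool.Agent.Y4.P.cjS_eigM, hσ]
  exact hx

/-- The classification. -/
theorem goodQ_of (hcl : JClass) (hSp : JSpec) (hSy : JSympG2) (hCo : JCop2) (hTw : JTwoTwo2)
    (hGe : JCen) (hUn : JUni) {G : ℕ} {Z : Matrix (Fin G) (Fin G) ℂ} (hg : GoodF4 Z) (a : ℕ)
    (Z' : Matrix (Fin a) (Fin a) ℂ) (E : Matrix (Fin G ⊕ Fin G) (Fin a ⊕ Fin a) ℚ)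
    (F : Matrix (Fin a ⊕ Fin a) (Fin G ⊕ Fin G) ℚ) (hf : Fac Z Z' E F) (h' : PM Z')
    (hs : IsSimpleAV Z') (ha : 0 < a) : ClassQ Z' := by
  rcases hg.1 a Z' E F hf h' hs ha with h1 | h1 | h1 | h1 | h1 | h1 | h1 | h1 | h1
  · exact classQ_of h' (Pool.Agent.Y4.P.classZ_of hcl h' hs ha (Or.inl h1))
  · exact classQ_of h' (Pool.Agent.Y4.P.classZ_of hcl h' hs ha (Or.inr (Or.inl h1)))
  · exact classQ_of h' (Pool.Agent.Y4.P.classZ_of hcl h' hs ha (Or.inr (Or.inr h1)))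
  · exact classQ_of h' (Pool.Agent.Y4.P.class_real hSp hSy h' hs ha h1)
  · exact classQ_of h' (class_gen hSp hGe h' hs ha h1)
  · exact class_cop4 hSp hCo h' hs ha h1
  · exact class_uni hSp hUn h' hs ha h1
  · exact classQ_of h' (Pool.Agent.Y4.P.class_two hSp hTw h' hs ha h1)
  · exact class_big hSp h' hs ha h1

end

end Pool.Agent.Y4.Q
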