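import Mathlib
import Pool.Agent.Y4.P.Det

/-!
# The products of determinants belong to the ring
-/

set_option linter.unusedSectionVars false

namespace Pool.Agent.Y4.P

open Matrix Module Pool.Agent.Y90 Pool.Agent.W437.HC Pool.Agent.W437.HD
  Pool.Agent.TH504.CB Pool.Agent.W522.U
open Pool.Agent.W548.Odd hiding cv
open Pool.Agent.H204R3.CM (IsHodge)
open Pool.Agent.H204R3.SP (bil2 IsTate)
open Pool.Agent.H204R3.GP (HasProj)
open Pool.Agent.W437.HP (cK cK_mul cK_one)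

noncomputable section

section iso

variable {B : Type} [Fintype B] [DecidableEq B] {U : Submodule ℂ (B → ℂ)}
  {T : (B → ℂ) →ₗ[ℂ] (B → ℂ)} {d : ℕ} {P : Matrix B (Fin d) ℂ} {Q : Matrix (Fin d) B ℂ}
  (hQP : Q * P = 1) (hi : ∀ u ∈ U, T u = 0 → u = 0)
  (hT : ∀ v, v ∈ U.map T ↔ (P * Q) *ᵥ v = v)

/-- The coordinates on the submodule. -/
def eqU : U ≃ₗ[ℂ] (Fin d → ℂ) :=
  LinearEquiv.ofBijective (((Matrix.mulVecLin Q).comp T).comp U.subtype) (by
    constructor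
    · rw [injective_iff_map_eq_zero]
      intro u hu
      have h1 : Q *ᵥ T u = 0 := hu
      have h2 := (hT (T u)).1 ⟨u, u.2, rfl⟩
      rw [← mulVec_mulVec, h1, mulVec_zero] at h2
      exact Subtype.ext (hi u u.2 h2.symm)
    · intro c
      have h1 : P *ᵥ c ∈ U.map T := (hT _).2 (by
        rw [mulVec_mulVec, Matrix.mul_assoc, hQP, Matrix.mul_one])
      obtain ⟨u, hu, h2⟩ := h1
      refine ⟨⟨u, hu⟩, ?_⟩
      change Q *ᵥ T u = c
      rw [h2, mulVec_mulVec, hQP, one_mulVec])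

theorem eqU_apply (u : U) : eqU hQP hi hT u = Q *ᵥ T u := rfl

theorem P_eqU (u : U) : P *ᵥ eqU hQP hi hT u = T u := by
  rw [eqU_apply, mulVec_mulVec]
  exact (hT (T u)).1 ⟨u, u.2, rfl⟩

end iso

/-- Determinants in different coordinates. -/
theorem det_coord {U : Type} [AddCommGroup U] [Module ℂ U] {ι : Type} [Fintype ι] [DecidableEq ι]
    {d : ℕ} (f : Basis ι ℂ U) (A : U ≃ₗ[ℂ] (Fin d → ℂ)) (e : ι ≃ Fin d) :
    ∃ c : ℂ, c ≠ 0 ∧ ∀ w : ι → U, Matrix.det (Matrix.of fun y j : Fin d => A (w (e.symm y)) j) =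
      c * f.det w := by
  let b : Basis (Fin d) ℂ (Fin d → ℂ) := Pi.basisFun ℂ (Fin d)
  let g : U [⋀^ι]→ₗ[ℂ] ℂ := (((Matrix.detRowAlternating (n := Fin d) (R := ℂ)).compLinearMap
    A.toLinearMap).domDomCongr e.symm)
  have hg : ∀ w : ι → U, g w =
      Matrix.det (Matrix.of fun y j : Fin d => A (w (e.symm y)) j) := fun w => rfl
  have h1 : g = g f • f.det := AlternatingMap.eq_smul_basis_det f g
  refine ⟨g f, fun h0 => ?_, fun w => ?_⟩
  · have h2 := hg (fun i => A.symm (b (e i)))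
    rw [h1, h0, zero_smul, AlternatingMap.zero_apply] at h2
    have h3 : (Matrix.of fun y j : Fin d => A (A.symm (b (e (e.symm y)))) j) = 1 := by
      ext y j
      rw [Matrix.of_apply, LinearEquiv.apply_symm_apply, Equiv.apply_symm_apply, Pi.basisFun_apply,
        Pi.single_apply, Matrix.one_apply]
      exact if_congr eq_comm rfl rfl
    rw [h3, Matrix.det_one] at h2
    exact zero_ne_one h2
  · rw [← hg]
    conv_lhs => rw [h1]
    rfl

/-- The full products of determinants belong to the ring. -/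
theorem det_full (hWl : JWeil) (hFd : JField) (hId : JIdem) (hTr : JTrace) {G : ℕ}
    {Z : Matrix (Fin G) (Fin G) ℂ} (h : PM Z) {s : ℕ}
    (W : Fin s → Submodule ℂ (Fin G ⊕ Fin G → ℂ)) (hW : ∀ i, IrS (LZ Z) (W i))
    (st : Fin s → Fin s) (hst : ∀ i, st (st i) = i) (hDu : ∀ i, Du (RZ Z) 1 (W i) (W (st i)))
    (a : Fin s → ℤ) (ha : ∀ i, a (st i) = -a i)
    (hPD : ∀ i, a i ≠ 0 → PD (LZ Z) (W i))
    (hdet : ∀ (g : Gam (GG (LZ Z))) (hg : ∀ i, ∀ u ∈ W i, RZ Z g u ∈ W i), ∃ M : ℕ, M ≠ 0 ∧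
      (∏ i, LinearMap.det ((RZ Z g).restrict (hg i)) ^ a i) ^ M = 1)
    (ι : Fin s → Type) [∀ i, Fintype (ι i)] [∀ i, DecidableEq (ι i)]
    (f : ∀ i, Basis (ι i) ℂ (W i))
    (q : ∀ x : (Σ i, Fin (a i).toNat), ι x.1 → (Fin G ⊕ Fin G → ℂ) →ₗ[ℂ] W x.1)
    (hq : ∀ x y g v, (q x y (RZ Z g v) : Fin G ⊕ Fin G → ℂ) = RZ Z g (q x y v))
    (ψ : MultilinearMap ℂ (fun _ : (Σ x : (Σ i, Fin (a i).toNat), ι x.1) =>
      Fin G ⊕ Fin G → ℂ) ℂ)
    (hψ : ∀ v, ψ v = ∏ x : (Σ i, Fin (a i).toNat), (f x.1).det (fun y => q x y (v ⟨x, y⟩))) :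
    ψ ∈ NZ Z (Σ x : (Σ i, Fin (a i).toNat), ι x.1) := by
  classical
  have hne : ∀ x : (Σ i, Fin (a i).toNat), a x.1 ≠ 0 := by
    intro x h0
    have h1 := x.2.2
    have h2 : (a x.1).toNat = 0 := by rw [h0]; rfl
    exact absurd (lt_of_lt_of_eq h1 h2) (Nat.not_lt_zero _)
  choose ε T e1 e2 e3 e4 e5 e6 e7 using fun x : (Σ i, Fin (a i).toNat) => hPD x.1 (hne x)
  obtain ⟨K, hK1, hK2, hK3⟩ := exists_K hFd ε e3 e4
  choose d P Q hPQ hQP using fun x => exists_PQ hId (K := K) (ε x) (e1 x) (hK3 x)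
  have hQP' : ∀ x, cx (Q x) * cx (P x) = 1 := fun x => by rw [← cx_mul, hQP, cx_one]
  have hPQ' : ∀ x, cx (P x) * cx (Q x) = ε x := fun x => by rw [← cx_mul, hPQ]
  have hT7 : ∀ x v, v ∈ (W x.1).map (T x) ↔ (cx (P x) * cx (Q x)) *ᵥ v = v := fun x v => by
    rw [hPQ']
    exact e7 x v
  -- the coordinates
  let A : ∀ x : (Σ i, Fin (a i).toNat), W x.1 ≃ₗ[ℂ] (Fin (d x) → ℂ) := fun x =>
    eqU (hQP' x) (e6 x) (hT7 x)
  have hA : ∀ x (u : W x.1), A x u = cx (Q x) *ᵥ T x u := fun x u => rfl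
  have hPA : ∀ x (u : W x.1), cx (P x) *ᵥ A x u = T x u := fun x u =>
    P_eqU (hQP' x) (e6 x) (hT7 x) u
  have hcard : ∀ x : (Σ i, Fin (a i).toNat), Fintype.card (ι x.1) = Fintype.card (Fin (d x)) := by
    intro x
    rw [← finrank_eq_card_basis (f x.1), (A x).finrank_eq, finrank_fintype_fun_eq_card]
  let eι : ∀ x : (Σ i, Fin (a i).toNat), ι x.1 ≃ Fin (d x) := fun x =>
    Fintype.equivOfCardEq (hcard x)
  choose c hc0 hc using fun x => det_coord (f x.1) (A x) (eι x)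
  -- the matrices of the equivariant maps
  let R : ∀ k : (Σ x, Fin (d x)), Matrix (Fin (d k.1)) (Fin G ⊕ Fin G) ℂ := fun k =>
    LinearMap.toMatrix' ((A k.1).toLinearMap.comp (q k.1 ((eι k.1).symm k.2)))
  have hRv : ∀ k v, R k *ᵥ v = A k.1 (q k.1 ((eι k.1).symm k.2) v) := by
    intro k v
    change LinearMap.toMatrix' _ *ᵥ v = _
    rw [← Matrix.toLin'_apply, Matrix.toLin'_toMatrix']
    rfl
  have hqX : ∀ x y, ∀ X ∈ LZ Z, ∀ v, (q x y (X *ᵥ v) : Fin G ⊕ Fin G → ℂ) =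
      X *ᵥ (q x y v : Fin G ⊕ Fin G → ℂ) := by
    intro x y X hX v
    exact (rz_equiv h stab_top ((W x.1).subtype.comp (q x y))).1 (fun g u _ => hq x y g u) X hX v
      trivial
  have hR : ∀ k, ∀ X ∈ LZ Z, R k * X = (cx (Q k.1) * X * cx (P k.1)) * R k := by
    intro k X hX
    apply Matrix.toLin'.injective
    refine LinearMap.ext fun v => ?_
    rw [Matrix.toLin'_apply, Matrix.toLin'_apply, ← mulVec_mulVec, ← mulVec_mulVec, hRv, hRv,
      ← mulVec_mulVec, ← mulVec_mulVec, hPA, hA, hqX _ _ X hX, e5 k.1 X hX _ (SetLike.coe_mem _)]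
  -- the traces
  have htr : ∀ X ∈ LZ Z, ∑ x, Matrix.trace (X * cx (P x * Q x)) = 0 := by
    have h1 := trace_all (Z := Z) ε e2 (fun σ => by
      have h2 : ∀ x, Matrix.trace (DS Z σ * ε x) = ((tr Z (cjS σ.symm (W x.1)) : ℤ) : ℂ) :=
        fun x => hTr G Z h (W x.1) (hW x.1) (ε x) (T x) (e1 x) (e2 x) (e5 x) (e6 x) (e7 x) σ
      rw [Finset.sum_congr rfl fun x _ => h2 x, ← Int.cast_sum,
        tr_pos h W hW st hst hDu a ha hdet σ.symm, Int.cast_zero])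
    intro X hX
    rw [← h1 X hX]
    refine Finset.sum_congr rfl fun x _ => ?_
    rw [hPQ]
  -- reindexing
  let E : (Σ x : (Σ i, Fin (a i).toNat), ι x.1) ≃ (Σ x, Fin (d x)) := Equiv.sigmaCongrRight eι
  have hmem := @hWl G Z h K hK1 hK2 (Σ i, Fin (a i).toNat) inferInstance inferInstance d P Q hQP
    (fun x X hX => by rw [hPQ]; exact e2 x X hX) htr R hR ((∏ x, c x) • ψ.domDomCongr E)
    (fun v => by
      rw [_root_.smul_apply, MultilinearMap.domDomCongr_apply, hψ, smul_eq_mul,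
        ← Finset.prod_mul_distrib]
      refine Finset.prod_congr rfl fun x _ => ?_
      have h1 := hc x (fun y => q x y (v ⟨x, eι x y⟩))
      have h2 : (fun y => q x y (v (E ⟨x, y⟩))) = fun y => q x y (v ⟨x, eι x y⟩) := rfl
      rw [h2, ← h1]
      congr 1
      ext y j
      rw [Matrix.of_apply, Matrix.of_apply, hRv, Equiv.apply_symm_apply])
  have hc' : (∏ x, c x) ≠ 0 := Finset.prod_ne_zero_iff.2 fun x _ => hc0 x
  have h1 := Submodule.smul_mem _ (∏ x, c x)⁻¹ hmem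
  rw [smul_smul, inv_mul_cancel₀ hc', one_smul] at h1
  refine (clo_NZ Z).reindex E.symm h1 ψ fun v => ?_
  rw [MultilinearMap.domDomCongr_apply]
  congr 1
  funext p
  rw [Equiv.symm_apply_apply]

end

end Pool.Agent.Y4.P
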