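import Mathlib
import Pool.Agent.Y4.P.Jobs3
import Pool.Agent.Y261.P.Tang0
import Pool.Agent.Y319.P.Uni
import Pool.Agent.Y91.P.JSymp2

/-!
# The tangent space; rank one elements
-/

set_option linter.unusedSectionVars false

namespace Pool.Agent.Y4.P

open Matrix Module Pool.Agent.Y90 Pool.Agent.W437.HC Pool.Agent.W437.HD Pool.Agent.W548.Odd

noncomputable section

theorem jtang3 : JTang3 := by
  intro g Z h φ Ψ hΨ z
  refine ⟨Y261.P.comm_of_tangent h hΨ, Or.inl ⟨Y261.P.finrank_eigen h hΨ z, ?_⟩⟩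
  rw [Y261.P.finrank_eigen h hΨ, ← Y261.P.cjS_eqm]
  exact pd_cc _

theorem jcop2 : JCop2 := fun _ _ h _ hU hc hn => Y319.P.rk1_of_coprime' h hU hc hn

theorem jsympG2 : JSympG2 := by
  intro g Z h _ U hU ho k hk hn
  refine Y91.P.rk1_of_dim h hU ho ?_
  rcases hk with ⟨j, rfl⟩ | rfl
  · left
    rw [hn]
    omega
  · right
    rw [hn]

end

end Pool.Agent.Y4.P
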