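import Mathlib
import Pool.Agent.Y4.P.Jobs3
import Pool.Agent.Y977.P.Tr

/-!
# The transfer from a factor of the isomorphism with the image of an idempotent
-/

set_option linter.unusedSectionVars false

namespace Pool.Agent.Y4.P

open Matrix Module Pool.Agent.Y90 Pool.Agent.W437.HC Pool.Agent.W437.HD
  Pool.Agent.TH504.CB
open Pool.Agent.W548.Odd hiding cv
open Pool.Agent.W437.HP (cK cK_mul cK_one)
open Pool.Agent.Y977.P (map_three app_three)

noncomputable section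

theorem jtransfer2 : JTransfer2 := by
  intro G a Z Z' E F hf h h' U hU hi hp
  obtain ⟨π, T', h1, h2, h4, h5, e1, e2, h3⟩ := hp
  refine ⟨cK ℂ E * π * cK ℂ F, (ml E).comp (T'.comp (ml F)), ?_, ?_, ?_, ?_, ?_, ?_, ?_⟩
  · calc cK ℂ E * π * cK ℂ F * (cK ℂ E * π * cK ℂ F)
        = cK ℂ E * (π * (cK ℂ F * cK ℂ E) * π) * cK ℂ F := by simp only [Matrix.mul_assoc]
      _ = _ := by rw [hf.fe', Matrix.mul_one, h1]
  · intro X hX
    obtain ⟨c1, c2, c3⟩ := hf.comp hX
    calc X * (cK ℂ E * π * cK ℂ F) = (X * cK ℂ E) * π * cK ℂ F := by simp only [Matrix.mul_assoc]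
      _ = cK ℂ E * ((cK ℂ F * X * cK ℂ E) * π) * cK ℂ F := by
          rw [c2]
          simp only [Matrix.mul_assoc]
      _ = cK ℂ E * (π * (cK ℂ F * X * cK ℂ E)) * cK ℂ F := by rw [h2 _ c1]
      _ = cK ℂ E * π * (cK ℂ F * X * cK ℂ E * cK ℂ F) := by simp only [Matrix.mul_assoc]
      _ = cK ℂ E * π * (cK ℂ F * X) := by rw [← c3]
      _ = _ := by simp only [Matrix.mul_assoc]
  · have h6 : (Set.range fun σ : ℂ ≃+* ℂ => (cK ℂ E * π * cK ℂ F).map σ) =
        (fun M => cK ℂ E * M * cK ℂ F) '' (Set.range fun σ : ℂ ≃+* ℂ => π.map σ) := by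
      rw [← Set.range_comp]
      refine congrArg Set.range ?_
      funext σ
      exact map_three σ π
    rw [h6]
    exact h4.image _
  · intro σ i j
    rw [app_three σ, app_three cc, app_three cc, app_three σ]
    have h6 : (π.map σ).map cc = (π.map cc).map σ := by
      ext k l
      exact h5 σ k l
    rw [h6]
  · intro X hX u hu
    obtain ⟨c1, c2, c3⟩ := hf.comp hX
    change ml E (T' (ml F (X *ᵥ u))) = X *ᵥ ml E (T' (ml F u))
    rw [hf.act hX, e1 _ c1 _ ⟨u, hu, rfl⟩, ml_apply E, ml_apply E, mulVec_mulVec, mulVec_mulVec,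
      ← c2]
  · intro u hu h6
    refine hi u hu (e2 _ ⟨u, hu, rfl⟩ ?_)
    have h7 := congrArg (fun v => cK ℂ F *ᵥ v) h6
    change cK ℂ F *ᵥ (cK ℂ E *ᵥ (T' (ml F u))) = cK ℂ F *ᵥ 0 at h7
    rwa [mulVec_mulVec, hf.fe', one_mulVec, mulVec_zero] at h7
  · intro v
    rw [Submodule.map_comp, Submodule.map_comp]
    constructor
    · rintro ⟨w, hw, rfl⟩
      have h6 := (h3 w).1 hw
      rw [ml_apply, mulVec_mulVec]
      calc (cK ℂ E * π * cK ℂ F * cK ℂ E) *ᵥ w = (cK ℂ E * π) *ᵥ w := by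
            rw [Matrix.mul_assoc _ (cK ℂ F), hf.fe', Matrix.mul_one]
        _ = cK ℂ E *ᵥ (π *ᵥ w) := by rw [mulVec_mulVec]
        _ = _ := by rw [h6]
    · intro hv
      refine ⟨π *ᵥ (cK ℂ F *ᵥ v), (h3 _).2 (by rw [mulVec_mulVec, h1]), ?_⟩
      rw [ml_apply, mulVec_mulVec, mulVec_mulVec]
      exact hv

end

end Pool.Agent.Y4.P
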