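import Mathlib
import Pool.Agent.Y4.P.Asm
import Pool.Agent.Y4.P.Cls4
import Pool.Agent.Y4.P.Tan
import Pool.Agent.Y4.P.Tra
import Pool.Agent.Y274.P.JForms
import Pool.Agent.Y220.P.JPull
import Pool.Agent.Y37.P.Weil
import Pool.Agent.Y317.P.Cht
import Pool.Agent.Y317.P.Fld
import Pool.Agent.Y317.P.Idem
import Pool.Agent.Y145.P.Line
import Pool.Agent.Y291.P.JKill
import Pool.Agent.Y293.P.Pr
import Pool.Agent.Y141.P.JStr
import Pool.Agent.Y960.P.Half
import Pool.Agent.Y960.P.Nonsc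
import Pool.Agent.Y91.P.JSymp

/-!
# Hodge classes belong to the ring generated by divisors and Weil classes
-/

set_option linter.unusedSectionVars false

namespace Pool.Agent.Y4.P

open Matrix Module Pool.Agent.Y90 Pool.Agent.W437.HC Pool.Agent.W437.HD Pool.Agent.W548.Odd
open Pool.Agent.H204R3.CM (IsHodge)

noncomputable section

theorem jpull' : JPull := Y220.P.jpull Y141.P.jstr Y317.P.Cht.x Y291.P.jkill

theorem jweil' : JWeil := Y37.P.jweil jpull'

theorem jnonscalar' : JNonscalar := Y960.P.jnonscalar Y960.P.jdvd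

theorem jclass' : JClass :=
  jclass Y293.P.jPr Y145.P.jline Y960.P.jhalf Y960.P.jdvd Y145.P.jcm jnonscalar'
    (Y960.P.jup jnonscalar') Y319.P.juni Y91.P.jSymp

theorem main (hSp : JSpec) (hTw : JTwoTwo2) (G : ℕ) (Z : Matrix (Fin G) (Fin G) ℂ) (h : PM Z)
    (hg : GoodF3 Z) (κ : Type) [Finite κ] (f : (Fin G ⊕ Fin G → ℚ) [⋀^κ]→ₗ[ℚ] ℚ)
    (hf : IsHodge (perOne Z) f) : WeilRing (perOne Z) κ f :=
  gmain Y274.P.jforms jweil' Y317.P.Fld.x Y317.P.Idem.x Y977.P.jtransfer jtransfer2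
    Y977.P.jtrace h (goodC_of jclass' hSp jsympG2 jcop2 hTw hg) f hf

end

end Pool.Agent.Y4.P
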