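import Mathlib
import Pool.Agent.Y4.P.Jobs3

/-!
# Project P (helper4), job JGood3 (helper275): the simple factors of the period matrix
-/

set_option autoImplicit false
set_option linter.unusedSectionVars false

namespace Pool.Agent.Y4.P.G3

open Matrix Module Pool.Agent.Y90 Pool.Agent.Y4.P Pool.Agent.W437.HC Pool.Agent.W437.HD
open Pool.Agent.W548.Odd hiding cv
open Pool.Agent.H204R3.CM (IsHodge)
open Pool.Agent.W437.HP (cK cK_mul cK_one)

noncomputable section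

variable {H T : Type} [AddCommGroup H] [Module ℚ H] [AddCommGroup T] [Module ℂ T] {per : H →+ T}
  {G : ℕ} {Z : Matrix (Fin G) (Fin G) ℂ}

/-! ### Endomorphisms and complex structures -/

/-- Rational matrices which are compatible with a complex linear map commute with the complex
structure. -/
theorem cht_comm {B : Type} [Fintype B] [DecidableEq B] {per : (B → ℚ) →+ T} {J : Matrix B B ℝ}
    (h : Cht per J) {φ : Matrix B B ℚ} {Ψ : T →ₗ[ℂ] T} (hΨ : ∀ v, Ψ (per v) = per (φ *ᵥ v)) :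
    cK ℂ φ * DJ J = DJ J * cK ℂ φ := by
  obtain ⟨P, I, hP1, hP2, hI1, hI2⟩ := h.ex
  have h1 : ∀ x : B → ℝ, P (cK ℝ φ *ᵥ x) = Ψ (P x) := by
    let f : (B → ℝ) →ₗ[ℝ] T := P ∘ₗ (cK ℝ φ).mulVecLin
    let f' : (B → ℝ) →ₗ[ℝ] T := (Ψ.restrictScalars ℝ) ∘ₗ P
    have hff : f = f' := by
      refine (Pi.basisFun ℝ B).ext fun i => ?_
      rw [Pi.basisFun_apply]
      change P (cK ℝ φ *ᵥ Pi.single i 1) = Ψ (P (Pi.single i 1))
      rw [← single_castR i, hP1, hΨ, ← hP1]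
      congr 1
      funext j
      simp [mulVec, dotProduct, cK]
    intro x
    exact LinearMap.congr_fun hff x
  have h2 : ∀ x : B → ℝ, cK ℝ φ *ᵥ (J *ᵥ x) = J *ᵥ (cK ℝ φ *ᵥ x) := by
    intro x
    rw [← hI1 (cK ℝ φ *ᵥ (J *ᵥ x)), h1, hP2, map_smul, ← h1, ← hP2, hI1]
  have h3 : cK ℝ φ * J = J * cK ℝ φ := by
    apply Matrix.toLin'.injective
    refine LinearMap.ext fun x => ?_
    rw [toLin'_apply, toLin'_apply, ← mulVec_mulVec, ← mulVec_mulVec, h2]
  have h4 : (cK ℝ φ * J).map (fun x : ℝ => (x : ℂ)) =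
      (cK ℝ φ).map (fun x : ℝ => (x : ℂ)) * J.map (fun x : ℝ => (x : ℂ)) :=
    Matrix.map_mul (f := Complex.ofRealHom)
  have h5 : (J * cK ℝ φ).map (fun x : ℝ => (x : ℂ)) =
      J.map (fun x : ℝ => (x : ℂ)) * (cK ℝ φ).map (fun x : ℝ => (x : ℂ)) :=
    Matrix.map_mul (f := Complex.ofRealHom)
  unfold DJ
  rw [Matrix.mul_smul, Matrix.smul_mul]
  have h6 : (cK ℝ φ).map (fun x : ℝ => (x : ℂ)) = cK ℂ φ := cK_R φ
  rw [← h6, ← h4, ← h5, h3]

/-- The data of a simple abelian subvariety given by a factor. -/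
structure Sd (per : H →+ T) {a : ℕ} (Z' : Matrix (Fin a) (Fin a) ℂ) (U : Submodule ℚ H)
    (e : (Fin a ⊕ Fin a → ℚ) ≃ₗ[ℚ] U) (Ψ₁ : (Fin a → ℂ) →ₗ[ℂ] T) (Ψ₂ : T →ₗ[ℂ] (Fin a → ℂ)) :
    Prop where
  sim : St.IsSimpleSub per U
  rank : finrank ℚ U = 2 * a
  g₁ : ∀ y, Ψ₁ (perOne Z' y) = per (e y)
  g₂ : ∀ u : U, Ψ₂ (per u) = perOne Z' (e.symm u)
  inv : ∀ t, Ψ₂ (Ψ₁ t) = t

/-- The simple factors of the period matrix give simple abelian subvarieties. -/
theorem exists_sd (A : H ≃ₗ[ℚ] (Fin G ⊕ Fin G → ℚ))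
    (hC : Cht (per.comp A.symm.toLinearMap.toAddMonoidHom) (JR Z)) {a : ℕ}
    {Z' : Matrix (Fin a) (Fin a) ℂ} {E : Matrix (Fin G ⊕ Fin G) (Fin a ⊕ Fin a) ℚ}
    {F : Matrix (Fin a ⊕ Fin a) (Fin G ⊕ Fin G) ℚ} (hfac : Fac Z Z' E F) (h' : PM Z')
    (hsim : IsSimpleAV Z') (ha : 0 < a) : ∃ U e Ψ₁ Ψ₂, Sd per Z' U e Ψ₁ Ψ₂ := by
  obtain ⟨Ψ₁, h₁⟩ := h'.cht.hom hC (R := E) (by rw [DJ_JR, DJ_JR]; exact hfac.de.symm)
  obtain ⟨Ψ₂, h₂⟩ := hC.hom h'.cht (R := F) (by rw [DJ_JR, DJ_JR]; exact hfac.fd)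
  obtain ⟨ι, hι⟩ : ∃ ι : (Fin a ⊕ Fin a → ℚ) →ₗ[ℚ] H, ∀ y, ι y = A.symm (E *ᵥ y) :=
    ⟨A.symm.toLinearMap.comp (Matrix.mulVecLin E), fun y => rfl⟩
  obtain ⟨π, hπ⟩ : ∃ π : H →ₗ[ℚ] (Fin a ⊕ Fin a → ℚ), ∀ v, π v = F *ᵥ A v :=
    ⟨(Matrix.mulVecLin F).comp A.toLinearMap, fun y => rfl⟩
  have hπι : ∀ y, π (ι y) = y := by
    intro y
    rw [hπ, hι, LinearEquiv.apply_symm_apply, mulVec_mulVec, hfac.fe, one_mulVec]
  have g₁ : ∀ y, Ψ₁ (perOne Z' y) = per (ι y) := fun y => by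
    rw [hι]
    exact h₁ y
  have g₂ : ∀ v, Ψ₂ (per v) = perOne Z' (π v) := fun v => by
    have h3 := h₂ (A v)
    have h4 : (per.comp A.symm.toLinearMap.toAddMonoidHom) (A v) = per v := by
      change per (A.symm (A v)) = per v
      rw [LinearEquiv.symm_apply_apply]
    rw [h4] at h3
    rw [hπ]
    exact h3
  have hsp : ∀ t : Fin a → ℂ, t ∈ Submodule.span ℝ (Set.range (perOne Z')) := by
    intro t
    rw [perOne_span h']
    trivial
  have hr₁ : ∀ (r : ℝ) t, Ψ₁ (r • t) = r • Ψ₁ t := fun r t => Ψ₁.map_smul_of_tower r t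
  have hr₂ : ∀ (r : ℝ) t, Ψ₂ (r • t) = r • Ψ₂ t := fun r t => Ψ₂.map_smul_of_tower r t
  have hinj : Function.Injective ι := fun x y hxy => by
    rw [← hπι x, hxy, hπι]
  obtain ⟨U, hU⟩ : ∃ U : Submodule ℚ H, U = LinearMap.range ι := ⟨_, rfl⟩
  have hUι : ∀ y, ι y ∈ U := fun y => by
    rw [hU]
    exact ⟨y, rfl⟩
  have hrank : finrank ℚ U = 2 * a := by
    rw [hU, LinearMap.finrank_range_of_inj hinj, finrank_fintype_fun_eq_card, Fintype.card_sum,
      Fintype.card_fin]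
    ring
  -- the image of the first map
  have hm₁ : ∀ (S : Set H) (S' : Set (Fin a ⊕ Fin a → ℚ)), (∀ y ∈ S', ι y ∈ S) →
      ∀ t ∈ Submodule.span ℝ (perOne Z' '' S'), Ψ₁ t ∈ Submodule.span ℝ (per '' S) := by
    intro S S' hS t ht
    induction ht using Submodule.span_induction with
    | mem t ht =>
      obtain ⟨y, hy, rfl⟩ := ht
      rw [g₁]
      exact Submodule.subset_span ⟨_, hS y hy, rfl⟩
    | zero =>
      rw [map_zero]
      exact Submodule.zero_mem _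
    | add x y _ _ hx hy =>
      rw [map_add]
      exact Submodule.add_mem _ hx hy
    | smul r x _ hx =>
      rw [hr₁]
      exact Submodule.smul_mem _ _ hx
  have hm₂ : ∀ (S : Set H) (S' : Set (Fin a ⊕ Fin a → ℚ)), (∀ v ∈ S, π v ∈ S') →
      ∀ t ∈ Submodule.span ℝ (per '' S), Ψ₂ t ∈ Submodule.span ℝ (perOne Z' '' S') := by
    intro S S' hS t ht
    induction ht using Submodule.span_induction with
    | mem t ht =>
      obtain ⟨v, hv, rfl⟩ := ht
      rw [g₂]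
      exact Submodule.subset_span ⟨_, hS v hv, rfl⟩
    | zero =>
      rw [map_zero]
      exact Submodule.zero_mem _
    | add x y _ _ hx hy =>
      rw [map_add]
      exact Submodule.add_mem _ hx hy
    | smul r x _ hx =>
      rw [hr₂]
      exact Submodule.smul_mem _ _ hx
  have hΨ : ∀ t, Ψ₂ (Ψ₁ t) = t := by
    intro t
    have ht := hsp t
    induction ht using Submodule.span_induction with
    | mem t ht =>
      obtain ⟨y, rfl⟩ := ht
      rw [g₁, g₂, hπι]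
    | zero => rw [map_zero, map_zero]
    | add x y _ _ hx hy => rw [map_add, map_add, hx, hy]
    | smul r x _ hx => rw [hr₁, hr₂, hx]
  have hsub : St.IsSub per U := by
    intro x hx
    obtain ⟨t, rfl⟩ : ∃ t, x = Ψ₁ t := by
      induction hx using Submodule.span_induction with
      | mem x hx =>
        obtain ⟨v, hv, rfl⟩ := hx
        rw [hU] at hv
        obtain ⟨y, rfl⟩ := hv
        exact ⟨_, (g₁ y).symm⟩
      | zero => exact ⟨0, (map_zero _).symm⟩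
      | add x y _ _ hx hy =>
        obtain ⟨s, rfl⟩ := hx
        obtain ⟨t, rfl⟩ := hy
        exact ⟨s + t, (map_add _ _ _).symm⟩
      | smul r x _ hx =>
        obtain ⟨s, rfl⟩ := hx
        exact ⟨r • s, (hr₁ _ _).symm⟩
    rw [← map_smul]
    refine hm₁ U Set.univ (fun y _ => hUι y) _ ?_
    rw [Set.image_univ]
    exact hsp _
  have hsimple : St.IsSimpleSub per U := by
    refine ⟨hsub, ?_, fun U' hU' hsub' => ?_⟩
    · intro h0
      rw [h0, finrank_bot] at hrank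
      omega
    · have h3 := hsim (U'.comap ι) (fun x hx => by
        have h4 := hm₁ U' (U'.comap ι) (fun y hy => hy) x hx
        have h5 := hsub' _ h4
        have h6 := hm₂ U' (U'.comap ι) (fun v hv => by
          have h7 := hU' hv
          rw [hU] at h7
          obtain ⟨y, rfl⟩ := h7
          change ι (π (ι y)) ∈ U'
          rw [hπι]
          exact hv) _ h5
        rwa [map_smul, hΨ] at h6)
      rcases h3 with h3 | h3
      · left
        rw [Submodule.eq_bot_iff]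
        intro v hv
        have h7 := hU' hv
        rw [hU] at h7
        obtain ⟨y, rfl⟩ := h7
        have h8 : y ∈ U'.comap ι := hv
        rw [h3, Submodule.mem_bot] at h8
        rw [h8, map_zero]
      · right
        refine le_antisymm hU' ?_
        intro v hv
        rw [hU] at hv
        obtain ⟨y, rfl⟩ := hv
        have h8 : y ∈ U'.comap ι := by rw [h3]; trivial
        exact h8
  let e₀ : (Fin a ⊕ Fin a → ℚ) ≃ₗ[ℚ] LinearMap.range ι := LinearEquiv.ofInjective ι hinj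
  let e : (Fin a ⊕ Fin a → ℚ) ≃ₗ[ℚ] U := e₀.trans (LinearEquiv.ofEq _ _ hU.symm)
  have he : ∀ y, (e y : H) = ι y := fun y => rfl
  refine ⟨U, e, Ψ₁, Ψ₂, hsimple, hrank, fun y => by rw [g₁, he], fun u => ?_, hΨ⟩
  obtain ⟨y, rfl⟩ := e.surjective u
  rw [he, g₂, hπι, LinearEquiv.symm_apply_apply]

/-- Commutative algebras of endomorphisms contain the identity. -/
theorem one_mem_of {V : Type} [AddCommGroup V] [Module ℚ V] [FiniteDimensional ℚ V]
    (A : Submodule ℚ (Module.End ℚ V)) (hA : ∀ x ∈ A, ∀ y ∈ A, x * y ∈ A) (b : Module.End ℚ V)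
    (hb : b ∈ A) (hbs : Function.Surjective b) : (1 : Module.End ℚ V) ∈ A := by
  let L : A →ₗ[ℚ] A := (LinearMap.mulRight ℚ b).restrict (p := A) (q := A)
    (fun c hc => hA c hc b hb)
  have hL : ∀ c : A, ((L c : A) : Module.End ℚ V) = (c : Module.End ℚ V) * b := fun c => rfl
  have hLi : Function.Injective L := by
    intro c d hcd
    have h1 : (c : Module.End ℚ V) * b = (d : Module.End ℚ V) * b := by rw [← hL, ← hL, hcd]
    refine Subtype.ext (LinearMap.ext fun u => ?_)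
    obtain ⟨w, rfl⟩ := hbs u
    exact LinearMap.congr_fun h1 w
  have hLs : Function.Surjective L := LinearMap.surjective_of_injective hLi
  obtain ⟨c, hc⟩ := hLs ⟨b, hb⟩
  have hc1 : (c : Module.End ℚ V) = 1 := by
    have h1 : (c : Module.End ℚ V) * b = b := by
      rw [← hL, hc]
    refine LinearMap.ext fun u => ?_
    obtain ⟨w, rfl⟩ := hbs u
    exact LinearMap.congr_fun h1 w
  rw [← hc1]
  exact c.2

/-- Commutative algebras of endomorphisms as subalgebras. -/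
theorem subalg_of {V : Type} [AddCommGroup V] [Module ℚ V] [FiniteDimensional ℚ V]
    {R : Type} [Ring R] [Algebra ℚ R] (Θ : R ≃ₐ[ℚ] Module.End ℚ V)
    (A : Submodule ℚ (Module.End ℚ V)) (hA : ∀ x ∈ A, ∀ y ∈ A, x * y = y * x ∧ x * y ∈ A)
    (b : Module.End ℚ V) (hb : b ∈ A) (hbs : Function.Surjective b) :
    ∃ A' : Subalgebra ℚ R, (∀ x ∈ A', ∀ y ∈ A', x * y = y * x) ∧ finrank ℚ A' = finrank ℚ A ∧
      ∀ x ∈ A', Θ x ∈ A := by
  have hone := one_mem_of A (fun x hx y hy => (hA x hx y hy).2) b hb hbs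
  let A₁ : Subalgebra ℚ (Module.End ℚ V) := Submodule.toSubalgebra A hone
    (fun x y hx hy => (hA x hx y hy).2)
  have h1 : ∀ x, x ∈ A₁ ↔ x ∈ A := fun x => Iff.rfl
  refine ⟨A₁.comap (Θ : R →ₐ[ℚ] Module.End ℚ V), fun x hx y hy => ?_, ?_, fun x hx => hx⟩
  · apply Θ.injective
    rw [map_mul, map_mul]
    exact (hA _ hx _ hy).1
  · have h2 : (A₁.comap (Θ : R →ₐ[ℚ] Module.End ℚ V)) ≃ₗ[ℚ] A :=
      { toFun := fun x => ⟨Θ x.1, x.2⟩
        invFun := fun y => ⟨Θ.symm y.1, by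
          change Θ (Θ.symm y.1) ∈ A
          rw [AlgEquiv.apply_symm_apply]
          exact y.2⟩
        left_inv := fun x => Subtype.ext (Θ.symm_apply_apply x.1)
        right_inv := fun y => Subtype.ext (Θ.apply_symm_apply y.1)
        map_add' := fun x y => Subtype.ext (map_add Θ x.1 y.1)
        map_smul' := fun c x => Subtype.ext (map_smul Θ c x.1) }
    exact h2.finrank_eq

namespace Sd

variable {a : ℕ} {Z' : Matrix (Fin a) (Fin a) ℂ} {U : Submodule ℚ H}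
  {e : (Fin a ⊕ Fin a → ℚ) ≃ₗ[ℚ] U} {Ψ₁ : (Fin a → ℂ) →ₗ[ℂ] T} {Ψ₂ : T →ₗ[ℂ] (Fin a → ℂ)}

/-- Matrices and endomorphisms of `U`. -/
def Φ (e : (Fin a ⊕ Fin a → ℚ) ≃ₗ[ℚ] U) :
    Matrix (Fin a ⊕ Fin a) (Fin a ⊕ Fin a) ℚ ≃ₐ[ℚ] Module.End ℚ U :=
  (Matrix.toLinAlgEquiv' (R := ℚ) (n := Fin a ⊕ Fin a)).trans (e.conjAlgEquiv ℚ)

theorem Φ_apply (M : Matrix (Fin a ⊕ Fin a) (Fin a ⊕ Fin a) ℚ) (u : U) :
    Φ e M u = e (M *ᵥ e.symm u) := rfl

theorem Φ_symm (b : Module.End ℚ U) (y : Fin a ⊕ Fin a → ℚ) :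
    (Φ e).symm b *ᵥ y = e.symm (b (e y)) := by
  have h1 : Φ e ((Φ e).symm b) = b := (Φ e).apply_symm_apply b
  have h2 := Φ_apply (e := e) ((Φ e).symm b) (e y)
  rw [h1, LinearEquiv.symm_apply_apply] at h2
  rw [h2, LinearEquiv.symm_apply_apply]

variable (s : Sd per Z' U e Ψ₁ Ψ₂) (h' : PM Z')
include s h'

/-- The matrix of an endomorphism of `U` commutes with the complex structure. -/
theorem comm {b : Module.End ℚ U} {Ψ : T →ₗ[ℂ] T} (hb : ∀ u : U, Ψ (per u) = per (b u)) :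
    qm ((Φ e).symm b) * DZ Z' = DZ Z' * qm ((Φ e).symm b) := by
  refine cht_comm h'.cht (Ψ := Ψ₂ ∘ₗ Ψ ∘ₗ Ψ₁) fun v => ?_
  rw [LinearMap.comp_apply, LinearMap.comp_apply, s.g₁, hb, s.g₂, Φ_symm]

/-- Matrices which commute with the complex structure are endomorphisms of `U`. -/
theorem endo {M : Matrix (Fin a ⊕ Fin a) (Fin a ⊕ Fin a) ℚ} (hM : qm M * DZ Z' = DZ Z' * qm M) :
    IsEndo per U (Φ e M) := by
  obtain ⟨Ψ₃, h₅⟩ := h'.cht.hom h'.cht (R := M) (by rw [DJ_JR]; exact hM)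
  refine ⟨Ψ₁.comp (Ψ₃.comp Ψ₂), fun u => ?_⟩
  rw [LinearMap.comp_apply, LinearMap.comp_apply, s.g₂, h₅, s.g₁, Φ_apply]

end Sd

namespace Sd

variable {a : ℕ} {Z' : Matrix (Fin a) (Fin a) ℂ} {U : Submodule ℚ H}
  {e : (Fin a ⊕ Fin a → ℚ) ≃ₗ[ℚ] U} {Ψ₁ : (Fin a → ℂ) →ₗ[ℂ] T} {Ψ₂ : T →ₗ[ℂ] (Fin a → ℂ)}

section

variable (s : Sd per Z' U e Ψ₁ Ψ₂)
include s

/-- Nonzero endomorphisms of a simple abelian subvariety are surjective. -/
theorem surj {b : Module.End ℚ U} (hb : ∃ Ψ : T →ₗ[ℂ] T, ∀ u : U, Ψ (per u) = per (b u))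
    (hb0 : b ≠ 0) : Function.Surjective b := by
  obtain ⟨Ψ, hΨ⟩ := hb
  have hr : ∀ (r : ℝ) t, Ψ (r • t) = r • Ψ t := fun r t => Ψ.map_smul_of_tower r t
  obtain ⟨U', hU'⟩ : ∃ U' : Submodule ℚ H, U' = (LinearMap.range b).map U.subtype := ⟨_, rfl⟩
  have hle : U' ≤ U := by
    rw [hU']
    exact Submodule.map_subtype_le _ _
  have h1 : ∀ x ∈ Submodule.span ℝ (per '' U'), ∃ y ∈ Submodule.span ℝ (per '' (U : Set H)),
      x = Ψ y := by
    intro x hx
    induction hx using Submodule.span_induction with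
    | mem x hx =>
      obtain ⟨v, hv, rfl⟩ := hx
      rw [hU'] at hv
      obtain ⟨w, ⟨u, rfl⟩, rfl⟩ := hv
      exact ⟨per u, Submodule.subset_span ⟨u, u.2, rfl⟩, (hΨ u).symm⟩
    | zero => exact ⟨0, Submodule.zero_mem _, (map_zero _).symm⟩
    | add x y _ _ hx hy =>
      obtain ⟨x', hx', rfl⟩ := hx
      obtain ⟨y', hy', rfl⟩ := hy
      exact ⟨x' + y', Submodule.add_mem _ hx' hy', (map_add _ _ _).symm⟩
    | smul r x _ hx =>
      obtain ⟨x', hx', rfl⟩ := hx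
      exact ⟨r • x', Submodule.smul_mem _ _ hx', (hr _ _).symm⟩
  have h2 : ∀ y ∈ Submodule.span ℝ (per '' (U : Set H)), Ψ y ∈ Submodule.span ℝ (per '' U') := by
    intro y hy
    induction hy using Submodule.span_induction with
    | mem x hx =>
      obtain ⟨v, hv, rfl⟩ := hx
      have h3 := hΨ ⟨v, hv⟩
      rw [h3]
      refine Submodule.subset_span ⟨_, ?_, rfl⟩
      rw [hU']
      exact ⟨b ⟨v, hv⟩, ⟨_, rfl⟩, rfl⟩
    | zero =>
      rw [map_zero]
      exact Submodule.zero_mem _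
    | add x y _ _ hx hy =>
      rw [map_add]
      exact Submodule.add_mem _ hx hy
    | smul r x _ hx =>
      rw [hr]
      exact Submodule.smul_mem _ _ hx
  have hsub : St.IsSub per U' := by
    intro x hx
    obtain ⟨y, hy, rfl⟩ := h1 x hx
    rw [← map_smul]
    exact h2 _ (s.sim.1 y hy)
  rcases s.sim.2.2 U' hle hsub with h3 | h3
  · exfalso
    apply hb0
    refine LinearMap.ext fun u => ?_
    have h4 : (b u : H) ∈ U' := by
      rw [hU']
      exact ⟨b u, ⟨u, rfl⟩, rfl⟩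
    rw [h3, Submodule.mem_bot] at h4
    exact Subtype.ext h4
  · intro w
    have h4 : (w : H) ∈ U' := by
      rw [h3]
      exact w.2
    rw [hU'] at h4
    obtain ⟨w', ⟨u, rfl⟩, h5⟩ := h4
    exact ⟨u, Subtype.ext h5⟩

end

variable (s : Sd per Z' U e Ψ₁ Ψ₂) (h' : PM Z')
include s h'

/-- Complex multiplication. -/
theorem hasCM (ha : 0 < a) (hcm : St.IsCMSub per U) : HasCM Z' := by
  obtain ⟨A, hA1, hA2, hA3⟩ := hcm
  rw [s.rank] at hA2
  have : FiniteDimensional ℚ U := FiniteDimensional.of_finrank_pos (by rw [s.rank]; omega)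
  have hA0 : A ≠ ⊥ := by
    intro h0
    rw [h0, finrank_bot] at hA2
    omega
  obtain ⟨b, hb, hb0⟩ := Submodule.exists_mem_ne_zero_of_ne_bot hA0
  have hbs : Function.Surjective b := s.surj (hA3 b hb) hb0
  obtain ⟨A', h1, h2, h3⟩ := subalg_of (V := U) (Φ e) A (fun x hx y hy => hA1 x hx y hy) b hb hbs
  refine ⟨A', h1, h2.trans hA2, fun x hx => ?_⟩
  obtain ⟨Ψ, hΨ⟩ := hA3 _ (h3 x hx)
  have h4 := s.comm h' hΨ
  rwa [AlgEquiv.symm_apply_apply] at h4

/-- Maximal endomorphisms. -/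
theorem maxM {b : Module.End ℚ U} (hb : IsMaxEndo per U b) : MaxM Z' ((Φ e).symm b) := by
  obtain ⟨⟨Ψ, hΨ⟩, hmax⟩ := hb
  refine ⟨s.comm h' hΨ, fun ψ hψ hc => ?_⟩
  have h1 : Φ e ψ * b = b * Φ e ψ := by
    apply (Φ e).symm.injective
    rw [map_mul, map_mul, AlgEquiv.symm_apply_apply, hc]
  have h5 := hmax _ (s.endo h' hψ) h1
  have h6 : (Φ e).symm (Φ e ψ) ∈ (Algebra.adjoin ℚ ({b} : Set (Module.End ℚ U))).map
      ((Φ e).symm : Module.End ℚ U →ₐ[ℚ] _) := ⟨_, h5, rfl⟩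
  rw [AlgHom.map_adjoin, AlgEquiv.symm_apply_apply] at h6
  rw [Set.image_singleton] at h6
  exact h6

/-- Real eigenvalues. -/
theorem realOddM (hr : IsRealOddSub per U) : RealOddM Z' := by
  obtain ⟨b, hb, h1, k, hk, h2⟩ := hr
  refine ⟨(Φ e).symm b, s.maxM h' hb, ?_, k, hk, ?_⟩
  · rw [minpoly.algEquiv_eq (Φ e).symm b]
    exact h1
  · rw [minpoly.algEquiv_eq (Φ e).symm b]
    rw [s.rank] at h2
    exact Nat.eq_of_mul_eq_mul_left (by norm_num) h2

/-- The transport of the tangent space. -/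
theorem tang {b : Module.End ℚ U} {Ψ : T →ₗ[ℂ] T} (hΨ : ∀ u : U, Ψ (per u) = per (b u)) :
    ∃ Ψ' : (Fin a → ℂ) →ₗ[ℂ] (Fin a → ℂ),
      (∀ v, Ψ' (perOne Z' v) = perOne Z' ((Φ e).symm b *ᵥ v)) ∧
      ∀ z : ℂ, finrank ℂ (Module.End.eigenspace Ψ' z) =
        finrank ℂ ↥(Submodule.span ℂ (per '' U) ⊓ Module.End.eigenspace Ψ z) := by
  have hsp : ∀ t : Fin a → ℂ, t ∈ Submodule.span ℝ (Set.range (perOne Z')) := by
    intro t
    rw [perOne_span h']
    trivial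
  have hinj : Function.Injective Ψ₁ := fun x y hxy => by
    rw [← s.inv x, hxy, s.inv]
  obtain ⟨Ψ', hΨ'⟩ : ∃ Ψ' : (Fin a → ℂ) →ₗ[ℂ] (Fin a → ℂ), Ψ' = Ψ₂ ∘ₗ Ψ ∘ₗ Ψ₁ := ⟨_, rfl⟩
  have h1 : ∀ v, Ψ' (perOne Z' v) = perOne Z' ((Φ e).symm b *ᵥ v) := by
    intro v
    rw [hΨ', LinearMap.comp_apply, LinearMap.comp_apply, s.g₁, hΨ, s.g₂, Φ_symm]
  have h2 : ∀ t, Ψ (Ψ₁ t) = Ψ₁ (Ψ' t) := by
    intro t
    have ht := hsp t
    induction ht using Submodule.span_induction with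
    | mem t ht =>
      obtain ⟨y, rfl⟩ := ht
      rw [h1, s.g₁, s.g₁, hΨ, Φ_symm, LinearEquiv.apply_symm_apply]
    | zero => rw [map_zero, map_zero, map_zero, map_zero]
    | add x y _ _ hx hy => rw [map_add, map_add, map_add, map_add, hx, hy]
    | smul r x _ hx =>
      rw [Ψ₁.map_smul_of_tower, Ψ.map_smul_of_tower, Ψ'.map_smul_of_tower,
        Ψ₁.map_smul_of_tower, hx]
  have h3 : Submodule.span ℂ (per '' U) = LinearMap.range Ψ₁ := by
    apply le_antisymm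
    · rw [Submodule.span_le]
      rintro x ⟨v, hv, rfl⟩
      refine ⟨perOne Z' (e.symm ⟨v, hv⟩), ?_⟩
      rw [s.g₁, LinearEquiv.apply_symm_apply]
    · rintro x ⟨t, rfl⟩
      have ht := hsp t
      induction ht using Submodule.span_induction with
      | mem t ht =>
        obtain ⟨y, rfl⟩ := ht
        rw [s.g₁]
        exact Submodule.subset_span ⟨_, (e y).2, rfl⟩
      | zero =>
        rw [map_zero]
        exact Submodule.zero_mem _
      | add x y _ _ hx hy =>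
        rw [map_add]
        exact Submodule.add_mem _ hx hy
      | smul r x _ hx =>
        rw [Ψ₁.map_smul_of_tower, show r • Ψ₁ x = (r : ℂ) • Ψ₁ x by
          rw [← Complex.coe_smul]]
        exact Submodule.smul_mem _ _ hx
  have h4 : ∀ z : ℂ, finrank ℂ (Module.End.eigenspace Ψ' z) =
      finrank ℂ ↥(Submodule.span ℂ (per '' U) ⊓ Module.End.eigenspace Ψ z) := by
    intro z
    have h5 : (Module.End.eigenspace Ψ' z).map Ψ₁ =
        Submodule.span ℂ (per '' U) ⊓ Module.End.eigenspace Ψ z := by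
      rw [h3]
      ext x
      constructor
      · rintro ⟨t, ht, rfl⟩
        refine ⟨⟨t, rfl⟩, ?_⟩
        rw [SetLike.mem_coe, Module.End.mem_eigenspace_iff] at ht ⊢
        rw [h2, ht, map_smul]
      · rintro ⟨⟨t, rfl⟩, ht⟩
        refine ⟨t, ?_, rfl⟩
        rw [SetLike.mem_coe, Module.End.mem_eigenspace_iff] at ht ⊢
        apply hinj
        rw [← h2, ht, map_smul]
    rw [← h5]
    exact (Submodule.equivMapOfInjective Ψ₁ hinj _).finrank_eq
  exact ⟨Ψ', h1, h4⟩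

/-- Coprime multiplicities. -/
theorem cop (hT : JTang3) (hr : IsCoprimeSub per U) : CopM2 Z' := by
  obtain ⟨b, Ψ, hΨ, hb, hσ, hc⟩ := hr
  obtain ⟨Ψ', h1, h4⟩ := s.tang h' hΨ
  refine ⟨(Φ e).symm b, s.maxM h' hb, ?_, fun z hz => ?_⟩
  · rw [minpoly.algEquiv_eq (Φ e).symm b]
    exact hσ
  · rw [minpoly.algEquiv_eq (Φ e).symm b] at hz
    have h5 := hc z hz
    rw [← h4, ← h4] at h5
    rcases (hT a Z' h' ((Φ e).symm b) Ψ' h1 z).2 with ⟨h6, h7⟩ | ⟨h6, h7⟩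
    · rw [h6, h7] at h5
      exact h5
    · rw [h6, h7] at h5
      exact h5.symm

/-- Multiplicities two. -/
theorem twoTwo (hT : JTang3) (hr : IsTwoTwoSub per U) : TwoTwoM Z' := by
  obtain ⟨b, Ψ, hΨ, hb, hσ, hc⟩ := hr
  obtain ⟨Ψ', h1, h4⟩ := s.tang h' hΨ
  refine ⟨(Φ e).symm b, s.comm h' hΨ, ?_, ?_, fun z hz => ?_⟩
  · intro ψ hψ
    have h5 := hb _ (s.endo h' hψ)
    have h6 : (Φ e).symm (Φ e ψ) ∈ (Algebra.adjoin ℚ ({b} : Set (Module.End ℚ U))).map
        ((Φ e).symm : Module.End ℚ U →ₐ[ℚ] _) := ⟨_, h5, rfl⟩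
    rw [AlgHom.map_adjoin, AlgEquiv.symm_apply_apply] at h6
    rw [Set.image_singleton] at h6
    exact h6
  · rw [minpoly.algEquiv_eq (Φ e).symm b]
    exact hσ
  · rw [minpoly.algEquiv_eq (Φ e).symm b] at hz
    have hz' : starRingEnd ℂ z ∈ (minpoly ℚ b).aroots ℂ := by
      rw [Polynomial.mem_aroots] at hz ⊢
      refine ⟨hz.1, ?_⟩
      have h5 := Polynomial.hom_eval₂ (minpoly ℚ b) (algebraMap ℚ ℂ) (starRingEnd ℂ) z
      have h6 : (starRingEnd ℂ).comp (algebraMap ℚ ℂ) = algebraMap ℚ ℂ :=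
        Subsingleton.elim _ _
      rw [h6] at h5
      rw [Polynomial.aeval_def, ← h5, ← Polynomial.aeval_def, hz.2, map_zero]
    have h5 := (hc z hz).2
    have h6 := (hc _ hz').2
    rw [← h4] at h5 h6
    refine ⟨(hc z hz).1, ?_⟩
    rcases (hT a Z' h' ((Φ e).symm b) Ψ' h1 z).2 with ⟨h7, h8⟩ | ⟨h7, h8⟩
    · rw [h5] at h7
      rw [h6] at h8
      exact ⟨h7.symm, h8.symm⟩
    · rw [h5] at h7
      rw [h6] at h8
      exact ⟨h8.symm, h7.symm⟩

end Sd

/-- **The simple factors of the period matrix.** -/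
theorem jgood3 : JTang3 → JGood3 := by
  intro hT H T _ _ _ _ per G Z A hC hs a Z' E F hfac h' hsim ha
  obtain ⟨U, e, Ψ₁, Ψ₂, s⟩ := exists_sd A hC hfac h' hsim ha
  rcases hs U s.sim with h1 | h1 | ⟨p, hp, h1⟩ | h1 | h1 | h1
  · exact Or.inl (s.hasCM h' ha h1)
  · right; left
    rw [s.rank] at h1
    omega
  · right; right; left
    rw [s.rank] at h1
    rwa [show a = p by omega]
  · right; right; right; left
    exact s.realOddM h' h1
  · right; right; right; right; left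
    exact s.cop h' hT h1
  · right; right; right; right; right
    exact s.twoTwo h' hT h1

end

end Pool.Agent.Y4.P.G3
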