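import Mathlib
import Pool.Agent.Y4.P.Uni

/-!
# Multiplicities without a common divisor
-/

set_option autoImplicit false
set_option linter.unusedSectionVars false

namespace Pool.Agent.Y4.Q

open Matrix Module Pool.Agent.Y90 Pool.Agent.W437.HC Pool.Agent.W437.HD
  Pool.Agent.TH504.CB Pool.Agent.W522.U
open Pool.Agent.W548.Odd hiding cv
open Pool.Agent.Y4.P (MaxM EigM mem_eigM cjS_eigM root_aut exists_herm JSpec)

noncomputable section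

variable {g : ℕ} {Z : Matrix (Fin g) (Fin g) ℂ}

/-- Rank one elements: the multiplicities have no common divisor with the dimension. -/
def JGcd : Prop :=
  ∀ (g : ℕ) (Z : Matrix (Fin g) (Fin g) ℂ) (_h : PM Z) (U : Submodule ℂ (Fin g ⊕ Fin g → ℂ))
    (_hU : IrS (LZ Z) U) (_hn : ¬SDu Z U) (_hp : 0 < pd Z U) (_hq : 0 < qd Z U)
    (_hg : ∀ σ : ℂ ≃+* ℂ, 0 < pd Z (cjS σ U) → 0 < qd Z (cjS σ U) →
      ¬(pd Z U + qd Z U ∣
        (pd Z U).gcd (qd Z U) * (pd Z (cjS σ U)).gcd (qd Z (cjS σ U))))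
    (_hx : (pd Z U ≠ qd Z U ∧ ∀ n a : ℕ, 1 < a → a < n →
        ¬(pd Z U = n.choose a ∧ qd Z U = n.choose (a - 1))) ∨
      (pd Z U = qd Z U ∧ (∀ m : ℕ, 1 ≤ m → pd Z U ≠ 2 ^ m) ∧
        ∀ σ : ℂ ≃+* ℂ, pd Z (cjS σ U) = qd Z (cjS σ U))), Rk1 Z U

/-- The multiplicities have no common divisor with the dimension. -/
def GcdM {g : ℕ} (Z : Matrix (Fin g) (Fin g) ℂ) : Prop :=
  ∃ φ, MaxM Z φ ∧ CMM φ ∧ ∃ z ∈ (minpoly ℚ φ).aroots ℂ, ∃ p q : ℕ,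
    pd Z (EigM φ z) = p ∧ qd Z (EigM φ z) = q ∧ 0 < p ∧ 0 < q ∧
    (∀ w ∈ (minpoly ℚ φ).aroots ℂ, 0 < pd Z (EigM φ w) → 0 < qd Z (EigM φ w) →
      ¬(p + q ∣ p.gcd q * (pd Z (EigM φ w)).gcd (qd Z (EigM φ w)))) ∧
    ((p ≠ q ∧ ∀ n a : ℕ, 1 < a → a < n → ¬(p = n.choose a ∧ q = n.choose (a - 1))) ∨
      (p = q ∧ (∀ m : ℕ, 1 ≤ m → p ≠ 2 ^ m) ∧
        (∀ w ∈ (minpoly ℚ φ).aroots ℂ, pd Z (EigM φ w) = qd Z (EigM φ w)) ∧
        ∃ (c : Matrix (Fin g ⊕ Fin g) (Fin g ⊕ Fin g) ℚ) (k : ℂ),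
          qm c * DZ Z = DZ Z * qm c ∧
          (∀ ψ : Matrix (Fin g ⊕ Fin g) (Fin g ⊕ Fin g) ℚ, qm ψ * DZ Z = DZ Z * qm ψ →
            ψ * c = c * ψ) ∧ k ∈ (minpoly ℚ c).aroots ℂ ∧ k.im ≠ 0))

/-- Self-dual submodules have equal multiplicities. -/
theorem pd_eq_qd (h : PM Z) {U : Submodule ℂ (Fin g ⊕ Fin g → ℂ)} (hU : IrS (LZ Z) U)
    (hd : SDu Z U) : pd Z U = qd Z U := by
  obtain ⟨b, h0, hb⟩ := hd
  have htr := tr_dual h hU hU h0 hb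
  unfold tr at htr
  omega

theorem qm_conjT (c : Matrix (Fin g ⊕ Fin g) (Fin g ⊕ Fin g) ℚ) : (qm c)ᴴ = (qm c)ᵀ := by
  ext i j
  simp [qm, conjTranspose_apply]

/-- Symmetric endomorphisms have real eigenvalues. -/
theorem real_of_ros (h : PM Z) {c : Matrix (Fin g ⊕ Fin g) (Fin g ⊕ Fin g) ℚ}
    (hc : qm c * DZ Z = DZ Z * qm c) (hr : ros c = c) {k : ℂ} {v : Fin g ⊕ Fin g → ℂ}
    (hv : v ≠ 0) (hk : qm c *ᵥ v = k • v) : k.im = 0 := by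
  obtain ⟨S, hS, hp⟩ := exists_herm h
  have hOO : Om g ℂ * Om g ℂ = -1 := Om_sq ℂ
  have h1 : qm (ros c) = qm c := by rw [hr]
  rw [qm_ros] at h1
  have h2 : (qm c)ᵀ * Om g ℂ = Om g ℂ * qm c := by
    calc (qm c)ᵀ * Om g ℂ = -(Om g ℂ * Om g ℂ) * ((qm c)ᵀ * Om g ℂ) := by
          rw [hOO, neg_neg, Matrix.one_mul]
      _ = Om g ℂ * -(Om g ℂ * (qm c)ᵀ * Om g ℂ) := by noncomm_ring
      _ = Om g ℂ * qm c := by rw [h1]
  have h3 : (qm c)ᴴ * S = S * qm c := by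
    rw [qm_conjT, hS, ← Matrix.mul_assoc, h2, Matrix.mul_assoc, Matrix.mul_assoc]
    congr 1
    rw [Matrix.mul_smul, Matrix.smul_mul, hc]
  have h4 : star (qm c *ᵥ v) ⬝ᵥ (S *ᵥ v) = star v ⬝ᵥ (S *ᵥ (qm c *ᵥ v)) := by
    rw [star_mulVec, ← dotProduct_mulVec, mulVec_mulVec, h3, mulVec_mulVec]
  rw [hk, star_smul, smul_dotProduct, mulVec_smul, dotProduct_smul, smul_eq_mul,
    smul_eq_mul] at h4
  have h5 : (star k - k) * (star v ⬝ᵥ (S *ᵥ v)) = 0 := by linear_combination h4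
  have h6 := (mul_eq_zero.1 h5).resolve_right fun h0 => hv (hp v h0)
  exact Complex.conj_eq_iff_im.1 (sub_eq_zero.1 h6)

/-- Irreducible submodules on which a skew central endomorphism acts by a nonzero number are not
self-dual. -/
theorem not_sdu_central (h : PM Z) {c : Matrix (Fin g ⊕ Fin g) (Fin g ⊕ Fin g) ℚ}
    (hcen : ∀ ψ : Matrix (Fin g ⊕ Fin g) (Fin g ⊕ Fin g) ℚ, qm ψ * DZ Z = DZ Z * qm ψ →
      ψ * c = c * ψ) (hr : ros c = -c)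
    {U : Submodule ℂ (Fin g ⊕ Fin g → ℂ)} (hW : Stab (LZ Z) U) {k : ℂ} (hk0 : k ≠ 0)
    (hk : ∀ u ∈ U, qm c *ᵥ u = k • u) : ¬SDu Z U := by
  have hsk : ∀ u v : Fin g ⊕ Fin g → ℂ, om g (qm c *ᵥ u) v = -om g u (qm c *ᵥ v) := by
    intro u v
    have hOO : Om g ℂ * Om g ℂ = -1 := Om_sq ℂ
    have h1 : qm (ros c) = -qm c := by rw [hr, qm_neg]
    rw [qm_ros, neg_inj] at h1
    have h2 : (qm c)ᵀ * Om g ℂ = -(Om g ℂ * qm c) := by
      calc (qm c)ᵀ * Om g ℂ = -(Om g ℂ * Om g ℂ) * ((qm c)ᵀ * Om g ℂ) := by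
            rw [hOO, neg_neg, Matrix.one_mul]
        _ = -(Om g ℂ * (Om g ℂ * (qm c)ᵀ * Om g ℂ)) := by noncomm_ring
        _ = -(Om g ℂ * qm c) := by rw [h1]
    have h3 : (qm c *ᵥ u) ⬝ᵥ (Om g ℂ *ᵥ v) = u ⬝ᵥ (((qm c)ᵀ * Om g ℂ) *ᵥ v) := by
      rw [← mulVec_mulVec, dotProduct_mulVec u, vecMul_transpose]
    rw [om_apply, om_apply, h3, h2, neg_mulVec, dotProduct_neg, mulVec_mulVec]
  rintro ⟨b, ⟨u0, hu0, v0, hv0, hb0⟩, hb⟩
  obtain ⟨p, p1, p2, p3⟩ := h.cred _ hW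
  have hOO : Om g ℂ * Om g ℂ = -1 := Om_sq ℂ
  let M : Matrix (Fin g ⊕ Fin g) (Fin g ⊕ Fin g) ℂ :=
    Matrix.of fun i j => b (p (Pi.single i 1)) (p (Pi.single j 1))
  have hM : ∀ u v, u ⬝ᵥ (M *ᵥ v) = b (p u) (p v) := by
    intro u v
    have h1 : ∀ w : Fin g ⊕ Fin g → ℂ, p w = ∑ i, w i • p (Pi.single i 1) := by
      intro w
      conv_lhs => rw [← (Pi.basisFun ℂ (Fin g ⊕ Fin g)).sum_repr w]
      rw [map_sum]
      refine Finset.sum_congr rfl fun i _ => ?_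
      rw [map_smul, Pi.basisFun_apply, Pi.basisFun_repr]
    rw [h1 u, h1 v]
    simp only [map_sum, LinearMap.sum_apply, map_smul, LinearMap.smul_apply, smul_eq_mul,
      dotProduct, mulVec, M, Matrix.of_apply, Finset.mul_sum]
    rw [Finset.sum_comm]
    refine Finset.sum_congr rfl fun i _ => Finset.sum_congr rfl fun j _ => ?_
    ring
  have hinv : ∀ X ∈ LZ Z, Xᵀ * M + M * X = 0 := by
    intro X hX
    have h1 : ∀ u v, u ⬝ᵥ ((Xᵀ * M + M * X) *ᵥ v) = 0 := by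
      intro u v
      rw [add_mulVec, dotProduct_add, ← mulVec_mulVec, ← mulVec_mulVec, dotProduct_mulVec,
        ← mulVec_transpose, transpose_transpose, hM, hM, p1 X hX, p1 X hX]
      exact hb X hX _ (p2 u) _ (p2 v)
    ext i j
    have h2 := h1 (Pi.single i 1) (Pi.single j 1)
    simpa using h2
  let S : Matrix (Fin g ⊕ Fin g) (Fin g ⊕ Fin g) ℂ := -(Om g ℂ * M)
  have hS : ∀ u v, om g u (S *ᵥ v) = b (p u) (p v) := by
    intro u v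
    have h1 : Om g ℂ * S = M := by
      change Om g ℂ * -(Om g ℂ * M) = M
      rw [Matrix.mul_neg, ← Matrix.mul_assoc, hOO, Matrix.neg_mul, Matrix.one_mul, neg_neg]
    rw [om_apply, mulVec_mulVec, h1, hM]
  have hScm : InCm {DZ Z} S := by
    intro X hX
    have h1 : Xᵀ * Om g ℂ + Om g ℂ * X = 0 := h.sp hX
    have h2 : Xᵀ * M = -(M * X) := eq_neg_of_add_eq_zero_left (hinv X hX)
    have h3 : Om g ℂ * Xᵀ = -(X * Om g ℂ) := by
      have h4 : Om g ℂ * X = -(Xᵀ * Om g ℂ) := eq_neg_of_add_eq_zero_right h1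
      calc Om g ℂ * Xᵀ = -(Om g ℂ * (Xᵀ * (Om g ℂ * Om g ℂ))) := by
            rw [hOO]
            noncomm_ring
        _ = Om g ℂ * (-(Xᵀ * Om g ℂ)) * Om g ℂ := by noncomm_ring
        _ = Om g ℂ * Om g ℂ * X * Om g ℂ := by
            rw [← h4]
            noncomm_ring
        _ = -(X * Om g ℂ) := by
            rw [hOO]
            noncomm_ring
    change -(Om g ℂ * M) * X = X * -(Om g ℂ * M)
    calc -(Om g ℂ * M) * X = Om g ℂ * -(M * X) := by noncomm_ring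
      _ = Om g ℂ * Xᵀ * M := by
          rw [← h2]
          noncomm_ring
      _ = X * -(Om g ℂ * M) := by
          rw [h3]
          noncomm_ring
  -- `S` commutes with `c`
  have hSc : ∀ X, InCm {DZ Z} X → X * qm c = qm c * X := by
    refine Cm_induction ?_ ?_ ?_ ?_
    · intro u hu
      rw [← qm_mul, ← qm_mul, hcen u (hu _ DZ_mem)]
    · rw [Matrix.zero_mul, Matrix.mul_zero]
    · intro X Y hX hY
      rw [Matrix.add_mul, Matrix.mul_add, hX, hY]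
    · intro a X hX
      rw [Matrix.smul_mul, Matrix.mul_smul, hX]
  have h1 : om g (qm c *ᵥ u0) (S *ᵥ v0) = -om g u0 (S *ᵥ (qm c *ᵥ v0)) := by
    rw [hsk, mulVec_mulVec, mulVec_mulVec, hSc S hScm]
  rw [hk u0 hu0, hk v0 hv0, mulVec_smul, map_smul, LinearMap.smul_apply, map_smul, smul_eq_mul,
    hS, p3 u0 hu0, p3 v0 hv0] at h1
  have h2 : (2 * k) * b u0 v0 = 0 := by linear_combination h1
  rcases mul_eq_zero.1 h2 with h3 | h3
  · exact hk0 (by simpa using h3)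
  · exact hb0 h3

/-- Eigenspaces are not self-dual if a central endomorphism has an eigenvalue which is not real. -/
theorem not_sdu_nonreal (h : PM Z) (hs : IsSimpleAV Z)
    {φ : Matrix (Fin g ⊕ Fin g) (Fin g ⊕ Fin g) ℚ} (hφ : MaxM Z φ)
    {c : Matrix (Fin g ⊕ Fin g) (Fin g ⊕ Fin g) ℚ} (hc : qm c * DZ Z = DZ Z * qm c)
    (hcen : ∀ ψ : Matrix (Fin g ⊕ Fin g) (Fin g ⊕ Fin g) ℚ, qm ψ * DZ Z = DZ Z * qm ψ →
      ψ * c = c * ψ) {k : ℂ} (hk : k ∈ (minpoly ℚ c).aroots ℂ) (hki : k.im ≠ 0) {z : ℂ}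
    (hU : IrS (LZ Z) (EigM φ z)) : ¬SDu Z (EigM φ z) := by
  -- the skew part
  obtain ⟨d, hd⟩ : ∃ d, d = c - ros c := ⟨_, rfl⟩
  have hrc := ros_comm h hc
  have hdc : qm d * DZ Z = DZ Z * qm d := by
    have h1 : qm d = qm c - qm (ros c) := by
      rw [hd]
      ext i j
      simp [qm]
    rw [h1, Matrix.sub_mul, Matrix.mul_sub, hc, hrc]
  have hdcen : ∀ ψ : Matrix (Fin g ⊕ Fin g) (Fin g ⊕ Fin g) ℚ, qm ψ * DZ Z = DZ Z * qm ψ →
      ψ * d = d * ψ := by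
    intro ψ hψ
    have h1 := hcen _ (ros_comm h hψ)
    have h2 : ψ * ros c = ros c * ψ := by
      have h3 := congrArg ros h1
      rw [ros_mul, ros_mul, ros_ros] at h3
      exact h3.symm
    rw [hd, Matrix.mul_sub, Matrix.sub_mul, hcen ψ hψ, h2]
  have hdr : ros d = -d := by
    have h1 : ros d = ros c - c := by
      rw [hd, sub_eq_add_neg, ros_add, ros_neg, ros_ros, sub_eq_add_neg]
    rw [h1, hd, neg_sub]
  have hd0 : d ≠ 0 := by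
    intro h0
    have hrcc : ros c = c := (sub_eq_zero.1 (hd ▸ h0)).symm
    -- an eigenvector
    obtain ⟨v, hv, hv0⟩ := Submodule.exists_mem_ne_zero_of_ne_bot
      (Y261.P.EigM_ne (Y261.P.mem_Rt.2 hk))
    exact hki (real_of_ros h hc hrcc hv0 (mem_eigM.1 hv))
  obtain ⟨p, hp⟩ := Y261.P.mem_adj (hφ.2 d hdc (hdcen φ hφ.1).symm)
  have hkk : ∀ u ∈ EigM φ z, qm d *ᵥ u = Polynomial.aeval z p • u := by
    intro u hu
    rw [hp, Y261.P.qm_aeval]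
    exact Y261.P.aeval_mulVec (mem_eigM.1 hu) p
  refine not_sdu_central h hdcen hdr hU.2.1 (k := Polynomial.aeval z p) ?_ hkk
  intro h0
  rw [h0] at hkk
  obtain ⟨v, hv, hv0⟩ := Submodule.exists_mem_ne_zero_of_ne_bot hU.1
  have h1 : qm d *ᵥ v = 0 := by rw [hkk v hv, zero_smul]
  rcases Y261.P.div_of_comm h hs hdc with h2 | h2
  · exact hd0 h2
  · obtain ⟨y, hy⟩ := h2.exists_left_inv
    apply hv0
    rw [← Matrix.one_mulVec v, ← hy, ← mulVec_mulVec, h1, mulVec_zero]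

/-- The multiplicities are not exceptional. -/
def NonExc2 (p q : ℕ) : Prop :=
  2 ≤ p + q ∧ (∀ d m : ℕ, 2 ≤ d → 1 ≤ m → d ^ (m + 1) = p + q → ¬d ^ m ∣ p) ∧
    (p ≠ q → ∀ m i : ℕ, 1 < i → i < m → ¬(p = m.choose i ∧ q = m.choose (i - 1)))

/-- Rank one elements: the centre is an imaginary quadratic field, the multiplicities are not
exceptional. -/
def JUni2 : Prop :=
  ∀ (g : ℕ) (Z : Matrix (Fin g) (Fin g) ℂ) (_h : PM Z) (_hg : 0 < g) (D : ℚ)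
    (c : Matrix (Fin g ⊕ Fin g) (Fin g ⊕ Fin g) ℚ) (_hc : ImQ Z D c)
    (U : Submodule ℂ (Fin g ⊕ Fin g → ℂ)) (_hU : IrS (LZ Z) U) (k : ℂ)
    (_hk : ∀ u ∈ U, qm c *ᵥ u = k • u) (_hx : NonExc2 (pd Z U) (qd Z U)), Rk1 Z U

/-- The centre is an imaginary quadratic field, the multiplicities are not exceptional. -/
def UniM2 {g : ℕ} (Z : Matrix (Fin g) (Fin g) ℂ) : Prop :=
  (∃ (D : ℚ) (c : Matrix (Fin g ⊕ Fin g) (Fin g ⊕ Fin g) ℚ), ImQ Z D c) ∧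
    ∃ φ, MaxM Z φ ∧ CMM φ ∧
      ∃ z ∈ (minpoly ℚ φ).aroots ℂ, NonExc2 (pd Z (EigM φ z)) (qd Z (EigM φ z))

theorem uniM2_big (hSp : JSpec) (hUn : JUni2) (h : PM Z) (hs : IsSimpleAV Z) (hg : 0 < g)
    (hc : UniM2 Z) : BigM Z := by
  obtain ⟨⟨D, c, hc⟩, φ, hφ, hcm, w, hw, hx⟩ := hc
  obtain ⟨s1, s2, s3⟩ := hSp g Z h hs hg φ hφ
  refine ⟨φ, hφ, hcm, w, hw, ?_⟩
  obtain ⟨p, hp⟩ := Y261.P.mem_adj (hφ.2 c hc.2.1 (hc.2.2.2.1 φ hφ.1).symm)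
  have hk : ∀ u ∈ EigM φ w, qm c *ᵥ u = Polynomial.aeval w p • u := by
    intro u hu
    rw [hp, Y261.P.qm_aeval]
    exact Y261.P.aeval_mulVec (mem_eigM.1 hu) p
  exact hUn g Z h hg D c hc _ (s1 w hw).1 _ hk hx

theorem gcdM_big (hSp : JSpec) (hG : JGcd) (h : PM Z) (hs : IsSimpleAV Z) (hg : 0 < g)
    (hc : GcdM Z) : BigM Z := by
  obtain ⟨φ, hφ, hcm, z, hz, p, q, hp, hq, hp0, hq0, hgcd, hx⟩ := hc
  obtain ⟨s1, s2, s3⟩ := hSp g Z h hs hg φ hφ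
  refine ⟨φ, hφ, hcm, z, hz, ?_⟩
  have hn : ¬SDu Z (EigM φ z) := by
    rcases hx with ⟨hpq, -⟩ | ⟨-, -, -, c, k, hc, hcen, hk, hki⟩
    · intro hd
      have h1 := pd_eq_qd h (s1 z hz).1 hd
      rw [hp, hq] at h1
      exact hpq h1
    · exact not_sdu_nonreal h hs hφ hc hcen hk hki (s1 z hz).1
  refine hG g Z h _ (s1 z hz).1 hn (by rw [hp]; exact hp0) (by rw [hq]; exact hq0) ?_ ?_
  · intro σ h1 h2
    rw [cjS_eigM] at h1 h2 ⊢
    rw [hp, hq]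
    exact hgcd _ (root_aut hz σ) h1 h2
  · rw [hp, hq]
    rcases hx with hx | ⟨h1, h2, h3, -⟩
    · exact Or.inl hx
    · refine Or.inr ⟨h1, h2, fun σ => ?_⟩
      rw [cjS_eigM]
      exact h3 _ (root_aut hz σ)

end

end Pool.Agent.Y4.Q
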