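import Mathlib
import Pool.Agent.Y4.P.Goo
import Pool.Agent.Y4.P.Jobs4
import Pool.Agent.Y4.P.Cls4
import Pool.Agent.Y261.P.Tang0
import Pool.Agent.Y90.Pie2

/-!
# Large Hodge Lie algebras
-/

set_option autoImplicit false
set_option linter.unusedSectionVars false

namespace Pool.Agent.Y4.Q

open Matrix Module Pool.Agent.Y90 Pool.Agent.W437.HC Pool.Agent.W437.HD
open Pool.Agent.W548.Odd hiding cv
open Pool.Agent.Y4.P (MaxM EigM mem_eigM cjS_eigM)
open Pool.Agent.Y4.P.G3 (Sd)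
open Pool.Agent.Y4.P.G3.Sd (Φ)
open Pool.Agent.Y261.P (perC perC_rat qm_cast perC_comp perC_surj ker_perC perC_zero perC_eig)

noncomputable section

section mat

variable {g : ℕ} {Z : Matrix (Fin g) (Fin g) ℂ}

theorem qmadd (A B : Matrix (Fin g ⊕ Fin g) (Fin g ⊕ Fin g) ℚ) : qm (A + B) = qm A + qm B := by
  ext i j
  simp [qm]

theorem qmsmul (q : ℚ) (A : Matrix (Fin g ⊕ Fin g) (Fin g ⊕ Fin g) ℚ) :
    qm (q • A) = (q : ℂ) • qm A := by
  ext i j
  simp [qm]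

/-- The complex structure is a real combination of rational elements of the Lie algebra. -/
theorem exists_real (Z : Matrix (Fin g) (Fin g) ℂ) :
    ∃ (m : ℕ) (r : Fin m → ℝ) (R : Fin m → Matrix (Fin g ⊕ Fin g) (Fin g ⊕ Fin g) ℚ),
      (∀ j, qm (R j) ∈ LZ Z) ∧ cm (JR Z) = ∑ j, (r j : ℂ) • qm (R j) := by
  have h1 : DZ Z ∈ Submodule.span ℂ {X : Matrix (Fin g ⊕ Fin g) (Fin g ⊕ Fin g) ℂ |
      ∃ R : Matrix (Fin g ⊕ Fin g) (Fin g ⊕ Fin g) ℚ, qm R ∈ LZ Z ∧ X = qm R} :=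
    rational_induction (p := fun X => X ∈ Submodule.span ℂ
      {X : Matrix (Fin g ⊕ Fin g) (Fin g ⊕ Fin g) ℂ |
        ∃ R : Matrix (Fin g ⊕ Fin g) (Fin g ⊕ Fin g) ℚ, qm R ∈ LZ Z ∧ X = qm R}) (LZ Z)
      (fun σ X hX => gal_LZ σ X hX) (fun u hu => Submodule.subset_span ⟨u, hu, rfl⟩)
      (Submodule.zero_mem _) (fun X Y hX hY => Submodule.add_mem _ hX hY)
      (fun c X hX => Submodule.smul_mem _ c hX) _ DZ_mem
  obtain ⟨m, f, y, hy⟩ := Submodule.mem_span_set'.1 h1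
  choose R hR1 hR2 using fun j => (y j).2
  refine ⟨m, fun j => (Complex.I * f j).re, R, hR1, ?_⟩
  have hJD : cm (JR Z) = Complex.I • DZ Z := by
    change _ = Complex.I • ((-Complex.I) • cm (JR Z))
    rw [smul_smul, show Complex.I * -Complex.I = 1 by simp, one_smul]
  have h2 : cm (JR Z) = ∑ j, (Complex.I * f j) • qm (R j) := by
    rw [hJD, ← hy, Finset.smul_sum]
    refine Finset.sum_congr rfl fun j _ => ?_
    rw [smul_smul, hR2]
  ext i k
  have h3 := congrFun (congrFun h2 i) k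
  rw [Matrix.sum_apply] at h3 ⊢
  have h4 : cm (JR Z) i k = ((JR Z i k : ℝ) : ℂ) := rfl
  rw [h4] at h3 ⊢
  have h5 := congrArg Complex.re h3
  rw [Complex.ofReal_re, Complex.re_sum] at h5
  rw [h5]
  push_cast
  refine Finset.sum_congr rfl fun j _ => ?_
  simp only [Matrix.smul_apply, smul_eq_mul, qm, Matrix.map_apply]
  apply Complex.ext
  · simp
  · simp

theorem perC_DZ (h : PM Z) (v : Fin g ⊕ Fin g → ℂ) : perC Z (DZ Z *ᵥ v) = perC Z v := by
  have h1 : v ∈ eig Z 1 ⊔ eig Z (-1) := by rw [eig_sup h]; trivial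
  obtain ⟨a, ha, b, hb, rfl⟩ := Submodule.mem_sup.1 h1
  have hb' := hb
  rw [← ker_perC h, LinearMap.mem_ker] at hb'
  rw [mulVec_add, mem_eig.1 ha, mem_eig.1 hb, map_add, map_add, map_smul, map_smul, hb',
    smul_zero, one_smul]

/-- The complex structure on rational vectors. -/
theorem perOne_I (h : PM Z) {m : ℕ} {r : Fin m → ℝ}
    {R : Fin m → Matrix (Fin g ⊕ Fin g) (Fin g ⊕ Fin g) ℚ}
    (hR : cm (JR Z) = ∑ j, (r j : ℂ) • qm (R j)) (v : Fin g ⊕ Fin g → ℚ) :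
    Complex.I • perOne Z v = ∑ j, (r j : ℂ) • perOne Z (R j *ᵥ v) := by
  have h1 : ∀ j, perOne Z (R j *ᵥ v) = perC Z (qm (R j) *ᵥ fun i => ((v i : ℚ) : ℂ)) := by
    intro j
    rw [qm_cast, perC_rat]
  have hJD : cm (JR Z) = Complex.I • DZ Z := by
    change _ = Complex.I • ((-Complex.I) • cm (JR Z))
    rw [smul_smul, show Complex.I * -Complex.I = 1 by simp, one_smul]
  have h2 : ∑ j, (r j : ℂ) • perC Z (qm (R j) *ᵥ fun i => ((v i : ℚ) : ℂ)) =
      perC Z ((∑ j, (r j : ℂ) • qm (R j)) *ᵥ fun i => ((v i : ℚ) : ℂ)) := by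
    rw [Matrix.sum_mulVec, map_sum]
    refine Finset.sum_congr rfl fun j _ => ?_
    rw [smul_mulVec, map_smul]
  simp only [h1]
  rw [h2, ← hR, hJD, smul_mulVec, map_smul, perC_DZ h, perC_rat]

variable {m : ℕ} {c : Fin m → ℂ} {R : Fin m → Matrix (Fin g ⊕ Fin g) (Fin g ⊕ Fin g) ℚ}
  {M : (Fin g → ℂ) →ₛₗ[starRingEnd ℂ] (Fin g → ℂ)}

/-- A conjugate linear map which comes from an operator on the homology. -/
theorem perC_conj (hM : ∀ v, M (perOne Z v) = ∑ j, c j • perOne Z (R j *ᵥ v))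
    (v : Fin g ⊕ Fin g → ℂ) :
    perC Z ((∑ j, c j • qm (R j)) *ᵥ v) = M (perC Z (star v)) := by
  let F : (Fin g ⊕ Fin g → ℂ) →ₗ[ℂ] (Fin g → ℂ) :=
    { toFun := fun v => M (perC Z (star v))
      map_add' := fun v w => by rw [star_add, map_add, map_add]
      map_smul' := fun x v => by
        rw [star_smul, map_smul, M.map_smulₛₗ, RingHom.id_apply]
        congr 1
        exact Complex.conj_conj x }
  have h1 : (perC Z).comp (mulVecLin (∑ j, c j • qm (R j))) = F := by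
    refine (Pi.basisFun ℂ (Fin g ⊕ Fin g)).ext fun i => ?_
    have h2 : (Pi.basisFun ℂ (Fin g ⊕ Fin g)) i =
        fun j => (((Pi.single i 1 : Fin g ⊕ Fin g → ℚ) j : ℚ) : ℂ) := by
      funext j
      rw [Pi.basisFun_apply]
      by_cases hj : j = i
      · subst hj
        simp
      · simp [Pi.single_eq_of_ne hj]
    rw [h2, LinearMap.comp_apply, mulVecLin_apply]
    change _ = M (perC Z (star _))
    have h3 : star (fun j => (((Pi.single i 1 : Fin g ⊕ Fin g → ℚ) j : ℚ) : ℂ)) =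
        fun j => (((Pi.single i 1 : Fin g ⊕ Fin g → ℚ) j : ℚ) : ℂ) := by
      funext j
      simp
    rw [h3, perC_rat, hM, Matrix.sum_mulVec, map_sum]
    refine Finset.sum_congr rfl fun j _ => ?_
    rw [smul_mulVec, map_smul, qm_cast, perC_rat]
  exact LinearMap.congr_fun h1 v

/-- Rank one elements from conjugate linear maps of the tangent space. -/
theorem rk1_of_conj (h : PM Z) {φ : Matrix (Fin g ⊕ Fin g) (Fin g ⊕ Fin g) ℚ}
    {Ψ : (Fin g → ℂ) →ₗ[ℂ] (Fin g → ℂ)} (hΨ : ∀ v, Ψ (perOne Z v) = perOne Z (φ *ᵥ v))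
    (hR : ∀ j, qm (R j) ∈ LZ Z) (hM : ∀ v, M (perOne Z v) = ∑ j, c j • perOne Z (R j *ᵥ v))
    {z : ℂ} (h1 : finrank ℂ ((Module.End.eigenspace Ψ z).map M) = 1) :
    Rk1 Z (EigM φ (starRingEnd ℂ z)) := by
  have hc := Y261.P.comm_of_tangent h hΨ
  have hDD : DZ Z * DZ Z = 1 := DZ_sq h.det
  obtain ⟨X, hX⟩ : ∃ X, X = ∑ j, c j • qm (R j) := ⟨_, rfl⟩
  have hXm : X ∈ LZ Z := by
    rw [hX]
    exact Submodule.sum_mem _ fun j _ => Submodule.smul_mem _ _ (hR j)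
  obtain ⟨N, hN⟩ : ∃ N, N = (1 / 4 : ℂ) • ((1 + DZ Z) * X * (1 - DZ Z)) := ⟨_, rfl⟩
  have hDN : DZ Z * N = N := by
    rw [hN, Matrix.mul_smul, ← Matrix.mul_assoc, ← Matrix.mul_assoc, Matrix.mul_add, hDD,
      Matrix.mul_one, add_comm]
  have hND : N * DZ Z = -N := by
    rw [hN, Matrix.smul_mul, Matrix.mul_assoc, Matrix.sub_mul, hDD, Matrix.one_mul,
      ← smul_neg, ← Matrix.mul_neg, neg_sub]
  refine ⟨DZ Z, Or.inl rfl, N, by rw [hN]; exact up_mem h hXm, hDN, hND, ?_⟩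
  -- the operator `N` on the submodule
  obtain ⟨w, hw⟩ : ∃ w, w = starRingEnd ℂ z := ⟨_, rfl⟩
  rw [← hw]
  have hP : ∀ v, perC Z (N *ᵥ v) = M (perC Z (star ((1 / 2 : ℂ) • (v - DZ Z *ᵥ v)))) := by
    intro v
    have e1 : N *ᵥ v = (1 / 4 : ℂ) • ((1 + DZ Z) *ᵥ (X *ᵥ (v - DZ Z *ᵥ v))) := by
      rw [hN, smul_mulVec, ← mulVec_mulVec, ← mulVec_mulVec, sub_mulVec, one_mulVec]
    have e2 : ∀ x, perC Z ((1 + DZ Z) *ᵥ x) = (2 : ℂ) • perC Z x := by
      intro x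
      rw [add_mulVec, one_mulVec, map_add, perC_DZ h, two_smul]
    rw [e1, map_smul, e2, ← perC_conj hM, ← hX, mulVec_smul, map_smul, smul_smul]
    norm_num
  have hstar : ∀ v, DZ Z *ᵥ star v = -star (DZ Z *ᵥ v) := by
    intro v
    have e1 : (DZ Z).map (cc : ℂ → ℂ) = -DZ Z := by
      ext i j
      change starRingEnd ℂ ((-Complex.I) * ((JR Z i j : ℝ) : ℂ)) =
        -((-Complex.I) * ((JR Z i j : ℝ) : ℂ))
      rw [map_mul, map_neg, Complex.conj_I, Complex.conj_ofReal]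
      ring
    have e2 := map_mulVec_aut cc (DZ Z) v
    rw [e1] at e2
    have e3 : star (DZ Z *ᵥ v) = fun i => cc ((DZ Z *ᵥ v) i) := rfl
    have e4 : star v = fun i => cc (v i) := rfl
    rw [e3, e2, neg_mulVec, neg_neg, e4]
  have hstarE : ∀ v, v ∈ EigM φ w → star v ∈ EigM φ z := by
    intro v hv
    have e2 := map_mulVec_aut cc (qm φ) v
    rw [show (qm φ).map (cc : ℂ → ℂ) = qm φ from qm_aut φ (cc : ℂ →+* ℂ), mem_eigM.1 hv] at e2
    rw [mem_eigM]
    have e4 : star v = fun i => cc (v i) := rfl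
    rw [e4, ← e2]
    funext i
    have e5 : cc w = z := by
      rw [hw]
      exact Complex.conj_conj z
    simp [e5]
  have hstarE' : ∀ v, v ∈ EigM φ z → star v ∈ EigM φ w := by
    intro v hv
    have e2 := map_mulVec_aut cc (qm φ) v
    rw [show (qm φ).map (cc : ℂ → ℂ) = qm φ from qm_aut φ (cc : ℂ →+* ℂ), mem_eigM.1 hv] at e2
    rw [mem_eigM]
    have e4 : star v = fun i => cc (v i) := rfl
    rw [e4, ← e2]
    funext i
    have e5 : cc z = w := by
      rw [hw]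
      rfl
    simp [e5]
  have key : ((EigM φ w).map (mulVecLin N)).map (perC Z) =
      (Module.End.eigenspace Ψ z).map M := by
    ext x
    constructor
    · rintro ⟨_, ⟨v, hv, rfl⟩, rfl⟩
      refine ⟨perC Z (star ((1 / 2 : ℂ) • (v - DZ Z *ᵥ v))), ?_, (hP v).symm⟩
      rw [SetLike.mem_coe, Module.End.mem_eigenspace_iff, ← perC_comp hΨ]
      have e1 : (1 / 2 : ℂ) • (v - DZ Z *ᵥ v) ∈ EigM φ w := by
        refine Submodule.smul_mem _ _ (Submodule.sub_mem _ hv ?_)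
        rw [mem_eigM, mulVec_mulVec, hc, ← mulVec_mulVec, mem_eigM.1 hv, mulVec_smul]
      rw [mem_eigM.1 (hstarE _ e1), map_smul]
    · rintro ⟨t, ht, rfl⟩
      obtain ⟨v, hv, rfl⟩ := perC_eig h t
      rw [SetLike.mem_coe, Module.End.mem_eigenspace_iff, ← perC_comp hΨ, ← map_smul, ← sub_eq_zero,
        ← map_sub] at ht
      have hvz : v ∈ EigM φ z := by
        rw [mem_eigM, ← sub_eq_zero]
        refine perC_zero h ?_ ht
        refine (eig Z 1).sub_mem ?_ ((eig Z 1).smul_mem _ hv)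
        rw [mem_eig, mulVec_mulVec, ← hc, ← mulVec_mulVec, mem_eig.1 hv, one_smul, one_smul]
      refine ⟨N *ᵥ star v, ⟨star v, hstarE' v hvz, rfl⟩, ?_⟩
      rw [hP, hstar, mem_eig.1 hv, one_smul, sub_neg_eq_add, ← two_smul ℂ (star v), smul_smul]
      norm_num
  have hinj : ∀ v ∈ (EigM φ w).map (mulVecLin N), perC Z v = 0 → v = 0 := by
    rintro _ ⟨v, hv, rfl⟩ h0
    refine perC_zero h ?_ h0
    rw [mem_eig, one_smul, mulVecLin_apply, mulVec_mulVec, hDN]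
  rw [← key] at h1
  have h2 : finrank ℂ (((EigM φ w).map (mulVecLin N)).map (perC Z)) =
      finrank ℂ ((EigM φ w).map (mulVecLin N)) := by
    have e1 : Function.Injective ((perC Z).domRestrict ((EigM φ w).map (mulVecLin N))) := by
      rw [injective_iff_map_eq_zero]
      intro u hu
      exact Subtype.ext (hinj u u.2 hu)
    rw [← LinearMap.finrank_range_of_inj e1, LinearMap.range_domRestrict]
  rw [h2] at h1
  exact h1

end mat

variable {H T : Type} [AddCommGroup H] [Module ℚ H] [AddCommGroup T] [Module ℂ T] {per : H →+ T}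
  {a : ℕ} {Z' : Matrix (Fin a) (Fin a) ℂ} {U : Submodule ℚ H}
  {e : (Fin a ⊕ Fin a → ℚ) ≃ₗ[ℚ] U} {Ψ₁ : (Fin a → ℂ) →ₗ[ℂ] T} {Ψ₂ : T →ₗ[ℂ] (Fin a → ℂ)}

/-- The Hodge Lie algebra. -/
theorem hodge_mem (s : Sd per Z' U e Ψ₁ Ψ₂) (h' : PM Z') {x : Module.End ℚ U}
    (hx : InHodge per U x) : qm ((Φ e).symm x) ∈ LZ Z' := by
  let L : Submodule ℚ (U →ₗ[ℚ] U) :=
    { carrier := {y | qm ((Φ e).symm y) ∈ LZ Z'}
      zero_mem' := by
        change qm ((Φ e).symm 0) ∈ LZ Z'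
        rw [map_zero, qm_zero]
        exact Submodule.zero_mem _
      add_mem' := fun {y y'} hy hy' => by
        change qm ((Φ e).symm (y + y')) ∈ LZ Z'
        rw [map_add, qmadd]
        exact Submodule.add_mem _ hy hy'
      smul_mem' := fun q y hy => by
        change qm ((Φ e).symm (q • y)) ∈ LZ Z'
        rw [map_smul, qmsmul]
        exact Submodule.smul_mem _ _ hy }
  have h1 : x ∈ L := by
    refine hx L (fun y hy y' hy' => ?_) ?_
    · change qm ((Φ e).symm (y * y' - y' * y)) ∈ LZ Z'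
      rw [map_sub, map_mul, map_mul, qm_sub, qm_mul, qm_mul]
      exact LZ_br hy hy'
    · obtain ⟨m, r, R, hR1, hR2⟩ := exists_real Z'
      refine ⟨m, r, fun j => Φ e (R j), fun j => ?_, fun u => ?_⟩
      · change qm ((Φ e).symm (Φ e (R j))) ∈ LZ Z'
        rw [AlgEquiv.symm_apply_apply]
        exact hR1 j
      · have h2 := perOne_I h' hR2 (e.symm u)
        have h3 := congrArg Ψ₁ h2
        rw [map_smul, map_sum, s.g₁, LinearEquiv.apply_symm_apply] at h3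
        rw [h3]
        refine Finset.sum_congr rfl fun j _ => ?_
        rw [map_smul, s.g₁]
        rfl
  exact h1

/-- Large Hodge Lie algebras. -/
theorem bigM (s : Sd per Z' U e Ψ₁ Ψ₂) (h' : PM Z') (hr : IsLargeSub per U) : BigM Z' := by
  obtain ⟨b, Ψ, hΨ, hb, hσ, z, hz, m, c, x, M, hx, hM, h1⟩ := hr
  have hroot : starRingEnd ℂ z ∈ (minpoly ℚ ((Φ e).symm b)).aroots ℂ := by
    have h2 := Pool.Agent.Y4.P.root_aut (φ := (Φ e).symm b) (z := z) (by
      rw [minpoly.algEquiv_eq (Φ e).symm b]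
      exact hz) cc
    exact h2
  refine ⟨(Φ e).symm b, s.maxM h' hb, ?_, starRingEnd ℂ z, hroot, ?_⟩
  · intro w hw
    rw [minpoly.algEquiv_eq (Φ e).symm b] at hw
    exact hσ w hw
  have hsp : ∀ t : Fin a → ℂ, t ∈ Submodule.span ℝ (Set.range (perOne Z')) := by
    intro t
    rw [perOne_span h']
    trivial
  have hinj : Function.Injective Ψ₁ := fun x y hxy => by
    rw [← s.inv x, hxy, s.inv]
  obtain ⟨Ψ', hΨ'⟩ : ∃ Ψ' : (Fin a → ℂ) →ₗ[ℂ] (Fin a → ℂ), Ψ' = Ψ₂ ∘ₗ Ψ ∘ₗ Ψ₁ := ⟨_, rfl⟩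
  have e1 : ∀ v, Ψ' (perOne Z' v) = perOne Z' ((Φ e).symm b *ᵥ v) := by
    intro v
    rw [hΨ', LinearMap.comp_apply, LinearMap.comp_apply, s.g₁, hΨ, s.g₂,
      Pool.Agent.Y4.P.G3.Sd.Φ_symm]
  have e2 : ∀ t, Ψ (Ψ₁ t) = Ψ₁ (Ψ' t) := by
    intro t
    have ht := hsp t
    induction ht using Submodule.span_induction with
    | mem t ht =>
      obtain ⟨y, rfl⟩ := ht
      rw [e1, s.g₁, s.g₁, hΨ, Pool.Agent.Y4.P.G3.Sd.Φ_symm, LinearEquiv.apply_symm_apply]
    | zero => rw [map_zero, map_zero, map_zero, map_zero]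
    | add x y _ _ hx hy => rw [map_add, map_add, map_add, map_add, hx, hy]
    | smul r x _ hx =>
      rw [Ψ₁.map_smul_of_tower, Ψ.map_smul_of_tower, Ψ'.map_smul_of_tower,
        Ψ₁.map_smul_of_tower, hx]
  have e3 : Submodule.span ℂ (per '' U) = LinearMap.range Ψ₁ := by
    apply le_antisymm
    · rw [Submodule.span_le]
      rintro x ⟨v, hv, rfl⟩
      refine ⟨perOne Z' (e.symm ⟨v, hv⟩), ?_⟩
      rw [s.g₁, LinearEquiv.apply_symm_apply]
    · rintro x ⟨t, rfl⟩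
      have ht := hsp t
      induction ht using Submodule.span_induction with
      | mem t ht =>
        obtain ⟨y, rfl⟩ := ht
        rw [s.g₁]
        exact Submodule.subset_span ⟨_, (e y).2, rfl⟩
      | zero =>
        rw [map_zero]
        exact Submodule.zero_mem _
      | add x y _ _ hx hy =>
        rw [map_add]
        exact Submodule.add_mem _ hx hy
      | smul r x _ hx =>
        rw [Ψ₁.map_smul_of_tower, show r • Ψ₁ x = (r : ℂ) • Ψ₁ x by
          rw [← Complex.coe_smul]]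
        exact Submodule.smul_mem _ _ hx
  have e5 : (Module.End.eigenspace Ψ' z).map Ψ₁ =
      Submodule.span ℂ (per '' U) ⊓ Module.End.eigenspace Ψ z := by
    rw [e3]
    ext x
    constructor
    · rintro ⟨t, ht, rfl⟩
      refine ⟨⟨t, rfl⟩, ?_⟩
      rw [SetLike.mem_coe, Module.End.mem_eigenspace_iff] at ht ⊢
      rw [e2, ht, map_smul]
    · rintro ⟨⟨t, rfl⟩, ht⟩
      refine ⟨t, ?_, rfl⟩
      rw [SetLike.mem_coe, Module.End.mem_eigenspace_iff] at ht ⊢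
      apply hinj
      rw [← e2, ht, map_smul]
  -- the conjugate linear map
  obtain ⟨M', hM'⟩ : ∃ M' : (Fin a → ℂ) →ₛₗ[starRingEnd ℂ] (Fin a → ℂ),
      ∀ t, M' t = Ψ₂ (M (Ψ₁ t)) := ⟨Ψ₂.comp (M.comp Ψ₁), fun t => rfl⟩
  have f1 : ∀ v, M' (perOne Z' v) = ∑ j, c j • perOne Z' ((Φ e).symm (x j) *ᵥ v) := by
    intro v
    rw [hM', s.g₁, hM, map_sum]
    refine Finset.sum_congr rfl fun j _ => ?_
    rw [map_smul, s.g₂, Pool.Agent.Y4.P.G3.Sd.Φ_symm]
  have f2 : ∀ t, M (Ψ₁ t) = Ψ₁ (M' t) := by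
    intro t
    have ht := hsp t
    induction ht using Submodule.span_induction with
    | mem t ht =>
      obtain ⟨y, rfl⟩ := ht
      rw [f1, s.g₁, hM, map_sum]
      refine Finset.sum_congr rfl fun j _ => ?_
      rw [map_smul, s.g₁, Pool.Agent.Y4.P.G3.Sd.Φ_symm, LinearEquiv.apply_symm_apply]
    | zero => rw [map_zero, map_zero, map_zero, map_zero]
    | add x y _ _ hx hy => rw [map_add, map_add, map_add, map_add, hx, hy]
    | smul r x _ hx =>
      have g1 : r • x = (r : ℂ) • x := by rw [← Complex.coe_smul]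
      rw [g1, map_smul, M.map_smulₛₗ, M'.map_smulₛₗ, map_smul, hx]
  have f3 : ((Module.End.eigenspace Ψ' z).map M').map Ψ₁ =
      (Submodule.span ℂ (per '' U) ⊓ Module.End.eigenspace Ψ z).map M := by
    rw [← e5]
    ext y
    constructor
    · rintro ⟨_, ⟨t, ht, rfl⟩, rfl⟩
      exact ⟨Ψ₁ t, ⟨t, ht, rfl⟩, f2 t⟩
    · rintro ⟨_, ⟨t, ht, rfl⟩, rfl⟩
      exact ⟨M' t, ⟨t, ht, rfl⟩, (f2 t).symm⟩
  rw [← f3] at h1
  have f4 := (Submodule.equivMapOfInjective Ψ₁ hinj ((Module.End.eigenspace Ψ' z).map M')).finrank_eq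
  rw [← f4] at h1
  exact rk1_of_conj h' e1 (fun j => hodge_mem s h' (hx j)) f1 h1

end

end Pool.Agent.Y4.Q
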