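import Mathlib
import Pool.Agent.Y4.P.Jobs4

/-!
# Project P: statements, fifth part (small dimensions)
-/

set_option linter.unusedSectionVars false

namespace Pool.Agent.Y4.Q

open Matrix Module Pool.Agent.Y90 Pool.Agent.W437.HC Pool.Agent.W437.HD
  Pool.Agent.TH504.CB Pool.Agent.W522.U
open Pool.Agent.W548.Odd hiding cv
open Pool.Agent.Y4.P (WeilRing MaxM EigM RealOddM TwoTwoM HasPr PD)

noncomputable section

/-- The endomorphism algebra has the centre `ℚ`, is not `ℚ`, and all endomorphisms with real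
eigenvalues are scalars (a definite quaternion algebra over `ℚ`). -/
def T3M {g : ℕ} (Z : Matrix (Fin g) (Fin g) ℂ) : Prop :=
  (∀ ψ : Matrix (Fin g ⊕ Fin g) (Fin g ⊕ Fin g) ℚ, qm ψ * DZ Z = DZ Z * qm ψ →
    (∀ χ : Matrix (Fin g ⊕ Fin g) (Fin g ⊕ Fin g) ℚ, qm χ * DZ Z = DZ Z * qm χ →
      ψ * χ = χ * ψ) → ∃ c : ℚ, ψ = c • (1 : Matrix (Fin g ⊕ Fin g) (Fin g ⊕ Fin g) ℚ)) ∧
  (∃ ψ : Matrix (Fin g ⊕ Fin g) (Fin g ⊕ Fin g) ℚ, qm ψ * DZ Z = DZ Z * qm ψ ∧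
    ∀ c : ℚ, ψ ≠ c • (1 : Matrix (Fin g ⊕ Fin g) (Fin g ⊕ Fin g) ℚ)) ∧
  ∀ ψ : Matrix (Fin g ⊕ Fin g) (Fin g ⊕ Fin g) ℚ, qm ψ * DZ Z = DZ Z * qm ψ →
    (∀ z ∈ (minpoly ℚ ψ).aroots ℂ, z.im = 0) →
      ∃ c : ℚ, ψ = c • (1 : Matrix (Fin g ⊕ Fin g) (Fin g ⊕ Fin g) ℚ)

/-- A maximal commutative subfield of the endomorphism algebra which is totally real or a CM field:
a maximal commutative subalgebra stable under the Rosati involution. -/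
def JMaxCM : Prop :=
  ∀ (g : ℕ) (Z : Matrix (Fin g) (Fin g) ℂ) (_h : PM Z) (_hs : IsSimpleAV Z) (_hg : 0 < g),
    ∃ φ : Matrix (Fin g ⊕ Fin g) (Fin g ⊕ Fin g) ℚ, MaxM Z φ ∧ CMM φ

/-- If some maximal commutative subfield is quadratic then each endomorphism which is not central
generates a maximal commutative subfield, which is quadratic. -/
def JQuat : Prop :=
  ∀ (g : ℕ) (Z : Matrix (Fin g) (Fin g) ℂ) (_h : PM Z) (_hs : IsSimpleAV Z) (_hg : 0 < g)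
    (φ : Matrix (Fin g ⊕ Fin g) (Fin g ⊕ Fin g) ℚ) (_hφ : MaxM Z φ)
    (_hd : (minpoly ℚ φ).natDegree = 2) (b ψ : Matrix (Fin g ⊕ Fin g) (Fin g ⊕ Fin g) ℚ)
    (_hb : qm b * DZ Z = DZ Z * qm b) (_hψ : qm ψ * DZ Z = DZ Z * qm ψ) (_hn : ψ * b ≠ b * ψ),
    MaxM Z b ∧ (minpoly ℚ b).natDegree = 2

/-- Fourfolds without endomorphisms: rank one elements if the dimension of the Lie algebra is at
least ten (not of Mumford's type). -/
def JMum : Prop :=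
  ∀ (Z : Matrix (Fin 4) (Fin 4) ℂ) (_h : PM Z)
    (_hU : IrS (LZ Z) (⊤ : Submodule ℂ (Fin 4 ⊕ Fin 4 → ℂ))) (_hd : 10 ≤ finrank ℂ (LZ Z)),
    Rk1 Z (⊤ : Submodule ℂ (Fin 4 ⊕ Fin 4 → ℂ))

end

end Pool.Agent.Y4.Q
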