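import Mathlib
import Pool.Agent.Y4.P.Jobs5
import Pool.Agent.Y4.P.Gcd4

/-!
# Simple abelian varieties of dimension at most seven
-/

set_option autoImplicit false
set_option linter.unusedSectionVars false

namespace Pool.Agent.Y4.Q

open Matrix Module Pool.Agent.Y90 Pool.Agent.W437.HC Pool.Agent.W437.HD
  Pool.Agent.TH504.CB Pool.Agent.W522.U
open Pool.Agent.W548.Odd hiding cv
open Pool.Agent.Y4.P (MaxM EigM mem_eigM cjS_eigM root_aut exists_herm JSpec RealOddM TwoTwoM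
  om_real)

noncomputable section

variable {g : ℕ} {Z : Matrix (Fin g) (Fin g) ℂ}

/-- If all conjugates of the complex structure act by scalars on an irreducible submodule then its
dimension is one. -/
theorem finrank_one_of_scalar {U : Submodule ℂ (Fin g ⊕ Fin g → ℂ)} (hU : IrS (LZ Z) U)
    (hsc : ∀ σ : ℂ ≃+* ℂ, ∃ c : ℂ, ∀ u ∈ U, DS Z σ *ᵥ u = c • u) : finrank ℂ U = 1 := by
  obtain ⟨v, hv, hv0⟩ := Submodule.exists_mem_ne_zero_of_ne_bot hU.1
  let L : Submodule ℂ (Matrix (Fin g ⊕ Fin g) (Fin g ⊕ Fin g) ℂ) :=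
    { carrier := {X | ∃ c : ℂ, ∀ u ∈ U, X *ᵥ u = c • u}
      zero_mem' := ⟨0, fun u _ => by rw [zero_mulVec, zero_smul]⟩
      add_mem' := by
        rintro X Y ⟨a, ha⟩ ⟨b, hb⟩
        exact ⟨a + b, fun u hu => by rw [add_mulVec, ha u hu, hb u hu, add_smul]⟩
      smul_mem' := by
        rintro r X ⟨a, ha⟩
        exact ⟨r * a, fun u hu => by rw [smul_mulVec, ha u hu, smul_smul]⟩ }
  have hL : LZ Z ≤ L := by
    refine LZ_le (fun σ => hsc σ) ?_
    rintro X ⟨a, ha⟩ Y ⟨b, hb⟩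
    refine ⟨0, fun u hu => ?_⟩
    rw [sub_mulVec, ← mulVec_mulVec, ← mulVec_mulVec, ha u hu, hb u hu, mulVec_smul, mulVec_smul,
      ha u hu, hb u hu, smul_smul, smul_smul, mul_comm, sub_self, zero_smul]
  have h1 : Stab (LZ Z) (Submodule.span ℂ {v}) := by
    intro X hX u hu
    obtain ⟨c, hc⟩ := hL hX
    obtain ⟨r, rfl⟩ := Submodule.mem_span_singleton.1 hu
    rw [mulVec_smul, hc v hv]
    exact Submodule.smul_mem _ _ (Submodule.smul_mem _ _ (Submodule.mem_span_singleton_self v))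
  rcases hU.2.2 _ ((Submodule.span_singleton_le_iff_mem v U).2 hv) h1 with h2 | h2
  · exact absurd (Submodule.span_singleton_eq_bot.1 h2) hv0
  · rw [← h2]
    exact finrank_span_singleton hv0

/-- Conjugate roots. -/
theorem root_cc {φ : Matrix (Fin g ⊕ Fin g) (Fin g ⊕ Fin g) ℚ} {z : ℂ}
    (hz : z ∈ (minpoly ℚ φ).aroots ℂ) : cc z ∈ (minpoly ℚ φ).aroots ℂ := root_aut hz cc

theorem pd_root_cc (φ : Matrix (Fin g ⊕ Fin g) (Fin g ⊕ Fin g) ℚ) (z : ℂ) :
    pd Z (EigM φ (cc z)) = qd Z (EigM φ z) := by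
  rw [← cjS_eigM]
  exact pd_cc _

theorem qd_root_cc (φ : Matrix (Fin g ⊕ Fin g) (Fin g ⊕ Fin g) ℚ) (z : ℂ) :
    qd Z (EigM φ (cc z)) = pd Z (EigM φ z) := by
  rw [← pd_root_cc]
  congr 2
  exact Complex.conj_conj z

/-- The degree is even if no root is real. -/
theorem even_deg (h : PM Z) (hs : IsSimpleAV Z) (hg : 0 < g)
    {φ : Matrix (Fin g ⊕ Fin g) (Fin g ⊕ Fin g) ℚ} (hφ : qm φ * DZ Z = DZ Z * qm φ)
    (hz : ∀ z ∈ (minpoly ℚ φ).aroots ℂ, z.im ≠ 0) : Even (minpoly ℚ φ).natDegree := by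
  have hsep := (Y261.P.minpoly_irr h hs hg hφ).separable
  rw [← Y261.P.card_Rt hsep]
  have h1 : ∑ _z ∈ Y261.P.Rt φ, (1 : ZMod 2) = 0 := by
    refine Finset.sum_involution (fun z _ => cc z) ?_ ?_ ?_ ?_
    · intro a _
      decide
    · intro a ha _ h0
      exact hz a (Y261.P.mem_Rt.1 ha) (Complex.conj_eq_iff_im.1 h0)
    · intro a ha
      exact Y261.P.mem_Rt.2 (root_cc (Y261.P.mem_Rt.1 ha))
    · intro a _
      exact Complex.conj_conj a
  rw [Finset.sum_const, nsmul_eq_mul, mul_one] at h1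
  exact (ZMod.natCast_eq_zero_iff_even).1 h1

/-- Linear polynomials. -/
theorem lin_of_deg {φ ψ : Matrix (Fin g ⊕ Fin g) (Fin g ⊕ Fin g) ℚ}
    (hψ : ψ ∈ Algebra.adjoin ℚ ({φ} : Set (Matrix (Fin g ⊕ Fin g) (Fin g ⊕ Fin g) ℚ)))
    (hd : (minpoly ℚ φ).natDegree = 2) : ∃ a b : ℚ, ψ = a • φ + b • (1 : Matrix _ _ ℚ) := by
  obtain ⟨p, hp⟩ := Y261.P.mem_adj hψ
  have hm : (minpoly ℚ φ).Monic := minpoly.monic (Matrix.isIntegral φ)
  have h1 : (p %ₘ minpoly ℚ φ).natDegree ≤ 1 := by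
    have h2 := Polynomial.natDegree_modByMonic_lt p hm (by
      intro h0
      rw [h0, Polynomial.natDegree_one] at hd
      omega)
    omega
  obtain ⟨a, b, hab⟩ := Polynomial.exists_eq_X_add_C_of_natDegree_le_one h1
  have h3 : Polynomial.aeval φ (p %ₘ minpoly ℚ φ) = Polynomial.aeval φ p := by
    have h4 := Polynomial.modByMonic_add_div p (minpoly ℚ φ)
    conv_rhs => rw [← h4]
    rw [map_add, map_mul, minpoly.aeval, zero_mul, add_zero]
  refine ⟨a, b, ?_⟩
  rw [hp, ← h3, hab, map_add, map_mul, Polynomial.aeval_C, Polynomial.aeval_X, Polynomial.aeval_C,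
    Algebra.algebraMap_eq_smul_one, Algebra.algebraMap_eq_smul_one, smul_mul_assoc, one_mul]

/-- Scalars. -/
theorem scal_of_deg {φ ψ : Matrix (Fin g ⊕ Fin g) (Fin g ⊕ Fin g) ℚ}
    (hψ : ψ ∈ Algebra.adjoin ℚ ({φ} : Set (Matrix (Fin g ⊕ Fin g) (Fin g ⊕ Fin g) ℚ)))
    (hd : (minpoly ℚ φ).natDegree = 1) : ∃ b : ℚ, ψ = b • (1 : Matrix _ _ ℚ) := by
  obtain ⟨p, hp⟩ := Y261.P.mem_adj hψ
  have hm : (minpoly ℚ φ).Monic := minpoly.monic (Matrix.isIntegral φ)
  have h1 : (p %ₘ minpoly ℚ φ).natDegree = 0 := by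
    have h2 := Polynomial.natDegree_modByMonic_lt p hm (by
      intro h0
      rw [h0, Polynomial.natDegree_one] at hd
      omega)
    omega
  obtain ⟨b, hab⟩ : ∃ b, p %ₘ minpoly ℚ φ = Polynomial.C b :=
    ⟨_, Polynomial.eq_C_of_natDegree_eq_zero h1⟩
  have h3 : Polynomial.aeval φ (p %ₘ minpoly ℚ φ) = Polynomial.aeval φ p := by
    have h4 := Polynomial.modByMonic_add_div p (minpoly ℚ φ)
    conv_rhs => rw [← h4]
    rw [map_add, map_mul, minpoly.aeval, zero_mul, add_zero]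
  refine ⟨b, ?_⟩
  rw [hp, ← h3, hab, Polynomial.aeval_C, Algebra.algebraMap_eq_smul_one]

/-- The imaginary quadratic field. -/
theorem imQ_of
    {φ : Matrix (Fin g ⊕ Fin g) (Fin g ⊕ Fin g) ℚ} (hφ : MaxM Z φ)
    (hd : (minpoly ℚ φ).natDegree = 2) {z : ℂ} (hz : z ∈ (minpoly ℚ φ).aroots ℂ) (hzi : z.im ≠ 0)
    (hcom : ∀ ψ : Matrix (Fin g ⊕ Fin g) (Fin g ⊕ Fin g) ℚ, qm ψ * DZ Z = DZ Z * qm ψ →
      ψ * φ = φ * ψ) :
    ∃ (D : ℚ) (c : Matrix (Fin g ⊕ Fin g) (Fin g ⊕ Fin g) ℚ), ImQ Z D c := by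
  have hm : (minpoly ℚ φ).Monic := minpoly.monic (Matrix.isIntegral φ)
  obtain ⟨s, t, hst⟩ : ∃ s t : ℚ, minpoly ℚ φ = Polynomial.X ^ 2 + Polynomial.C s * Polynomial.X +
      Polynomial.C t := by
    refine ⟨(minpoly ℚ φ).coeff 1, (minpoly ℚ φ).coeff 0, ?_⟩
    have h1 : (minpoly ℚ φ).coeff 2 = 1 := by
      rw [← hd]
      exact hm
    conv_lhs => rw [Polynomial.eq_quadratic_of_degree_le_two
      (Polynomial.natDegree_le_iff_degree_le.1 hd.le)]
    rw [h1, Polynomial.C_1, one_mul]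
  have h1 : φ * φ + s • φ + t • (1 : Matrix _ _ ℚ) = 0 := by
    have h2 := minpoly.aeval ℚ φ
    rw [hst, map_add, map_add, map_mul, map_pow, Polynomial.aeval_C, Polynomial.aeval_X,
      Polynomial.aeval_C, Algebra.algebraMap_eq_smul_one, Algebra.algebraMap_eq_smul_one,
      smul_mul_assoc, one_mul, sq] at h2
    exact h2
  have h3 : z * z + (s : ℂ) * z + (t : ℂ) = 0 := by
    have h2 := (Polynomial.mem_aroots.1 hz).2
    rw [hst, map_add, map_add, map_mul, map_pow, Polynomial.aeval_C, Polynomial.aeval_X,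
      Polynomial.aeval_C, sq] at h2
    exact h2
  have hD : 0 < 4 * t - s ^ 2 := by
    have h4 := congrArg Complex.re h3
    have h5 := congrArg Complex.im h3
    simp only [Complex.add_re, Complex.mul_re, Complex.add_im, Complex.mul_im, Complex.zero_re,
      Complex.zero_im, Complex.ratCast_re, Complex.ratCast_im, zero_mul, sub_zero, add_zero] at h4 h5
    have h6 : (2 * z.re + (s : ℝ)) * z.im = 0 := by linear_combination h5
    have h7 : 2 * z.re + (s : ℝ) = 0 := (mul_eq_zero.1 h6).resolve_right hzi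
    have h8 : (0 : ℝ) < 4 * (t : ℝ) - (s : ℝ) ^ 2 := by
      have h9 : 4 * (t : ℝ) - (s : ℝ) ^ 2 = 4 * z.im ^ 2 := by
        have h10 : (s : ℝ) = -(2 * z.re) := by linear_combination h7
        rw [h10] at h4 ⊢
        linear_combination 4 * h4
      rw [h9]
      positivity
    exact_mod_cast h8
  refine ⟨4 * t - s ^ 2, (2 : ℚ) • φ + s • (1 : Matrix _ _ ℚ), hD, ?_, ?_, ?_, ?_⟩
  · have h4 : qm ((2 : ℚ) • φ + s • (1 : Matrix (Fin g ⊕ Fin g) (Fin g ⊕ Fin g) ℚ)) =
        (2 : ℂ) • qm φ + (s : ℂ) • (1 : Matrix (Fin g ⊕ Fin g) (Fin g ⊕ Fin g) ℂ) := by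
      ext i j
      by_cases hij : i = j <;> simp [qm, hij]
    rw [h4, Matrix.add_mul, Matrix.mul_add, Matrix.smul_mul, Matrix.mul_smul, hφ.1,
      Matrix.smul_mul, Matrix.mul_smul, Matrix.one_mul, Matrix.mul_one]
  · have h4 : φ * φ = -(s • φ + t • (1 : Matrix _ _ ℚ)) := by
      rw [add_assoc] at h1
      exact eq_neg_of_add_eq_zero_left h1
    rw [Matrix.add_mul, Matrix.mul_add, Matrix.mul_add, Matrix.smul_mul, Matrix.mul_smul, h4]
    simp only [Matrix.smul_mul, Matrix.mul_smul, Matrix.one_mul, Matrix.mul_one]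
    module
  · intro ψ hψ
    rw [Matrix.mul_add, Matrix.add_mul, Matrix.mul_smul, Matrix.smul_mul, hcom ψ hψ,
      Matrix.mul_smul, Matrix.smul_mul, Matrix.one_mul, Matrix.mul_one]
  · intro ψ hψ _
    obtain ⟨a, b, hab⟩ := lin_of_deg (hφ.2 ψ hψ (hcom ψ hψ)) hd
    refine ⟨b - a * s / 2, a / 2, ?_⟩
    rw [hab]
    module

/-- Complex multiplication: the eigenspaces are lines. -/
theorem hasCM_of {φ : Matrix (Fin g ⊕ Fin g) (Fin g ⊕ Fin g) ℚ} (hφ : MaxM Z φ)
    (hd : (minpoly ℚ φ).natDegree = 2 * g) : HasCM Z := by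
  refine ⟨Algebra.adjoin ℚ {φ}, fun a ha b hb => ?_, ?_, fun a ha => ?_⟩
  · obtain ⟨p, rfl⟩ := Y261.P.mem_adj ha
    obtain ⟨q, rfl⟩ := Y261.P.mem_adj hb
    rw [← map_mul, ← map_mul, mul_comm]
  · rw [← hd]
    have hker : LinearMap.ker (Polynomial.aeval φ : Polynomial ℚ →ₐ[ℚ] _).toLinearMap =
        (Ideal.span {minpoly ℚ φ}).restrictScalars ℚ := by
      ext p
      rw [LinearMap.mem_ker, AlgHom.toLinearMap_apply, Submodule.restrictScalars_mem,
        Ideal.mem_span_singleton]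
      exact (minpoly.dvd_iff).symm
    have e1 := (LinearMap.quotKerEquivRange
      (Polynomial.aeval φ : Polynomial ℚ →ₐ[ℚ] _).toLinearMap).finrank_eq
    have e2 := (Submodule.quotEquivOfEq _ _ hker).finrank_eq
    have e3 := (Submodule.Quotient.restrictScalarsEquiv ℚ
      (Ideal.span {minpoly ℚ φ})).finrank_eq
    have e4 := finrank_quotient_span_eq_natDegree (f := minpoly ℚ φ)
    have e5 : finrank ℚ (Algebra.adjoin ℚ ({φ} : Set (Matrix (Fin g ⊕ Fin g) (Fin g ⊕ Fin g) ℚ))) =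
        finrank ℚ (LinearMap.range (Polynomial.aeval φ : Polynomial ℚ →ₐ[ℚ] _).toLinearMap) := by
      rw [Algebra.adjoin_singleton_eq_range_aeval]
      rfl
    rw [e5, ← e1, e2]
    exact e3.trans e4
  · obtain ⟨p, rfl⟩ := Y261.P.mem_adj ha
    exact Y261.P.poly_comm hφ.1 p

/-- Numbers: not a power. -/
theorem pow_ne (d m n : ℕ) (hm : 3 ≤ m) (hn : n = 12) : d ^ m ≠ n := by
  subst hn
  intro h0
  have h1 : d < 3 := by
    by_contra hcon
    have h2 : 3 ^ m ≤ d ^ m := Nat.pow_le_pow_left (by omega) m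
    have h3 : 3 ^ 3 ≤ 3 ^ m := Nat.pow_le_pow_right (by norm_num) hm
    omega
  have h4 : m < 4 := by
    by_contra hcon
    interval_cases d
    · rw [zero_pow (by omega)] at h0
      omega
    · rw [one_pow] at h0
      omega
    · have h2 : 2 ^ 4 ≤ 2 ^ m := Nat.pow_le_pow_right (by norm_num) (by omega)
      omega
  interval_cases m
  interval_cases d <;> omega

/-- Numbers: binomial coefficients. -/
theorem choose_ne (j : ℕ) (hj : 1 ≤ j) : (4 * j + 2).choose (2 * j + 1) ≠ 12 := by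
  intro h0
  have h1 : (6 : ℕ).choose 3 ≤ (4 * j + 2).choose (2 * j + 1) := by
    calc (6 : ℕ).choose 3 ≤ (4 * j + 2).choose 3 := Nat.choose_le_choose 3 (by omega)
      _ ≤ (4 * j + 2).choose ((4 * j + 2) / 2) := Nat.choose_le_middle 3 (4 * j + 2)
      _ = (4 * j + 2).choose (2 * j + 1) := by
        congr 1
        omega
  rw [h0] at h1
  exact absurd h1 (by decide)

/-- Numbers: binomial coefficients are large. -/
theorem le_choose : ∀ m k : ℕ, 1 ≤ k → k < m → m ≤ m.choose k := by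
  intro m
  induction m with
  | zero => intro k _ h; omega
  | succ m ih =>
    intro k hk hkm
    obtain ⟨r, rfl⟩ : ∃ r, k = r + 1 := ⟨k - 1, by omega⟩
    rw [Nat.choose_succ_succ]
    rcases Nat.eq_zero_or_pos r with rfl | hr
    · rw [Nat.choose_zero_right, Nat.choose_one_right]
      omega
    · have h1 := ih r hr (by omega)
      have h2 : 0 < m.choose r.succ := Nat.choose_pos (by omega)
      omega

/-- Numbers: the multiplicities in dimension six. -/
theorem nonExc2_six {p q : ℕ} (hp : 2 ≤ p) (hq : 2 ≤ q) (hpq : p + q = 6) : NonExc2 p q := by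
  refine ⟨by omega, ?_, ?_⟩
  · intro d m hd hm h0
    exfalso
    rw [hpq] at h0
    have h1 : d < 3 := by
      by_contra hcon
      have h2 : 3 ^ (m + 1) ≤ d ^ (m + 1) := Nat.pow_le_pow_left (by omega) _
      have h3 : 3 ^ 2 ≤ 3 ^ (m + 1) := Nat.pow_le_pow_right (by norm_num) (by omega)
      omega
    obtain rfl : d = 2 := by omega
    have h4 : m < 2 := by
      by_contra hcon
      have h2 : 2 ^ 3 ≤ 2 ^ (m + 1) := Nat.pow_le_pow_right (by norm_num) (by omega)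
      omega
    obtain rfl : m = 1 := by omega
    omega
  · rintro hne m i hi him ⟨h1, h2⟩
    have h3 := le_choose m i (by omega) him
    have h4 := le_choose m (i - 1) (by omega) (by omega)
    omega

/-- The classification in dimension at most seven. -/
theorem small_class (hSp : JSpec) (hM : JMaxCM) (hQ : JQuat) (hUn : JUni2) (hMu : JMum)
    (h : PM Z) (hs : IsSimpleAV Z) (hg : 0 < g) (hg7 : g ≤ 7)
    (h4 : g = 4 → (∃ ψ : Matrix (Fin g ⊕ Fin g) (Fin g ⊕ Fin g) ℚ, qm ψ * DZ Z = DZ Z * qm ψ ∧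
      ∀ c : ℚ, ψ ≠ c • (1 : Matrix (Fin g ⊕ Fin g) (Fin g ⊕ Fin g) ℚ)) ∨
        10 ≤ finrank ℂ (LZ Z))
    (h46 : g = 4 ∨ g = 6 → ¬T3M Z) :
    HasCM Z ∨ RealOddM Z ∨ GenM Z ∨ CopM4 Z ∨ TwoTwoM Z ∨ BigM Z := by
  obtain ⟨φ, hφ, hcm⟩ := hM g Z h hs hg
  obtain ⟨s1, s2, s3⟩ := hSp g Z h hs hg φ hφ
  have hirr := Y261.P.minpoly_irr h hs hg hφ.1
  have hcard := Y261.P.card_Rt hirr.separable
  have hm0 : 0 < (minpoly ℚ φ).natDegree := hirr.natDegree_pos
  by_cases hre : ∃ z ∈ (minpoly ℚ φ).aroots ℂ, z.im = 0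
  · -- totally real
    obtain ⟨z, hz, hzi⟩ := hre
    have hall : ∀ w ∈ (minpoly ℚ φ).aroots ℂ, w.im = 0 := by
      intro w hw
      obtain ⟨σ, rfl⟩ := exists_aut_root hirr hz hw
      have h1 := hcm z hz σ
      have h2 : cc z = z := Complex.conj_eq_iff_im.2 hzi
      rw [h2] at h1
      exact Complex.conj_eq_iff_im.1 h1
    obtain ⟨hU, hn⟩ := s1 z hz
    have hsd : SDu Z (EigM φ z) :=
      ⟨om g, om_real h hzi hU, fun X hX u _ v _ => h.om_sp hX u v⟩
    have hpq := pd_eq_qd h hU hsd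
    have hsum := pd_add_qd h hU.2.1
    obtain ⟨k, hk⟩ : ∃ k, pd Z (EigM φ z) = k := ⟨_, rfl⟩
    have hgk : g = k * (minpoly ℚ φ).natDegree := by
      rw [← hpq, hk] at hsum
      rw [← hsum] at hn
      have h1 : (k + k) * (minpoly ℚ φ).natDegree = 2 * (k * (minpoly ℚ φ).natDegree) := by ring
      omega
    have hk0 : 0 < k := by
      rcases Nat.eq_zero_or_pos k with h0 | h0
      · rw [h0, zero_mul] at hgk
        omega
      · exact h0
    by_cases hko : Odd k ∨ k = 2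
    · exact Or.inr (Or.inl ⟨φ, hφ, hall, k, hko, hgk⟩)
    · have hke : Even k := by
        rw [← Nat.not_odd_iff_even]
        exact fun h0 => hko (Or.inl h0)
      have hk2 : k ≠ 2 := fun h0 => hko (Or.inr h0)
      have hkg : k ≤ g := by
        rw [hgk]
        exact Nat.le_mul_of_pos_right k hm0
      have hk46 : k = 4 ∨ k = 6 := by
        obtain ⟨r, hr⟩ := hke
        omega
      have hm1 : (minpoly ℚ φ).natDegree = 1 := by
        by_contra hcon
        have h1 : 2 ≤ (minpoly ℚ φ).natDegree := by omega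
        have h2 : k * 2 ≤ k * (minpoly ℚ φ).natDegree := Nat.mul_le_mul_left k h1
        omega
      have hφc : ∃ b : ℚ, φ = b • (1 : Matrix (Fin g ⊕ Fin g) (Fin g ⊕ Fin g) ℚ) :=
        scal_of_deg (Algebra.self_mem_adjoin_singleton ℚ φ) hm1
      have hend : ∀ ψ : Matrix (Fin g ⊕ Fin g) (Fin g ⊕ Fin g) ℚ, qm ψ * DZ Z = DZ Z * qm ψ →
          ∃ b : ℚ, ψ = b • (1 : Matrix (Fin g ⊕ Fin g) (Fin g ⊕ Fin g) ℚ) := by
        intro ψ hψ
        refine scal_of_deg (hφ.2 ψ hψ ?_) hm1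
        obtain ⟨b, hb⟩ := hφc
        rw [hb, Matrix.mul_smul, Matrix.smul_mul, Matrix.one_mul, Matrix.mul_one]
      rw [hm1, mul_one] at hgk
      rcases hk46 with hk4 | hk6
      · -- fourfolds
        have hg4 : g = 4 := by omega
        subst hg4
        rcases h4 rfl with ⟨ψ, hψ, hne⟩ | hLie
        · obtain ⟨b, hb⟩ := hend ψ hψ
          exact absurd hb (hne b)
        · have htop : EigM φ z = ⊤ := by
            apply Y4.P.eq_top_of
            rw [hm1, mul_one] at hn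
            exact hn
          have h5 : Rk1 Z (⊤ : Submodule ℂ (Fin 4 ⊕ Fin 4 → ℂ)) :=
            hMu Z h (by rw [← htop]; exact hU) hLie
          refine Or.inr (Or.inr (Or.inr (Or.inr (Or.inr ⟨φ, hφ, hcm, z, hz, ?_⟩))))
          rw [htop]
          exact h5
      · refine Or.inr (Or.inr (Or.inl ⟨fun ψ hψ _ => hend ψ hψ, φ, hφ, hall, k, ?_, ?_, ?_⟩))
        · rw [hm1, mul_one]
          exact hgk
        · intro d m hm _
          exact pow_ne d m _ hm (by omega)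
        · intro j hj
          have h1 : 2 * k = 12 := by omega
          rw [h1]
          exact choose_ne j hj
  · -- no real eigenvalue
    push Not at hre
    have hev := even_deg h hs hg hφ.1 hre
    by_cases hcop : ∃ w ∈ (minpoly ℚ φ).aroots ℂ,
        Nat.Coprime (pd Z (EigM φ w)) (qd Z (EigM φ w))
    · obtain ⟨w, hw, hco⟩ := hcop
      exact Or.inr (Or.inr (Or.inr (Or.inl ⟨φ, hφ, hcm, w, hw, hco⟩)))
    push Not at hcop
    obtain ⟨z, hz⟩ : ∃ z, z ∈ (minpoly ℚ φ).aroots ℂ := by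
      have h1 : 0 < (Y261.P.Rt φ).card := by omega
      obtain ⟨z, hz⟩ := Finset.card_pos.1 h1
      exact ⟨z, Y261.P.mem_Rt.1 hz⟩
    obtain ⟨hU, hn⟩ := s1 z hz
    have hfr : ∀ w ∈ (minpoly ℚ φ).aroots ℂ,
        pd Z (EigM φ w) + qd Z (EigM φ w) = finrank ℂ (EigM φ z) := by
      intro w hw
      obtain ⟨σ, rfl⟩ := exists_aut_root hirr hz hw
      rw [pd_add_qd h (s1 _ hw).1.2.1, ← cjS_eigM, finrank_cjS]
    by_cases hone : finrank ℂ (EigM φ z) = 1
    · -- complex multiplication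
      left
      refine hasCM_of hφ ?_
      rw [hone, one_mul] at hn
      exact hn
    -- an indefinite eigenvalue
    obtain ⟨w, hw, hpw, hqw⟩ : ∃ w ∈ (minpoly ℚ φ).aroots ℂ,
        0 < pd Z (EigM φ w) ∧ 0 < qd Z (EigM φ w) := by
      by_contra hcon
      push Not at hcon
      refine hone (finrank_one_of_scalar hU fun σ => ?_)
      have hw := root_aut hz σ.symm
      have hst := (s1 _ hw).1.2.1
      have hact : ∃ c : ℂ, ∀ u ∈ EigM φ (σ.symm z), DZ Z *ᵥ u = c • u := by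
        rcases Nat.eq_zero_or_pos (pd Z (EigM φ (σ.symm z))) with h0 | h0
        · exact ⟨-1, (act_of_pd h hst).1 h0⟩
        · have h1 := hcon _ hw h0
          exact ⟨1, (act_of_pd h hst).2 (by omega)⟩
      obtain ⟨c, hc⟩ := hact
      refine ⟨σ c, fun u hu => ?_⟩
      have h1 : (fun i => σ.symm (u i)) ∈ EigM φ (σ.symm z) := by
        rw [← cjS_eigM, mem_cjS]
        have h2 : (fun i => σ.symm.symm (σ.symm (u i))) = u := by
          funext i
          simp
        rw [h2]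
        exact hu
      have h2 := hc _ h1
      have h3 : (fun i => σ ((DZ Z *ᵥ fun i => σ.symm (u i)) i)) =
          fun i => σ ((c • fun i => σ.symm (u i)) i) := by rw [h2]
      rw [map_mulVec_aut] at h3
      have h4 : (fun i => σ (σ.symm (u i))) = u := by
        funext i
        simp
      rw [h4] at h3
      have h5 : DS Z σ *ᵥ u = (DZ Z).map σ *ᵥ u := rfl
      rw [h5, h3]
      funext i
      simp
    have hsw := hfr w hw
    have hncop := hcop w hw
    obtain ⟨p, hp⟩ : ∃ p, pd Z (EigM φ w) = p := ⟨_, rfl⟩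
    obtain ⟨q, hq⟩ : ∃ q, qd Z (EigM φ w) = q := ⟨_, rfl⟩
    obtain ⟨n, hn'⟩ : ∃ n, finrank ℂ (EigM φ z) = n := ⟨_, rfl⟩
    obtain ⟨m, hm⟩ : ∃ m, (minpoly ℚ φ).natDegree = m := ⟨_, rfl⟩
    rw [hp, hq] at hncop hsw
    rw [hp] at hpw
    rw [hq] at hqw
    rw [hn'] at hsw hn
    rw [hm] at hn hev hm0
    have hp2 : 2 ≤ p := by
      by_contra hcon
      obtain rfl : p = 1 := by omega
      exact hncop (Nat.coprime_one_left q)
    have hq2 : 2 ≤ q := by
      by_contra hcon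
      obtain rfl : q = 1 := by omega
      exact hncop (Nat.coprime_one_right p)
    have hm2 : m = 2 := by
      obtain ⟨r, hr⟩ := hev
      by_contra hcon
      have h1 : 4 ≤ m := by omega
      have h2 : 4 * 4 ≤ n * m := Nat.mul_le_mul (by omega) h1
      omega
    have hng : n = g := by
      rw [hm2] at hn
      omega
    have hcases : (g = 4 ∧ p = 2 ∧ q = 2) ∨ g = 6 := by
      have h1 : g = 4 ∨ g = 5 ∨ g = 6 ∨ g = 7 := by omega
      rcases h1 with h1 | h1 | h1 | h1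
      · left
        omega
      · exfalso
        have h2 : (p = 2 ∧ q = 3) ∨ (p = 3 ∧ q = 2) := by omega
        rcases h2 with ⟨rfl, rfl⟩ | ⟨rfl, rfl⟩ <;> exact hncop (by decide)
      · right
        exact h1
      · exfalso
        have h2 : (p = 2 ∧ q = 5) ∨ (p = 5 ∧ q = 2) ∨ (p = 3 ∧ q = 4) ∨ (p = 4 ∧ q = 3) := by
          omega
        rcases h2 with ⟨rfl, rfl⟩ | ⟨rfl, rfl⟩ | ⟨rfl, rfl⟩ | ⟨rfl, rfl⟩ <;>
          exact hncop (by decide)
    rw [hm2] at hm
    by_cases hcom : ∀ ψ : Matrix (Fin g ⊕ Fin g) (Fin g ⊕ Fin g) ℚ,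
        qm ψ * DZ Z = DZ Z * qm ψ → ψ * φ = φ * ψ
    · rcases hcases with ⟨hg4, rfl, rfl⟩ | hg6
      · -- the multiplicities are two
        refine Or.inr (Or.inr (Or.inr (Or.inr (Or.inl ⟨φ, hφ.1, fun ψ hψ => hφ.2 ψ hψ
          (hcom ψ hψ), hcm, fun w' hw' => ⟨hre w' hw', ?_⟩⟩))))
        have hww : w ≠ cc w := fun h0 => hre w hw (Complex.conj_eq_iff_im.1 h0.symm)
        have hsub : ({w, cc w} : Finset ℂ) ⊆ Y261.P.Rt φ := by
          intro x hx
          rw [Finset.mem_insert, Finset.mem_singleton] at hx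
          rcases hx with rfl | rfl
          · exact Y261.P.mem_Rt.2 hw
          · exact Y261.P.mem_Rt.2 (root_cc hw)
        have heq : ({w, cc w} : Finset ℂ) = Y261.P.Rt φ := by
          apply Finset.eq_of_subset_of_card_le hsub
          rw [hcard, hm, Finset.card_pair hww]
        have h5 : w' ∈ ({w, cc w} : Finset ℂ) := by
          rw [heq]
          exact Y261.P.mem_Rt.2 hw'
        rw [Finset.mem_insert, Finset.mem_singleton] at h5
        rcases h5 with rfl | rfl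
        · exact ⟨hp, hq⟩
        · rw [pd_root_cc, qd_root_cc]
          exact ⟨hq, hp⟩
      · -- dimension six
        have hx : NonExc2 (pd Z (EigM φ w)) (qd Z (EigM φ w)) := by
          rw [hp, hq]
          exact nonExc2_six hp2 hq2 (by omega)
        exact Or.inr (Or.inr (Or.inr (Or.inr (Or.inr (uniM2_big hSp hUn h hs hg
          ⟨imQ_of hφ hm hw (hre w hw) hcom, φ, hφ, hcm, w, hw, hx⟩)))))
    · -- quaternion multiplication
      push Not at hcom
      obtain ⟨ψ, hψ, hne⟩ := hcom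
      have hcen : ∀ χ : Matrix (Fin g ⊕ Fin g) (Fin g ⊕ Fin g) ℚ, qm χ * DZ Z = DZ Z * qm χ →
          (∀ ξ : Matrix (Fin g ⊕ Fin g) (Fin g ⊕ Fin g) ℚ, qm ξ * DZ Z = DZ Z * qm ξ →
            χ * ξ = ξ * χ) → ∃ c : ℚ, χ = c • (1 : Matrix (Fin g ⊕ Fin g) (Fin g ⊕ Fin g) ℚ) := by
        intro χ hχ hc
        obtain ⟨a, b, hab⟩ := lin_of_deg (hφ.2 χ hχ (hc φ hφ.1)) hm
        refine ⟨b, ?_⟩
        by_cases ha : a = 0
        · rw [hab, ha, zero_smul, zero_add]
        · exfalso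
          apply hne
          have h1 := hc ψ hψ
          rw [hab, Matrix.add_mul, Matrix.mul_add, Matrix.smul_mul, Matrix.mul_smul,
            Matrix.smul_mul, Matrix.mul_smul, Matrix.one_mul, Matrix.mul_one] at h1
          have h2 : a • (φ * ψ) = a • (ψ * φ) := add_right_cancel h1
          exact (smul_right_injective _ ha h2).symm
      have hT : ¬T3M Z := h46 (by omega)
      have hns : ∀ c : ℚ, φ ≠ c • (1 : Matrix (Fin g ⊕ Fin g) (Fin g ⊕ Fin g) ℚ) := by
        intro c hc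
        apply hne
        rw [hc, Matrix.mul_smul, Matrix.smul_mul, Matrix.one_mul, Matrix.mul_one]
      obtain ⟨b, hb, hbr, hbs⟩ : ∃ b : Matrix (Fin g ⊕ Fin g) (Fin g ⊕ Fin g) ℚ,
          qm b * DZ Z = DZ Z * qm b ∧ (∀ z ∈ (minpoly ℚ b).aroots ℂ, z.im = 0) ∧
            ∀ c : ℚ, b ≠ c • (1 : Matrix (Fin g ⊕ Fin g) (Fin g ⊕ Fin g) ℚ) := by
        by_contra hcon
        push Not at hcon
        exact hT ⟨hcen, ⟨φ, hφ.1, hns⟩, fun b hb hbr => hcon b hb hbr⟩
      obtain ⟨ξ, hξ, hξb⟩ : ∃ ξ : Matrix (Fin g ⊕ Fin g) (Fin g ⊕ Fin g) ℚ,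
          qm ξ * DZ Z = DZ Z * qm ξ ∧ ξ * b ≠ b * ξ := by
        by_contra hcon
        push Not at hcon
        obtain ⟨c, hc⟩ := hcen b hb fun ξ hξ => (hcon ξ hξ).symm
        exact hbs c hc
      obtain ⟨hbm, hbd⟩ := hQ g Z h hs hg φ hφ hm b ξ hb hξ hξb
      refine Or.inr (Or.inl ⟨b, hbm, hbr, g / 2, ?_, ?_⟩)
      · rcases hcases with ⟨rfl, -, -⟩ | rfl
        · right
          rfl
        · left
          decide
      · rw [hbd]
        omega

end

end Pool.Agent.Y4.Q
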