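import Mathlib
import Pool.Agent.Y4.P.Sml
import Pool.Agent.Y4.P.Lrg
import Pool.Agent.Y4.P.Ring

/-!
# Simple abelian varieties of dimension at most seven: transport
-/

set_option autoImplicit false
set_option linter.unusedSectionVars false

namespace Pool.Agent.Y4.Q

open Matrix Module Pool.Agent.Y90 Pool.Agent.W437.HC Pool.Agent.W437.HD
open Pool.Agent.W548.Odd hiding cv
open Pool.Agent.Y4.P (MaxM EigM mem_eigM cjS_eigM RealOddM TwoTwoM JSpec)
open Pool.Agent.Y4.P.G3 (Sd)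
open Pool.Agent.Y4.P.G3.Sd (Φ)

noncomputable section

/-- Rational matrices which are linearly independent over `ℚ` are so over `ℂ`. -/
theorem linInd_qm {g : ℕ} {ι : Type} [Fintype ι]
    {x : ι → Matrix (Fin g ⊕ Fin g) (Fin g ⊕ Fin g) ℚ} (hx : LinearIndependent ℚ x) :
    LinearIndependent ℂ fun j => qm (x j) := by
  rw [Fintype.linearIndependent_iff] at hx ⊢
  intro c hc j
  by_contra hj
  obtain ⟨l, hl⟩ := Pool.Agent.Y4.P.exists_lam
  have h1 : ∑ i, (l ((c j)⁻¹ * c i)) • x i = 0 := by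
    ext a b
    have h2 := congrFun (congrFun hc a) b
    rw [Matrix.sum_apply] at h2 ⊢
    simp only [Matrix.smul_apply, smul_eq_mul, Matrix.zero_apply] at h2 ⊢
    have h3 : ∑ i, (c j)⁻¹ * c i * qm (x i) a b = 0 := by
      rw [← mul_zero (c j)⁻¹, ← h2, Finset.mul_sum]
      exact Finset.sum_congr rfl fun i _ => mul_assoc _ _ _
    have h4 := congrArg l h3
    rw [map_sum, map_zero] at h4
    rw [← h4]
    refine Finset.sum_congr rfl fun i _ => ?_
    have h5 : (c j)⁻¹ * c i * qm (x i) a b = x i a b • ((c j)⁻¹ * c i) := by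
      rw [Rat.smul_def, mul_comm]
      rfl
    rw [h5, map_smul, smul_eq_mul, mul_comm]
  have h6 := hx _ h1 j
  rw [inv_mul_cancel₀ hj, hl] at h6
  exact one_ne_zero h6

variable {H T : Type} [AddCommGroup H] [Module ℚ H] [AddCommGroup T] [Module ℂ T] {per : H →+ T}
variable {a : ℕ} {Z' : Matrix (Fin a) (Fin a) ℂ} {U : Submodule ℚ H}
  {e : (Fin a ⊕ Fin a → ℚ) ≃ₗ[ℚ] U} {Ψ₁ : (Fin a → ℂ) →ₗ[ℂ] T} {Ψ₂ : T →ₗ[ℂ] (Fin a → ℂ)}

/-- Type III. -/
theorem typeThree (s : Sd per Z' U e Ψ₁ Ψ₂) (h' : PM Z') (hT : T3M Z') : IsTypeThreeQ per U := by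
  obtain ⟨h1, ⟨ψ, hψ, hne⟩, h3⟩ := hT
  refine ⟨fun b ⟨Ψ, hΨ⟩ hc => ?_, ⟨Φ e ψ, s.endo h' hψ, fun r hr => ?_⟩, fun b ⟨Ψ, hΨ⟩ hb => ?_⟩
  · obtain ⟨r, hr⟩ := h1 _ (s.comm h' hΨ) (fun χ hχ => by
      apply (Φ e).injective
      rw [map_mul, map_mul, AlgEquiv.apply_symm_apply]
      exact hc _ (s.endo h' hχ))
    refine ⟨r, ?_⟩
    have h4 : b = Φ e ((Φ e).symm b) := (AlgEquiv.apply_symm_apply _ _).symm
    rw [h4, hr, map_smul, map_one]
    rfl
  · apply hne r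
    apply (Φ e).injective
    rw [hr, map_smul, map_one]
    rfl
  · obtain ⟨r, hr⟩ := h3 _ (s.comm h' hΨ) (by
      rw [minpoly.algEquiv_eq (Φ e).symm b]
      exact hb)
    refine ⟨r, ?_⟩
    have h4 : b = Φ e ((Φ e).symm b) := (AlgEquiv.apply_symm_apply _ _).symm
    rw [h4, hr, map_smul, map_one]
    rfl

/-- Dimension at most seven. -/
theorem small (hM : JMaxCM) (hQ : JQuat) (hUn : JUni2) (hMu : JMum)
    (s : Sd per Z' U e Ψ₁ Ψ₂) (h' : PM Z') (hsim : IsSimpleAV Z') (ha : 0 < a)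
    (hr : IsSmallSub per U) :
    HasCM Z' ∨ RealOddM Z' ∨ GenM Z' ∨ CopM4 Z' ∨ TwoTwoM Z' ∨ BigM Z' := by
  obtain ⟨h1, h2, h3⟩ := hr
  rw [s.rank] at h1 h2 h3
  refine small_class Y261.P.jspec hM hQ hUn hMu h' hsim ha (by omega) (fun h4 => ?_)
    (fun h4 hT => h3 (by omega) (typeThree s h' hT))
  rcases h2 (by omega) with ⟨b, ⟨Ψ, hΨ⟩, hb⟩ | ⟨x, hx, hxH⟩
  · left
    refine ⟨(Φ e).symm b, s.comm h' hΨ, fun c hc => hb c ?_⟩
    have h4 : b = Φ e ((Φ e).symm b) := (AlgEquiv.apply_symm_apply _ _).symm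
    rw [h4, hc, map_smul, map_one]
    rfl
  · right
    have h5 : LinearIndependent ℚ fun j => (Φ e).symm (x j) :=
      hx.map' (Φ e).symm.toLinearMap (LinearMap.ker_eq_bot.2 (Φ e).symm.injective)
    have h6 := linInd_qm h5
    have h7 : LinearIndependent ℂ fun j : Fin 10 =>
        (⟨qm ((Φ e).symm (x j)), hodge_mem s h' (hxH j)⟩ : LZ Z') := by
      apply LinearIndependent.of_comp (LZ Z').subtype
      exact h6
    have h8 := h7.fintype_card_le_finrank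
    rw [Fintype.card_fin] at h8
    exact h8

end

end Pool.Agent.Y4.Q
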