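import Mathlib
import Pool.Agent.Y4.P.Goo
import Pool.Agent.Y4.P.Jobs4
import Pool.Agent.Y4.P.Lrg
import Pool.Agent.Y4.P.Gcd4
import Pool.Agent.Y4.P.Sml2
import Pool.Agent.Y261.P.Spec
import Pool.Agent.Y4.P.Tan
import Pool.Agent.Y275.P.Final3

/-!
# The simple factors of the period matrix of an abelian variety; abstract abelian varieties
-/

set_option autoImplicit false
set_option linter.unusedSectionVars false

namespace Pool.Agent.Y4.Q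

open Matrix Module Pool.Agent.Y90 Pool.Agent.W437.HC Pool.Agent.W437.HD
open Pool.Agent.W548.Odd hiding cv
open Pool.Agent.H204R3.CM (IsHodge)
open Pool.Agent.W437.HP (cK cK_mul cK_one)
open Pool.Agent.Y4.P (MaxM EigM RealOddM TwoTwoM WeilRing jtang3)
open Pool.Agent.Y4.P.G3 (Sd exists_sd)
open Pool.Agent.Y4.P.G3.Sd (Φ)

noncomputable section

variable {H T : Type} [AddCommGroup H] [Module ℚ H] [AddCommGroup T] [Module ℂ T] {per : H →+ T}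

section sd

variable {a : ℕ} {Z' : Matrix (Fin a) (Fin a) ℂ} {U : Submodule ℚ H}
  {e : (Fin a ⊕ Fin a → ℚ) ≃ₗ[ℚ] U} {Ψ₁ : (Fin a → ℂ) →ₗ[ℂ] T} {Ψ₂ : T →ₗ[ℂ] (Fin a → ℂ)}

variable (s : Sd per Z' U e Ψ₁ Ψ₂) (h' : PM Z')
include s h'

/-- The multiplicities on the tangent space and of the eigenspaces. -/
theorem mult_eq {b : Module.End ℚ U} {Ψ : T →ₗ[ℂ] T} (hΨ : ∀ u : U, Ψ (per u) = per (b u))
    (z : ℂ) : mult per U Ψ z = pd Z' (EigM ((Φ e).symm b) z) ∧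
      mult per U Ψ (starRingEnd ℂ z) = qd Z' (EigM ((Φ e).symm b) z) := by
  obtain ⟨Ψ', h1, h4⟩ := s.tang h' hΨ
  have h5 : ∀ w : ℂ, mult per U Ψ w = pd Z' (EigM ((Φ e).symm b) w) := by
    intro w
    unfold mult
    rw [← h4]
    exact Y261.P.finrank_eigen h' h1 w
  refine ⟨h5 z, ?_⟩
  rw [h5]
  have h6 : EigM ((Φ e).symm b) (starRingEnd ℂ z) = cjS cc (EigM ((Φ e).symm b) z) :=
    (Y261.P.cjS_eqm z).symm
  rw [h6]
  exact pd_cc _

/-- Coprime multiplicities. -/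
theorem cop4 (hr : IsCoprimeSub per U) : CopM4 Z' := by
  obtain ⟨b, Ψ, hΨ, hb, hσ, z, hz, hc⟩ := hr
  refine ⟨(Φ e).symm b, s.maxM h' hb, ?_, z, ?_, ?_⟩
  · intro w hw
    rw [minpoly.algEquiv_eq (Φ e).symm b] at hw
    exact hσ w hw
  · rw [minpoly.algEquiv_eq (Φ e).symm b]
    exact hz
  · have h1 := mult_eq s h' hΨ z
    rw [← h1.1, ← h1.2]
    exact hc

/-- The centre is `ℚ`. -/
theorem genM (hr : IsGenericSub per U) : GenM Z' := by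
  obtain ⟨h1, b, hb, h2, k, h3, h4, h5⟩ := hr
  refine ⟨fun ψ hψ hc => ?_, (Φ e).symm b, s.maxM h' hb, ?_, k, ?_, h4, h5⟩
  · obtain ⟨c, hc⟩ := h1 _ (s.endo h' hψ) (fun x hx => by
      obtain ⟨Ψ, hΨ⟩ := hx
      have h6 := hc _ (s.comm h' hΨ)
      have h7 : Φ e ψ * x = x * Φ e ψ := by
        apply (Φ e).symm.injective
        rw [map_mul, map_mul, AlgEquiv.symm_apply_apply]
        exact h6
      exact h7)
    refine ⟨c, ?_⟩
    apply (Φ e).injective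
    rw [hc, map_smul, map_one]
    rfl
  · rw [minpoly.algEquiv_eq (Φ e).symm b]
    exact h2
  · rw [minpoly.algEquiv_eq (Φ e).symm b]
    rw [s.rank] at h3
    exact Nat.eq_of_mul_eq_mul_left (by norm_num) h3

/-- The centre is an imaginary quadratic field. -/
theorem uniM (hr : IsUnitarySub per U) : UniM2 Z' := by
  obtain ⟨⟨D, c, hD, hc, hc2, hcc, hcen⟩, b, Ψ, hΨ, hb, hσ, z, p, q, hz, hp, hq, hx⟩ := hr
  refine ⟨⟨D, (Φ e).symm c, hD, ?_, ?_, fun ψ hψ => ?_, fun ψ hψ hψc => ?_⟩, (Φ e).symm b,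
    s.maxM h' hb, ?_, z, ?_, ?_⟩
  · obtain ⟨Θ, hΘ⟩ := hc
    exact s.comm h' hΘ
  · apply (Φ e).injective
    rw [map_mul, AlgEquiv.apply_symm_apply, map_neg, map_smul, map_one]
    exact hc2
  · apply (Φ e).injective
    rw [map_mul, map_mul, AlgEquiv.apply_symm_apply]
    exact hcc _ (s.endo h' hψ)
  · obtain ⟨r, t, hrt⟩ := hcen _ (s.endo h' hψ) (fun x hx => by
      obtain ⟨Θ, hΘ⟩ := hx
      have h6 := hψc _ (s.comm h' hΘ)
      have h7 : Φ e ψ * x = x * Φ e ψ := by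
        apply (Φ e).symm.injective
        rw [map_mul, map_mul, AlgEquiv.symm_apply_apply]
        exact h6
      exact h7)
    refine ⟨r, t, ?_⟩
    apply (Φ e).injective
    rw [hrt, map_add, map_smul, map_smul, map_one, AlgEquiv.apply_symm_apply]
    rfl
  · intro w hw
    rw [minpoly.algEquiv_eq (Φ e).symm b] at hw
    exact hσ w hw
  · rw [minpoly.algEquiv_eq (Φ e).symm b]
    exact hz
  · have h1 := mult_eq s h' hΨ z
    rw [← h1.1, ← h1.2, hp, hq]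
    exact hx

/-- The multiplicities have no common divisor with the dimension. -/
theorem gcdM (hr : IsIndivisibleSub per U) : GcdM Z' := by
  obtain ⟨b, Ψ, hΨ, hb, hσ, z, p, q, hz, hp, hq, hp0, hq0, hx⟩ := hr
  have hmp : minpoly ℚ ((Φ e).symm b) = minpoly ℚ b := minpoly.algEquiv_eq (Φ e).symm b
  refine ⟨(Φ e).symm b, s.maxM h' hb, fun w hw => hσ w (by rwa [hmp] at hw), z, by rwa [hmp], p, q,
    by rw [← (mult_eq s h' hΨ z).1, hp], by rw [← (mult_eq s h' hΨ z).2, hq], hp0, hq0, ?_, ?_⟩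
  · intro w hw h1 h2
    rw [hmp] at hw
    rw [← (mult_eq s h' hΨ w).1] at h1 ⊢
    rw [← (mult_eq s h' hΨ w).2] at h2 ⊢
    rcases hx with ⟨-, -, h3⟩ | ⟨h3, h4, h5, -⟩
    · exact h3 w hw h1 h2
    · have h6 : starRingEnd ℂ w ∈ (minpoly ℚ b).aroots ℂ := by
        have h7 := Pool.Agent.Y4.P.root_aut (φ := (Φ e).symm b) (by rwa [hmp]) cc
        rwa [hmp] at h7
      rw [h5 w hw, h5 _ h6, ← h3, Nat.gcd_self, ← two_mul]
      rintro ⟨k, hk⟩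
      have h8 : p * p = p * (2 * k) := by rw [hk]; ring
      have h9 := Nat.eq_of_mul_eq_mul_left hp0 h8
      rw [Nat.odd_iff] at h4
      omega
  · rcases hx with ⟨h1, h2, -⟩ | ⟨h3, h4, h5, c, k, ⟨Θ, hΘ⟩, hcc, hk, hki⟩
    · exact Or.inl ⟨h1, h2⟩
    · refine Or.inr ⟨h3, fun m hm h6 => ?_, fun w hw => ?_, (Φ e).symm c, k, ?_, fun ψ hψ => ?_, ?_,
        hki⟩
      · rw [h6] at h4
        have h7 : Even (2 ^ m) := (Nat.even_pow.2 ⟨even_two, by omega⟩)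
        exact (Nat.not_even_iff_odd.2 h4) h7
      · rw [hmp] at hw
        have h6 : starRingEnd ℂ w ∈ (minpoly ℚ b).aroots ℂ := by
          have h7 := Pool.Agent.Y4.P.root_aut (φ := (Φ e).symm b) (by rwa [hmp]) cc
          rwa [hmp] at h7
        rw [← (mult_eq s h' hΨ w).1, ← (mult_eq s h' hΨ w).2, h5 w hw, h5 _ h6]
      · exact s.comm h' hΘ
      · apply (Φ e).injective
        rw [map_mul, map_mul, AlgEquiv.apply_symm_apply]
        exact hcc _ (s.endo h' hψ)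
      · rw [minpoly.algEquiv_eq (Φ e).symm c]
        exact hk

/-- Endomorphisms of the factor give endomorphisms of the abelian subvariety. -/
theorem maxEndo {φ : Matrix (Fin a ⊕ Fin a) (Fin a ⊕ Fin a) ℚ} (hφ : MaxM Z' φ) :
    IsMaxEndo per U (Φ e φ) := by
  refine ⟨s.endo h' hφ.1, fun b hb hc => ?_⟩
  obtain ⟨Ψ, hΨ⟩ := hb
  have h1 : (Φ e).symm b * φ = φ * (Φ e).symm b := by
    apply (Φ e).injective
    rw [map_mul, map_mul, AlgEquiv.apply_symm_apply]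
    exact hc
  have h5 := hφ.2 _ (s.comm h' hΨ) h1
  have h6 : Φ e ((Φ e).symm b) ∈ (Algebra.adjoin ℚ
      ({φ} : Set (Matrix (Fin a ⊕ Fin a) (Fin a ⊕ Fin a) ℚ))).map
      (Φ e : Matrix (Fin a ⊕ Fin a) (Fin a ⊕ Fin a) ℚ →ₐ[ℚ] Module.End ℚ U) := ⟨_, h5, rfl⟩
  rw [AlgHom.map_adjoin, AlgEquiv.apply_symm_apply, Set.image_singleton] at h6
  exact h6

end sd

theorem sepM {a₁ a₂ : ℕ} {Z₁ : Matrix (Fin a₁) (Fin a₁) ℂ} {Z₂ : Matrix (Fin a₂) (Fin a₂) ℂ}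
    {U₁ U₂ : Submodule ℚ H} {e₁ : (Fin a₁ ⊕ Fin a₁ → ℚ) ≃ₗ[ℚ] U₁}
    {e₂ : (Fin a₂ ⊕ Fin a₂ → ℚ) ≃ₗ[ℚ] U₂} {Ψ₁ : (Fin a₁ → ℂ) →ₗ[ℂ] T}
    {Ψ₂ : T →ₗ[ℂ] (Fin a₁ → ℂ)} {Ψ₃ : (Fin a₂ → ℂ) →ₗ[ℂ] T} {Ψ₄ : T →ₗ[ℂ] (Fin a₂ → ℂ)}
    (s₁ : Sd per Z₁ U₁ e₁ Ψ₁ Ψ₂) (s₂ : Sd per Z₂ U₂ e₂ Ψ₃ Ψ₄) (h₁ : PM Z₁) (h₂ : PM Z₂)
    (ht : IsSeparated per) {φ₁ : Matrix (Fin a₁ ⊕ Fin a₁) (Fin a₁ ⊕ Fin a₁) ℚ}
    {φ₂ : Matrix (Fin a₂ ⊕ Fin a₂) (Fin a₂ ⊕ Fin a₂) ℚ} (m₁ : MaxM Z₁ φ₁) (m₂ : MaxM Z₂ φ₂)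
    (c₁ : CMM φ₁) (c₂ : CMM φ₂) : SepM Z₁ Z₂ φ₁ φ₂ := by
  obtain ⟨Θ₁, t₁⟩ := s₁.endo h₁ m₁.1
  obtain ⟨Θ₂, t₂⟩ := s₂.endo h₂ m₂.1
  have r₁ : minpoly ℚ (Φ e₁ φ₁) = minpoly ℚ φ₁ := minpoly.algEquiv_eq (Φ e₁) φ₁
  have r₂ : minpoly ℚ (Φ e₂ φ₂) = minpoly ℚ φ₂ := minpoly.algEquiv_eq (Φ e₂) φ₂
  have key₁ : ∀ z : ℂ, mult per U₁ Θ₁ z = pd Z₁ (EigM φ₁ z) ∧
      mult per U₁ Θ₁ (starRingEnd ℂ z) = qd Z₁ (EigM φ₁ z) := by
    intro z
    have h3 := mult_eq s₁ h₁ t₁ z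
    rw [AlgEquiv.symm_apply_apply] at h3
    exact h3
  have key₂ : ∀ z : ℂ, mult per U₂ Θ₂ z = pd Z₂ (EigM φ₂ z) ∧
      mult per U₂ Θ₂ (starRingEnd ℂ z) = qd Z₂ (EigM φ₂ z) := by
    intro z
    have h3 := mult_eq s₂ h₂ t₂ z
    rw [AlgEquiv.symm_apply_apply] at h3
    exact h3
  intro z₁ hz₁ z₂ hz₂ n hn hn₁ hn₂ hyp
  have h3 := ht U₁ U₂ (Φ e₁ φ₁) (Φ e₂ φ₂) Θ₁ Θ₂ s₁.sim s₂.sim t₁ t₂ (maxEndo s₁ h₁ m₁)
    (maxEndo s₂ h₂ m₂) (fun z hz => c₁ z (by rw [← r₁]; exact hz))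
    (fun z hz => c₂ z (by rw [← r₂]; exact hz)) z₁ (by rw [r₁]; exact hz₁) z₂
    (by rw [r₂]; exact hz₂) n hn (by rw [(key₁ z₁).1, (key₁ z₁).2]; exact hn₁)
    (by rw [(key₂ z₂).1, (key₂ z₂).2]; exact hn₂)
    (fun τ => by rw [(key₁ _).1, (key₂ _).1]; exact hyp τ)
  simp only [(key₁ _).1, (key₂ _).1] at h3
  exact h3

/-- The simple factors of the period matrix. -/
theorem jgood4 (hUn : JUni2) (hG : JGcd) (hMx : JMaxCM) (hQu : JQuat) (hMu : JMum) : JGood4 := by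
  intro H T _ _ _ _ per G Z A hC hs ht
  refine ⟨fun a Z' E F hfac h' hsim ha => ?_, ?_⟩
  · obtain ⟨U, e, Ψ₁, Ψ₂, s⟩ := exists_sd A hC hfac h' hsim ha
    rcases hs U s.sim with h1 | h1 | ⟨p, hp, h1⟩ | h1 | h1 | h1 | h1 | h1 | h1 | h1 | h1
    · exact Or.inl (s.hasCM h' ha h1)
    · right; left
      rw [s.rank] at h1
      omega
    · right; right; left
      rw [s.rank] at h1
      rwa [show a = p by omega]
    · right; right; right; left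
      exact s.realOddM h' h1
    · right; right; right; right; left
      exact genM s h' h1
    · right; right; right; right; right; left
      exact cop4 s h' h1
    · right; right; right; right; right; right; right; right
      exact uniM2_big Y261.P.jspec hUn h' hsim ha (uniM s h' h1)
    · right; right; right; right; right; right; right; right
      exact gcdM_big Y261.P.jspec hG h' hsim ha (gcdM s h' h1)
    · right; right; right; right; right; right; right; left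
      exact s.twoTwo h' jtang3 (by
        obtain ⟨b, Ψ, h2, h3, h4, h5⟩ := h1
        exact ⟨b, Ψ, h2, h3, h4, h5⟩)
    · right; right; right; right; right; right; right; right
      exact bigM s h' h1
    · rcases small hMx hQu hUn hMu s h' hsim ha h1 with h2 | h2 | h2 | h2 | h2 | h2
      · exact Or.inl h2
      · exact Or.inr (Or.inr (Or.inr (Or.inl h2)))
      · exact Or.inr (Or.inr (Or.inr (Or.inr (Or.inl h2))))
      · exact Or.inr (Or.inr (Or.inr (Or.inr (Or.inr (Or.inl h2)))))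
      · exact Or.inr (Or.inr (Or.inr (Or.inr (Or.inr (Or.inr (Or.inr (Or.inl h2)))))))
      · exact Or.inr (Or.inr (Or.inr (Or.inr (Or.inr (Or.inr (Or.inr (Or.inr h2)))))))
  · intro a₁ a₂ Z₁ Z₂ E₁ F₁ E₂ F₂ hf₁ hf₂ h₁ h₂ hs₁ hs₂ ha₁ ha₂ φ₁ φ₂ m₁ m₂ c₁ c₂
    obtain ⟨U₁, e₁, Ψ₁, Ψ₂, s₁⟩ := exists_sd A hC hf₁ h₁ hs₁ ha₁
    obtain ⟨U₂, e₂, Ψ₃, Ψ₄, s₂⟩ := exists_sd A hC hf₂ h₂ hs₂ ha₂
    exact sepM s₁ s₂ h₁ h₂ ht m₁ m₂ c₁ c₂

/-- **The theorem for abstract abelian varieties.** -/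
theorem jfinal4 (hUn : JUni2) (hG : JGcd) (hMx : JMaxCM) (hQu : JQuat) (hMu : JMum)
    (hm : JMain4) : JFinal4 := by
  intro H T _ _ _ _ per hX hs ht κ _ f
  refine ⟨fun hf => ?_, Y275.P.wr_isHodge⟩
  obtain ⟨a, Z, h, A, hC⟩ := exists_ppav hX
  have hsf := jgood4 hUn hG hMx hQu hMu H T per a Z A hC hs ht
  obtain ⟨Ψ₁, h₁⟩ := h.cht.hom hC (R := 1) (by rw [cK_one, Matrix.one_mul, Matrix.mul_one])
  obtain ⟨Ψ₂, h₂⟩ := hC.hom h.cht (R := 1) (by rw [cK_one, Matrix.one_mul, Matrix.mul_one])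
  have e₁ : ∀ w, Ψ₁ (perOne Z w) = per (A.symm w) := fun w => by
    rw [h₁, one_mulVec]
    rfl
  have e₂ : ∀ v, Ψ₂ (per v) = perOne Z (A v) := fun v => by
    have h3 := h₂ (A v)
    have h4 : (per.comp A.symm.toLinearMap.toAddMonoidHom) (A v) = per v := by
      change per (A.symm (A v)) = per v
      rw [LinearEquiv.symm_apply_apply]
    rwa [h4, one_mulVec] at h3
  have h5 : IsHodge (perOne Z) (f.compLinearMap A.symm.toLinearMap) :=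
    Pool.Agent.TH504.CB.isHodge_comp A.symm.toLinearMap Ψ₁ e₁ hf
  have h6 := hm a Z h hsf κ _ h5
  have h7 := Y275.P.pull (per := per) h6 A.toLinearMap Ψ₂ e₂
  have h8 : (f.compLinearMap A.symm.toLinearMap).compLinearMap A.toLinearMap = f := by
    ext v
    rw [AlternatingMap.compLinearMap_apply, AlternatingMap.compLinearMap_apply]
    congr 1
    funext k
    exact A.symm_apply_apply (v k)
  rwa [h8] at h7

end

end Pool.Agent.Y4.Q
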